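import Mathlib

/-! Project REG, module AFF: a function on `(ZMod n) \ 0` orthogonal to `c, c^2, ..., c^(n-3)`
is affine.
BLUEPRINT. For `c ≠ 0`: `f c = - ∑_{d ≠ 0} f d * ∑_{k=1}^{n-1} (c⁻¹ d)^k`, because the inner sum is
`-1` for `d = c` and `0` for the other `d ≠ 0` (geometric sum, `x^(n-1) = 1`). Interchange the
sums: `f c = - ∑_{k=1}^{n-1} c^(-k) ∑_{d≠0} d^k f d`, only `k = n-2` (`c^(-(n-2)) = c`) and
`k = n - 1` remain. -/

namespace Pool.Agent.Helper38.REG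

open Finset

theorem aff {n : ℕ} [hn : Fact n.Prime] (h5 : 5 ≤ n) (f : ZMod n → ZMod n)
    (hf : ∀ k, 1 ≤ k → k ≤ n - 3 → ∑ c ∈ univ.erase (0 : ZMod n), c ^ k * f c = 0) :
    ∃ α β : ZMod n, ∀ c, c ≠ 0 → f c = α + β * c := by
  obtain ⟨m, rfl⟩ : ∃ m, n = m + 3 := ⟨n - 3, by omega⟩
  set M : ℕ → ZMod (m + 3) := fun k => ∑ c ∈ univ.erase (0 : ZMod (m + 3)), c ^ k * f c with hM
  have hfer : ∀ x : ZMod (m + 3), x ≠ 0 → x ^ (m + 2) = 1 := by
    intro x hx
    have h := ZMod.pow_card_sub_one_eq_one (p := m + 3) hx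
    simpa using h
  refine ⟨-M (m + 2), -M (m + 1), fun c hc => ?_⟩
  have hgeo : ∀ d : ZMod (m + 3), d ≠ 0 →
      ∑ k ∈ range (m + 2), (c⁻¹ * d) ^ (k + 1) = if d = c then -1 else 0 := by
    intro d hd
    by_cases hdc : d = c
    · rw [if_pos hdc, hdc, inv_mul_cancel₀ hc]
      simp only [one_pow, sum_const, card_range, nsmul_eq_mul, mul_one]
      have h3 : ((m + 3 : ℕ) : ZMod (m + 3)) = 0 := ZMod.natCast_self (m + 3)
      have h4 : ((m + 2 : ℕ) : ZMod (m + 3)) + 1 = 0 := by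
        rw [← h3]
        push_cast
        ring
      exact eq_neg_of_add_eq_zero_left h4
    · rw [if_neg hdc]
      have hx0 : c⁻¹ * d ≠ 0 := mul_ne_zero (inv_ne_zero hc) hd
      have hx1 : c⁻¹ * d - 1 ≠ 0 := by
        intro h
        apply hdc
        have h2 : c⁻¹ * d = 1 := sub_eq_zero.1 h
        calc d = c * (c⁻¹ * d) := by rw [mul_inv_cancel_left₀ hc]
          _ = c := by rw [h2, mul_one]
      have h5 : ∑ k ∈ range (m + 2), (c⁻¹ * d) ^ (k + 1) =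
          (∑ k ∈ range (m + 2), (c⁻¹ * d) ^ k) * (c⁻¹ * d) := by
        rw [sum_mul]
        exact sum_congr rfl fun k _ => pow_succ _ _
      have h6 : (∑ k ∈ range (m + 2), (c⁻¹ * d) ^ k) * (c⁻¹ * d - 1) = 0 := by
        rw [geom_sum_mul, hfer _ hx0, sub_self]
      rw [h5, (mul_eq_zero.1 h6).resolve_right hx1, zero_mul]
  have key : ∑ k ∈ range (m + 2), c⁻¹ ^ (k + 1) * M (k + 1) = - f c := by
    have h1 : ∀ k ∈ range (m + 2), c⁻¹ ^ (k + 1) * M (k + 1) =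
        ∑ d ∈ univ.erase (0 : ZMod (m + 3)), (c⁻¹ * d) ^ (k + 1) * f d := by
      intro k _
      rw [hM]
      simp only [mul_sum]
      refine sum_congr rfl fun d _ => ?_
      rw [mul_pow, mul_assoc]
    rw [sum_congr rfl h1, sum_comm]
    have h2 : ∀ d ∈ univ.erase (0 : ZMod (m + 3)),
        ∑ k ∈ range (m + 2), (c⁻¹ * d) ^ (k + 1) * f d = if d = c then - f c else 0 := by
      intro d hd
      rw [← sum_mul, hgeo d (ne_of_mem_erase hd)]
      by_cases hdc : d = c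
      · rw [if_pos hdc, if_pos hdc, hdc, neg_one_mul]
      · rw [if_neg hdc, if_neg hdc, zero_mul]
    rw [sum_congr rfl h2, sum_ite_eq' (univ.erase (0 : ZMod (m + 3))) c (fun _ => - f c),
      if_pos (mem_erase.2 ⟨hc, mem_univ c⟩)]
  rw [sum_range_succ, sum_range_succ] at key
  have h0 : ∑ k ∈ range m, c⁻¹ ^ (k + 1) * M (k + 1) = 0 := by
    refine sum_eq_zero fun k hk => ?_
    have hk' := mem_range.1 hk
    have h7 : M (k + 1) = 0 := hf (k + 1) (by omega) (by omega)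
    rw [h7, mul_zero]
  have h8 : c⁻¹ ^ (m + 2) = 1 := hfer _ (inv_ne_zero hc)
  have h9 : c⁻¹ ^ (m + 1) = c := by
    have h10 : c⁻¹ ^ (m + 1) * c⁻¹ = 1 := by rw [← pow_succ, h8]
    calc c⁻¹ ^ (m + 1) = c⁻¹ ^ (m + 1) * c⁻¹ * c := by rw [mul_assoc, inv_mul_cancel₀ hc, mul_one]
      _ = c := by rw [h10, one_mul]
  rw [h0, zero_add, h9, show m + 1 + 1 = m + 2 from rfl, h8, one_mul] at key
  calc f c = -(c * M (m + 1) + M (m + 2)) := by rw [key, neg_neg]
    _ = -M (m + 2) + -M (m + 1) * c := by ring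

end Pool.Agent.Helper38.REG
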