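import Mathlib

/-! Project REG (MP_f1db85_nt): the ring `O n = ℤ[ζ_n]`, `n` prime. -/

namespace Pool.Agent.Helper38.REG

open NumberField Polynomial

variable (n : ℕ) [hn : Fact n.Prime]

abbrev K : Type := CyclotomicField n ℚ
abbrev O : Type := 𝓞 (K n)

instance cycK : IsCyclotomicExtension {n} ℚ (K n) := CyclotomicField.isCyclotomicExtension n ℚ

lemma zspec : IsPrimitiveRoot (IsCyclotomicExtension.zeta n ℚ (K n)) n :=
  IsCyclotomicExtension.zeta_spec n ℚ (K n)

/-- the `n`-th root of unity -/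
noncomputable def z : O n := (zspec n).toInteger

lemma z_prim : IsPrimitiveRoot (z n) n := (zspec n).toInteger_isPrimitiveRoot

lemma zn : z n ^ n = 1 := (z_prim n).pow_eq_one

lemma z_unit : IsUnit (z n) := IsUnit.of_pow_eq_one (zn n) hn.out.ne_zero

lemma z_rel : ∑ i ∈ Finset.range n, z n ^ i = 0 := (z_prim n).geom_sum_eq_zero hn.out.one_lt

noncomputable def pb : PowerBasis ℤ (O n) := (zspec n).integralPowerBasis

lemma pb_gen : (pb n).gen = z n := (zspec n).integralPowerBasis_gen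

lemma pb_dim : (pb n).dim = n - 1 := by
  have := (zspec n).integralPowerBasis_dim
  rw [pb, this, Nat.totient_prime hn.out]

lemma minpoly_z : minpoly ℤ (z n) = cyclotomic n ℤ := by
  rw [cyclotomic_eq_minpoly (zspec n) hn.out.pos]
  exact (minpoly.algebraMap_eq (RingOfIntegers.coe_injective) (z n)).symm

lemma aeval_cyc {R : Type*} [CommRing R] {y : R} (hy : ∑ i ∈ Finset.range n, y ^ i = 0) :
    aeval y (minpoly ℤ (pb n).gen) = 0 := by
  rw [pb_gen, minpoly_z, cyclotomic_prime]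
  simpa using hy

/-- ring homs out of `O n` -/
noncomputable def lft {R : Type*} [CommRing R] (y : R)
    (hy : ∑ i ∈ Finset.range n, y ^ i = 0) : O n →+* R :=
  ((pb n).lift y (aeval_cyc n hy)).toRingHom

lemma lft_z {R : Type*} [CommRing R] (y : R) (hy : ∑ i ∈ Finset.range n, y ^ i = 0) :
    lft n y hy (z n) = y := by
  have := (pb n).lift_gen y (aeval_cyc n hy)
  exact (congrArg ((pb n).lift y (aeval_cyc n hy)) (pb_gen n).symm).trans this

/-- every element is a polynomial in `z` of degree `< n - 1` -/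
lemma exists_poly (x : O n) : ∃ f : ℤ[X], f.degree < ((n - 1 : ℕ) : WithBot ℕ) ∧
    aeval (z n) f = x := by
  have h := (pb n).basis.sum_repr x
  have hb : ∀ i, (pb n).basis i = z n ^ (i : ℕ) := by
    intro i
    rw [PowerBasis.basis_eq_pow, pb_gen]
  simp only [hb] at h
  refine ⟨∑ i : Fin (pb n).dim, C ((pb n).basis.repr x i) * X ^ (i : ℕ), ?_, ?_⟩
  · refine (degree_sum_fin_lt fun i : Fin (pb n).dim => (pb n).basis.repr x i).trans_le ?_
    rw [pb_dim]
  · refine Eq.trans ?_ h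
    rw [map_sum]
    refine Finset.sum_congr rfl fun i _ => ?_
    rw [map_mul, map_pow, aeval_X, aeval_C, zsmul_eq_mul]
    rfl

lemma hom_ext {R : Type*} [CommRing R] {f g : O n →+* R} (h : f (z n) = g (z n)) : f = g := by
  ext x
  obtain ⟨p, -, rfl⟩ := exists_poly n x
  rw [aeval_def, eval₂_eq_sum_range, map_sum, map_sum]
  refine Finset.sum_congr rfl fun i _ => ?_
  simp [h]

lemma zpow_geom {k : ℕ} (hk : ¬ n ∣ k) : ∑ i ∈ Finset.range n, (z n ^ k) ^ i = 0 :=
  ((z_prim n).pow_of_coprime k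
    ((Nat.Prime.coprime_iff_not_dvd hn.out).2 hk).symm).geom_sum_eq_zero hn.out.one_lt

lemma z_pow_mod (a : ℕ) : z n ^ a = z n ^ (a % n) := by
  conv_lhs => rw [← Nat.mod_add_div a n, pow_add, pow_mul, zn, one_pow, mul_one]

lemma z_pow_val (a b : ℕ) (h : (a : ZMod n) = b) : z n ^ a = z n ^ b := by
  rw [z_pow_mod n a, z_pow_mod n b, (ZMod.natCast_eq_natCast_iff' a b n).1 h]

lemma z_pow_eq_iff (a b : ℕ) : z n ^ a = z n ^ b ↔ (a : ZMod n) = b := by
  refine ⟨fun h => ?_, z_pow_val n a b⟩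
  rw [z_pow_mod n a, z_pow_mod n b] at h
  have := (z_prim n).pow_inj (Nat.mod_lt _ hn.out.pos) (Nat.mod_lt _ hn.out.pos) h
  exact (ZMod.natCast_eq_natCast_iff' a b n).2 this

lemma unit_nd (a : (ZMod n)ˣ) : ¬ n ∣ (a : ZMod n).val := by
  intro h
  have h1 := (ZMod.natCast_eq_zero_iff ((a : ZMod n).val) n).2 h
  rw [ZMod.natCast_zmod_val] at h1
  exact a.ne_zero h1

/-- the automorphism `z ↦ z ^ a` -/
noncomputable def sg (a : (ZMod n)ˣ) : O n →+* O n :=
  lft n (z n ^ (a : ZMod n).val) (zpow_geom n (unit_nd n a))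

lemma sg_z (a : (ZMod n)ˣ) : sg n a (z n) = z n ^ (a : ZMod n).val := lft_z n _ _

lemma sg_sg (a b : (ZMod n)ˣ) (x : O n) : sg n a (sg n b x) = sg n (a * b) x := by
  have : (sg n a).comp (sg n b) = sg n (a * b) := by
    apply hom_ext
    rw [RingHom.comp_apply, sg_z, map_pow, sg_z, sg_z, ← pow_mul]
    apply z_pow_val
    push_cast
    rw [ZMod.natCast_zmod_val, ZMod.natCast_zmod_val, ZMod.natCast_zmod_val]
  exact congrArg (fun g => g x) this

lemma sg_one (x : O n) : sg n 1 x = x := by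
  have : sg n 1 = RingHom.id (O n) := by
    apply hom_ext
    rw [sg_z, RingHom.id_apply]
    conv_rhs => rw [← pow_one (z n)]
    apply z_pow_val
    rw [ZMod.natCast_zmod_val]
    simp
  rw [this]
  rfl

lemma sg_inv (a : (ZMod n)ˣ) (x : O n) : sg n a (sg n a⁻¹ x) = x := by
  rw [sg_sg, mul_inv_cancel, sg_one]

lemma sg_inv' (a : (ZMod n)ˣ) (x : O n) : sg n a⁻¹ (sg n a x) = x := by
  rw [sg_sg, inv_mul_cancel, sg_one]

lemma sg_bij (a : (ZMod n)ˣ) : Function.Bijective (sg n a) :=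
  ⟨fun x y h => by rw [← sg_inv' n a x, h, sg_inv'], fun x => ⟨_, sg_inv n a x⟩⟩

/-- `λ = 1 - ζ` -/
noncomputable def lam : O n := 1 - z n

lemma lam_prime : Prime (lam n) := by
  have h := (zspec n).zeta_sub_one_prime'
  have e : lam n = -((zspec n).toInteger - 1) := by
    unfold lam z; ring
  rw [e]
  exact h.neg

lemma lam_dvd_int {a : ℤ} : lam n ∣ (a : O n) ↔ (n : ℤ) ∣ a := by
  have h := IsCyclotomicExtension.Rat.zeta_sub_one_dvd_intCast_iff' (hζ := zspec n) (n := a)
  have e : lam n = -((zspec n).toInteger - 1) := by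
    unfold lam z; ring
  rw [e, neg_dvd]
  exact h

/-- `1 - z ^ k` is `λ` times a unit -/
lemma lam_eps (k : ℕ) (hk : ¬ n ∣ k) :
    1 - z n ^ k = lam n * ∑ i ∈ Finset.range k, z n ^ i ∧
      IsUnit (∑ i ∈ Finset.range k, z n ^ i) := by
  refine ⟨?_, ?_⟩
  · unfold lam
    rw [mul_comm, geom_sum_mul_neg]
  · have h := (z_prim n).geom_sum_isUnit hn.out.two_le
      ((Nat.Prime.coprime_iff_not_dvd hn.out).2 hk).symm
    exact h

end Pool.Agent.Helper38.REG
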