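import Pool.Agent.Helper38.REG.Defs

/-! Project REG: common lemmas about `X ^ n + Y ^ n` and `λ`. -/

namespace Pool.Agent.Helper38.REG

open NumberField Finset

variable (n : ℕ) [hn : Fact n.Prime]

lemma n_eq : ∃ u : O n, IsUnit u ∧ (n : O n) = u * lam n ^ (n - 1) := by
  have h := IsCyclotomicExtension.Rat.associated_zeta_sub_one_pow_prime n (zspec n)
  obtain ⟨v, hv⟩ := h
  have e : lam n = -((zspec n).toInteger - 1) := by
    unfold lam z; ring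
  refine ⟨v * (-1) ^ (n - 1), v.isUnit.mul (isUnit_one.neg.pow _), ?_⟩
  rw [e, neg_pow ((zspec n).toInteger - 1), ← hv]
  have h2 : ((-1 : O n) ^ (n - 1)) * (-1) ^ (n - 1) = 1 := by
    rw [← mul_pow]; simp
  generalize (-1 : O n) ^ (n - 1) = s at h2
  generalize ((zspec n).toInteger - 1) ^ (n - 1) = t
  linear_combination (- t * (v : O n)) * h2

lemma n_odd (h5 : 5 ≤ n) : Odd n := hn.out.odd_of_ne_two (by omega)

lemma prod_lin (h5 : 5 ≤ n) (X Y : O n) :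
    ∏ i : ZMod n, (X + z n ^ i.val * Y) = X ^ n + Y ^ n := by
  rw [(z_prim n).pow_add_pow_eq_prod_add_mul X Y (n_odd n h5)]
  have hz : NeZero n := ⟨hn.out.ne_zero⟩
  refine Finset.prod_bij (fun (i : ZMod n) _ => z n ^ i.val) ?_ ?_ ?_ ?_
  · intro i _
    rw [Polynomial.mem_nthRootsFinset hn.out.pos, ← pow_mul, mul_comm, pow_mul, zn, one_pow]
  · intro i _ j _ h
    have := (z_pow_eq_iff n _ _).1 h
    rwa [ZMod.natCast_zmod_val, ZMod.natCast_zmod_val] at this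
  · intro y hy
    rw [Polynomial.mem_nthRootsFinset hn.out.pos] at hy
    obtain ⟨i, hi, hiy⟩ := (z_prim n).eq_pow_of_pow_eq_one hy
    exact ⟨(i : ZMod n), Finset.mem_univ _, by rw [ZMod.val_cast_of_lt hi, hiy]⟩
  · intro i _
    rfl

lemma val_nd {i : ZMod n} (hi : i ≠ 0) : ¬ n ∣ i.val := by
  intro h
  apply hi
  have := (ZMod.natCast_eq_zero_iff i.val n).2 h
  rwa [ZMod.natCast_zmod_val] at this

/-- `1 - z ^ i = λ * unit` -/
lemma one_sub_unit {i : ZMod n} (hi : i ≠ 0) :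
    ∃ w : O n, IsUnit w ∧ 1 - z n ^ i.val = lam n * w :=
  ⟨_, (lam_eps n i.val (val_nd n hi)).2, (lam_eps n i.val (val_nd n hi)).1⟩

/-- `z ^ i - z ^ j = λ * unit` -/
lemma diff_unit {i j : ZMod n} (hij : i ≠ j) :
    ∃ w : O n, IsUnit w ∧ z n ^ i.val - z n ^ j.val = lam n * w := by
  obtain ⟨w, hw, h⟩ := one_sub_unit n (i := j - i) (sub_ne_zero.2 hij.symm)
  refine ⟨z n ^ i.val * w, ((z_unit n).pow _).mul hw, ?_⟩
  have e : z n ^ j.val = z n ^ i.val * z n ^ (j - i).val := by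
    rw [← pow_add]
    apply z_pow_val
    push_cast
    rw [ZMod.natCast_zmod_val, ZMod.natCast_zmod_val, ZMod.natCast_zmod_val]
    ring
  rw [e]
  linear_combination z n ^ i.val * h

/-- reduction modulo `λ` -/
noncomputable def cc : O n →+* ZMod n := (c0 n).comp (T n)

lemma cc_z : cc n (z n) = 1 := c0_z n

lemma lam_dvd_cc (x : O n) : lam n ∣ x ↔ cc n x = 0 := lam_dvd_iff n x

lemma ok_cc (x : O n) : ok n x ↔ cc n x ≠ 0 := ok_iff n x

lemma cc_zpow (k : ℕ) : cc n (z n ^ k) = 1 := by rw [map_pow, cc_z, one_pow]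

omit hn in
lemma coprime_aux {F G X Y w w' a b : O n} (hw : IsUnit w) (hw' : IsUnit w')
    (h1 : F - G = w * Y) (h2 : a * F - b * G = w' * X) (hXY : IsCoprime X Y) : IsCoprime F G := by
  obtain ⟨r, s, hrs⟩ := hXY
  obtain ⟨v, rfl⟩ := hw
  obtain ⟨v', rfl⟩ := hw'
  have hv : (v : O n) * ((v⁻¹ : (𝓞 (K n))ˣ) : O n) = 1 := by simp
  have hv' : (v' : O n) * ((v'⁻¹ : (𝓞 (K n))ˣ) : O n) = 1 := by simp
  refine ⟨s * ((v⁻¹ : (𝓞 (K n))ˣ) : O n) + r * ((v'⁻¹ : (𝓞 (K n))ˣ) : O n) * a,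
    - s * ((v⁻¹ : (𝓞 (K n))ˣ) : O n) - r * ((v'⁻¹ : (𝓞 (K n))ˣ) : O n) * b, ?_⟩
  linear_combination s * ((v⁻¹ : (𝓞 (K n))ˣ) : O n) * h1 +
    r * ((v'⁻¹ : (𝓞 (K n))ˣ) : O n) * h2 + hrs + s * Y * hv + r * X * hv'

end Pool.Agent.Helper38.REG
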