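import Pool.Agent.Helper38.REG.Defs

/-! Project REG, module B: logarithmic invariants of the cyclotomic units.
CLAIM: `L n r (1 + z + ... + z^(a-1)) = (a^r - 1) * B_r / r` in `ZMod n` (r even, 2 ≤ r ≤ n - 3).
BLUEPRINT. All series over `ZMod n`, identities for the coefficients of `u^k` with small `k`.
(1) `G = ∑_{i<a} E^i` represents `1 + z + ... + z^(a-1)` (`Rp.sum`, `Rp.zpow`), constant term `a`.
(2) `E - 1 = u * H` with `H = ∑ u^k / (k+1)!` (`k ≤ n - 2`). `(E - 1) * G = E^a - 1`, and by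
`coeff_E_pow` `E^a - 1` agrees with `rescale a (E - 1) = a u * rescale a H` for the coefficients
`k < n`. So `H * G` and `a * rescale a H` have the same coefficients for `k < n - 1`.
(3) `ld_mul`, `ld_congr`, `ld_rescale`: `coeff (r-1) (ld G) = (a^r - 1) * coeff (r-1) (ld H)`
for `r ≤ n - 2`.
(4) let `b_k` be the image of `bernoulli k` in `ZMod n` for `k ≤ n - 2` (the denominators are prime
to `n`, strong induction on `∑ k ∈ range m, m.choose k * bernoulli k = if m = 1 then 1 else 0`,
`bernoulli_spec'` or `sum_bernoulli`); then `Bs = ∑_{k ≤ n-2} b_k u^k / k!` satisfies `Bs * H = 1`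
up to `u^(n-2)`, and `ld H = 1 + (Bs - 1) / u` (from `H' = H + (1 - H)/u`, because `E' = E`,
see `deriv_E`), so `(r-1)! * coeff (r-1) (ld H) = b_r / r` for `r ≥ 2`. Nonzero iff `n` does not
divide the numerator of `B_r`. -/

namespace Pool.Agent.Helper38.REG

open NumberField

variable (n : ℕ) [hn : Fact n.Prime]

section aux

/-- `q` reduces to `x` modulo `n` -/
private def Rel (q : ℚ) (x : ZMod n) : Prop :=
  ∃ (m : ℤ) (d : ℕ), (d : ZMod n) ≠ 0 ∧ q * d = m ∧ (m : ZMod n) = d * x

private lemma Rel.add {q q' : ℚ} {x x' : ZMod n} (h : Rel n q x) (h' : Rel n q' x') :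
    Rel n (q + q') (x + x') := by
  obtain ⟨m, d, hd, h1, h2⟩ := h
  obtain ⟨m', d', hd', h1', h2'⟩ := h'
  refine ⟨m * d' + m' * d, d * d', ?_, ?_, ?_⟩
  · push_cast; exact mul_ne_zero hd hd'
  · push_cast; linear_combination (d' : ℚ) * h1 + (d : ℚ) * h1'
  · push_cast; linear_combination (d' : ZMod n) * h2 + (d : ZMod n) * h2'

private lemma Rel.int_mul {q : ℚ} {x : ZMod n} (h : Rel n q x) (c : ℤ) :
    Rel n ((c : ℚ) * q) ((c : ZMod n) * x) := by
  obtain ⟨m, d, hd, h1, h2⟩ := h
  refine ⟨c * m, d, hd, ?_, ?_⟩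
  · push_cast; linear_combination (c : ℚ) * h1
  · push_cast; linear_combination (c : ZMod n) * h2

private lemma Rel.of_mul {q : ℚ} {x : ZMod n} {c : ℕ} (hc : (c : ZMod n) ≠ 0)
    (h : Rel n ((c : ℚ) * q) ((c : ZMod n) * x)) : Rel n q x := by
  obtain ⟨m, d, hd, h1, h2⟩ := h
  refine ⟨m, c * d, ?_, ?_, ?_⟩
  · push_cast; exact mul_ne_zero hc hd
  · push_cast; linear_combination h1
  · push_cast; linear_combination h2

private lemma Rel.int (c : ℤ) : Rel n (c : ℚ) (c : ZMod n) :=
  ⟨c, 1, by simp, by simp, by simp⟩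

private lemma Rel.sum (s : Finset ℕ) (q : ℕ → ℚ) (x : ℕ → ZMod n)
    (h : ∀ i ∈ s, Rel n (q i) (x i)) : Rel n (∑ i ∈ s, q i) (∑ i ∈ s, x i) := by
  classical
  induction s using Finset.induction_on with
  | empty => simpa using Rel.int n 0
  | insert a s ha ih =>
    rw [Finset.sum_insert ha, Finset.sum_insert ha]
    exact (h a (Finset.mem_insert_self a s)).add n
      (ih fun i hi => h i (Finset.mem_insert_of_mem hi))

/-- `(E - 1) / u` -/
private noncomputable def Hs : PowerSeries (ZMod n) :=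
  PowerSeries.mk fun k => (((k + 1).factorial : ℕ) : ZMod n)⁻¹

private lemma coeff_Hs (k : ℕ) :
    PowerSeries.coeff k (Hs n) = (((k + 1).factorial : ℕ) : ZMod n)⁻¹ := by
  rw [Hs, PowerSeries.coeff_mk]

private lemma E_eq : E n = 1 + PowerSeries.X * Hs n := by
  ext k
  cases k with
  | zero => simp [coeff_E]
  | succ k =>
    rw [map_add, PowerSeries.coeff_succ_X_mul, coeff_E, PowerSeries.coeff_one,
      if_neg (by omega), zero_add, coeff_Hs]

private lemma Hs_zero : PowerSeries.constantCoeff (Hs n) ≠ 0 := by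
  rw [← PowerSeries.coeff_zero_eq_constantCoeff_apply, coeff_Hs]
  simp

/-- the Bernoulli numbers modulo `n` -/
private noncomputable def beta (k : ℕ) : ZMod n :=
  ((k.factorial : ℕ) : ZMod n) * PowerSeries.coeff k (Hs n)⁻¹

private lemma beta_rec (k : ℕ) (hk : k + 1 < n) :
    ∑ i ∈ Finset.range (k + 1), (((k + 1).choose i : ℕ) : ZMod n) * beta n i =
      if k = 0 then 1 else 0 := by
  have h := PowerSeries.inv_mul_cancel (Hs n) (Hs_zero n)
  have h1 := congrArg (PowerSeries.coeff k) h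
  rw [PowerSeries.coeff_mul, Finset.Nat.sum_antidiagonal_eq_sum_range_succ_mk,
    PowerSeries.coeff_one] at h1
  have h2 : ∀ i ∈ Finset.range (k + 1), (((k + 1).choose i : ℕ) : ZMod n) * beta n i =
      (((k + 1).factorial : ℕ) : ZMod n) *
        (PowerSeries.coeff i (Hs n)⁻¹ * PowerSeries.coeff (k - i) (Hs n)) := by
    intro i hi
    have hi' : i ≤ k := Nat.lt_succ_iff.1 (Finset.mem_range.1 hi)
    have h3 : (((k + 1).choose i : ℕ) : ZMod n) * (i.factorial : ℕ) *
        (((k - i) + 1).factorial : ℕ) = ((k + 1).factorial : ℕ) := by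
      have h4 := Nat.choose_mul_factorial_mul_factorial (n := k + 1) (k := i) (by omega)
      rw [show k + 1 - i = (k - i) + 1 by omega] at h4
      exact_mod_cast congrArg (Nat.cast : ℕ → ZMod n) h4
    have f1 := fac_ne n (k := (k - i) + 1) (by omega)
    rw [coeff_Hs, ← h3]
    unfold beta
    field_simp
  rw [Finset.sum_congr rfl h2, ← Finset.mul_sum, h1]
  split_ifs with h5
  · subst h5; simp
  · rw [mul_zero]

private lemma cast_ne {k : ℕ} (h0 : 0 < k) (hk : k < n) : ((k : ℕ) : ZMod n) ≠ 0 := by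
  intro h
  have := Nat.le_of_dvd h0 ((ZMod.natCast_eq_zero_iff k n).1 h)
  omega

private lemma rel_beta (k : ℕ) (hk : k + 1 < n) : Rel n (bernoulli k) (beta n k) := by
  induction k using Nat.strong_induction_on with
  | _ k ih =>
    have h1 := sum_bernoulli (k + 1)
    have h2 := beta_rec n k hk
    rw [Finset.sum_range_succ, Nat.choose_succ_self_right] at h1 h2
    have hs : Rel n (∑ i ∈ Finset.range k, (((k + 1).choose i : ℕ) : ℚ) * bernoulli i)
        (∑ i ∈ Finset.range k, (((k + 1).choose i : ℕ) : ZMod n) * beta n i) := by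
      refine Rel.sum n _ _ _ fun i hi => ?_
      have hi' := Finset.mem_range.1 hi
      have := (ih i hi' (by omega)).int_mul n ((k + 1).choose i : ℤ)
      simpa using this
    have h3 : Rel n (((k + 1 : ℕ) : ℚ) * bernoulli k) (((k + 1 : ℕ) : ZMod n) * beta n k) := by
      have h4 := (Rel.int n (if k = 0 then 1 else 0)).add n (hs.int_mul n (-1))
      have e1 : ((k + 1 : ℕ) : ℚ) * bernoulli k = (((if k = 0 then 1 else 0 : ℤ)) : ℚ) +
          ((-1 : ℤ) : ℚ) * ∑ i ∈ Finset.range k, (((k + 1).choose i : ℕ) : ℚ) * bernoulli i := by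
        have e0 : (if k + 1 = 1 then (1 : ℚ) else 0) = (((if k = 0 then 1 else 0 : ℤ)) : ℚ) := by
          split_ifs <;> first | rfl | omega | simp
        rw [e0] at h1
        rw [← h1]
        push_cast
        ring
      have e2 : ((k + 1 : ℕ) : ZMod n) * beta n k = (((if k = 0 then 1 else 0 : ℤ)) : ZMod n) +
          ((-1 : ℤ) : ZMod n) *
            ∑ i ∈ Finset.range k, (((k + 1).choose i : ℕ) : ZMod n) * beta n i := by
        have e0 : (if k = 0 then (1 : ZMod n) else 0) =
            (((if k = 0 then 1 else 0 : ℤ)) : ZMod n) := by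
          split_ifs <;> simp
        rw [e0] at h2
        rw [← h2]
        push_cast
        ring
      rw [e1, e2]
      exact h4
    exact Rel.of_mul n (cast_ne n (by omega) hk) h3

private lemma beta_ne {k : ℕ} (hk : k + 1 < n) (hB : ¬ (n : ℤ) ∣ (bernoulli k).num) :
    beta n k ≠ 0 := by
  intro h0
  obtain ⟨m, d, hd, h1, h2⟩ := rel_beta n k hk
  rw [h0, mul_zero, ZMod.intCast_zmod_eq_zero_iff_dvd] at h2
  have h3 : (bernoulli k).num * (d : ℤ) = m * ((bernoulli k).den : ℤ) := by
    have h4 : (bernoulli k) * ((bernoulli k).den : ℚ) = ((bernoulli k).num : ℚ) :=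
      Rat.mul_den_eq_num _
    have h5 : (((bernoulli k).num * (d : ℤ) : ℤ) : ℚ) =
        ((m * ((bernoulli k).den : ℤ) : ℤ) : ℚ) := by
      push_cast
      rw [← h4, ← h1]
      ring
    exact_mod_cast h5
  have h6 : (n : ℤ) ∣ (bernoulli k).num * (d : ℤ) := by
    rw [h3]; exact h2.mul_right _
  rcases (Nat.prime_iff_prime_int.1 hn.out).dvd_or_dvd h6 with h7 | h7
  · exact hB h7
  · apply hd
    rw [ZMod.natCast_eq_zero_iff]
    exact_mod_cast h7

private lemma coeff_ld_Hs {r : ℕ} (h2 : 2 ≤ r) (h3 : r < n - 1) :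
    PowerSeries.coeff (r - 1) (ld n (Hs n)) = PowerSeries.coeff r (Hs n)⁻¹ := by
  have hd : PowerSeries.derivative (ZMod n) (E n) =
      PowerSeries.X * PowerSeries.derivative (ZMod n) (Hs n) + Hs n := by
    rw [E_eq, map_add, Derivation.leibniz, PowerSeries.derivative_X, smul_eq_mul, smul_eq_mul,
      mul_one, Derivation.map_one_eq_zero, zero_add]
  have hc : ∀ k < n - 1, PowerSeries.coeff k
      (PowerSeries.X * PowerSeries.derivative (ZMod n) (Hs n)) =
      PowerSeries.coeff k (1 + PowerSeries.X * Hs n - Hs n) := by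
    intro k hk
    have h4 := deriv_E n k hk
    rw [hd, map_add] at h4
    rw [map_sub, ← E_eq, ← h4]
    ring
  have h5 := coeff_mul_congr n (h := (Hs n)⁻¹) hc r h3
  have h6 : (1 + PowerSeries.X * Hs n - Hs n) * (Hs n)⁻¹ = (Hs n)⁻¹ + PowerSeries.X - 1 := by
    have := PowerSeries.mul_inv_cancel (Hs n) (Hs_zero n)
    linear_combination (PowerSeries.X - 1) * this
  obtain ⟨s, rfl⟩ : ∃ s, r = s + 1 := ⟨r - 1, by omega⟩
  rw [h6, mul_assoc, PowerSeries.coeff_succ_X_mul, map_sub, map_add, PowerSeries.coeff_X,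
    PowerSeries.coeff_one, if_neg (by omega), if_neg (by omega), add_zero, sub_zero] at h5
  exact h5

end aux

theorem bern {r a : ℕ} (hr : Even r) (h2 : 2 ≤ r) (h3 : r ≤ n - 3) (ha : ¬ n ∣ a)
    (har : (a : ZMod n) ^ r ≠ 1) (hB : ¬ (n : ℤ) ∣ (bernoulli r).num) :
    L n r (∑ i ∈ Finset.range a, z n ^ i) ≠ 0 := by
  have ha0 : (a : ZMod n) ≠ 0 := fun h => ha ((ZMod.natCast_eq_zero_iff a n).1 h)
  set G : PowerSeries (ZMod n) := ∑ i ∈ Finset.range a, E n ^ i with hG
  have hRp : Rp n G (∑ i ∈ Finset.range a, z n ^ i) := Rp.sum _ _ _ fun i _ => Rp.zpow i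
  have hG0 : PowerSeries.constantCoeff G ≠ 0 := by
    rw [hG, map_sum]
    simp only [map_pow, constantCoeff_E, one_pow, Finset.sum_const, Finset.card_range, nsmul_eq_mul,
      mul_one]
    exact ha0
  have hR0 : PowerSeries.constantCoeff (PowerSeries.rescale (a : ZMod n) (Hs n)) ≠ 0 := by
    rw [← PowerSeries.coeff_zero_eq_constantCoeff_apply, PowerSeries.coeff_rescale, pow_zero,
      one_mul, PowerSeries.coeff_zero_eq_constantCoeff_apply]
    exact Hs_zero n
  have hC0 : PowerSeries.constantCoeff (PowerSeries.C (a : ZMod n)) ≠ 0 := by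
    rw [PowerSeries.constantCoeff_C]
    exact ha0
  have hmul : PowerSeries.X * (Hs n * G) = E n ^ a - 1 := by
    have h4 := geom_sum_mul (E n) a
    rw [← h4, ← hG]
    have h5 := E_eq n
    linear_combination (-G) * h5
  have hco : ∀ k < (n - 2) + 1, PowerSeries.coeff k (Hs n * G) =
      PowerSeries.coeff k (PowerSeries.C (a : ZMod n) *
        PowerSeries.rescale (a : ZMod n) (Hs n)) := by
    intro k hk
    have h4 := congrArg (PowerSeries.coeff (k + 1)) hmul
    rw [PowerSeries.coeff_succ_X_mul, map_sub, coeff_E_pow n a (k + 1) (by omega),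
      PowerSeries.coeff_one, if_neg (by omega), sub_zero] at h4
    rw [h4, PowerSeries.coeff_C_mul, PowerSeries.coeff_rescale, coeff_Hs, pow_succ]
    ring
  have hHG0 : PowerSeries.constantCoeff (Hs n * G) ≠ 0 := by
    rw [map_mul]
    exact mul_ne_zero (Hs_zero n) hG0
  have h5 := ld_congr n (N := n - 2) hHG0 hco (r - 1) (by omega)
  rw [ld_mul n (Hs_zero n) hG0, ld_mul n hC0 hR0, ld_rescale n _ (Hs_zero n), map_add, map_add,
    PowerSeries.coeff_C_mul, PowerSeries.coeff_rescale] at h5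
  have h6 : ld n (PowerSeries.C (a : ZMod n)) = 0 := by
    unfold ld
    rw [PowerSeries.derivative_C, zero_mul]
  rw [h6, map_zero, zero_add] at h5
  have h7 : PowerSeries.coeff (r - 1) (ld n G) =
      ((a : ZMod n) ^ r - 1) * PowerSeries.coeff (r - 1) (ld n (Hs n)) := by
    have h8 : (a : ZMod n) ^ r = a * (a : ZMod n) ^ (r - 1) := by
      rw [← pow_succ', show r - 1 + 1 = r by omega]
    rw [h8]
    linear_combination h5
  rw [L_eq n (by omega) (by omega) hRp hG0, h7, coeff_ld_Hs n h2 (by omega)]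
  have h9 := beta_ne n (k := r) (by omega) hB
  unfold beta at h9
  exact mul_ne_zero (fac_ne n (by omega)) (mul_ne_zero (sub_ne_zero.2 har) (right_ne_zero_of_mul h9))

/-- take for `a` a primitive root modulo `n`; `1 + z + ... + z^(a-1)` is a unit by `lam_eps` -/
theorem exists_unit (h : Reg2 n) {r : ℕ} (hr : Even r) (h2 : 2 ≤ r) (h3 : r ≤ n - 3) :
    ∃ u : O n, IsUnit u ∧ L n r u ≠ 0 := by
  obtain ⟨g, hg, hp⟩ := exists_gen n
  have hnz : NeZero n := ⟨hn.out.ne_zero⟩
  have ha : ¬ n ∣ g.val := by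
    intro h0
    have := (ZMod.natCast_eq_zero_iff g.val n).2 h0
    rw [ZMod.natCast_zmod_val] at this
    exact hg this
  obtain ⟨k, hk⟩ := hr
  have hB := h k (by omega) (by omega)
  rw [show 2 * k = r by omega] at hB
  refine ⟨_, (lam_eps n g.val ha).2, bern n ⟨k, hk⟩ h2 h3 ha ?_ hB⟩
  rw [ZMod.natCast_zmod_val]
  intro h0
  have := Nat.le_of_dvd (by omega) (hp.dvd_of_pow_eq_one _ h0)
  omega

end Pool.Agent.Helper38.REG
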