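import Pool.Agent.Helper38.REG.Descent

/-! Project REG: the case `n ∣ z` (helper38). -/

namespace Pool.Agent.Helper38.REG

open NumberField Finset

variable (n : ℕ) [hn : Fact n.Prime]

omit hn in
lemma coprime_cast {x y : ℤ} (h : IsCoprime x y) : IsCoprime (x : O n) (y : O n) := by
  obtain ⟨a, b, hab⟩ := h
  refine ⟨a, b, ?_⟩
  exact_mod_cast congrArg (Int.cast : ℤ → O n) hab

/-- `c = n ^ j * c'` -/
lemma split_n {c : ℤ} (hc0 : c ≠ 0) : ∃ (j : ℕ) (c' : ℤ), c = (n : ℤ) ^ j * c' ∧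
    ¬ (n : ℤ) ∣ c' ∧ ((n : ℤ) ∣ c → 1 ≤ j) := by
  have hfin : FiniteMultiplicity (n : ℤ) c := by
    apply Int.finiteMultiplicity_iff.2
    refine ⟨?_, hc0⟩
    rw [Int.natAbs_natCast]
    exact hn.out.one_lt.ne'
  obtain ⟨c', hc', hnd⟩ := hfin.exists_eq_pow_mul_and_not_dvd
  refine ⟨_, c', hc', hnd, ?_⟩
  intro hd
  by_contra h0
  have h1 : multiplicity (n : ℤ) c = 0 := by omega
  rw [h1, pow_zero, one_mul] at hc'
  rw [hc'] at hd
  exact hnd hd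

theorem case_one (h5 : 5 ≤ n) (h1 : Reg1 n) (hKL : KL n) {p : ℕ} (hp : p.Prime) (hpn : p ≠ n)
    (hN : ∀ S ⊆ PP n p, NoObs n S) {x y c : ℤ} (hxy : IsCoprime x y) (hc0 : c ≠ 0)
    (hc : (n : ℤ) ∣ c) (h : x ^ n + y ^ n = (p : ℤ) ^ (n - 3) * c ^ n) : False := by
  obtain ⟨j, c', hcc, hnd, hj⟩ := split_n n hc0
  have hj1 := hj hc
  obtain ⟨v, hv, hvn⟩ := n_eq n
  obtain ⟨ε, hε, hpi⟩ := prod_pi n hp hpn
  have hm := HH_mod n h1
  obtain ⟨t, ht⟩ : ∃ t, 3 * HH n + (n - 3) = n * t := by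
    refine ⟨3 * (HH n / n) + 1, ?_⟩
    have := Nat.mod_add_div (HH n) n
    rw [hm] at this
    have e : 3 * HH n = 3 + n * (3 * (HH n / n)) := by
      conv_lhs => rw [← this]
      ring
    rw [e, mul_add, mul_one]
    omega
  have hk : 1 ≤ (n - 1) * j := by
    have : 1 * 1 ≤ (n - 1) * j := Nat.mul_le_mul (by omega) hj1
    simpa using this
  refine no_eqn0 n h5 h1 hKL (PP_good n hp hpn) hN hk ?_
  refine ⟨x, y, (p : O n) ^ t * c', ε ^ 3 * (v ^ n) ^ j, coprime_cast n hxy,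
    (hε.pow 3).mul ((hv.pow n).pow j), ?_, ?_⟩
  · rw [ok_mul]
    refine ⟨ok_pow n ?_ t, (ok_int n).2 hnd⟩
    have := (ok_int n (a := (p : ℤ))).2 (by
      intro h0
      have h2 : n ∣ p := by exact_mod_cast h0
      exact hpn ((Nat.prime_dvd_prime_iff_eq hn.out hp).1 h2).symm)
    rwa [Int.cast_natCast] at this
  · have h2 : ((x : O n)) ^ n + (y : O n) ^ n = (p : O n) ^ (n - 3) * (c : O n) ^ n := by
      exact_mod_cast congrArg (Int.cast : ℤ → O n) h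
    have h3 : (c : O n) = (n : O n) ^ j * (c' : O n) := by
      rw [hcc]; push_cast; rfl
    have e1 : (lam n) ^ (n * ((n - 1) * j) + 0) = ((lam n ^ (n - 1)) ^ j) ^ n := by
      rw [← pow_mul, ← pow_mul]; congr 1; ring
    have e2 : ((p : O n) ^ t) ^ n = ((p : O n) ^ HH n) ^ 3 * (p : O n) ^ (n - 3) := by
      rw [← pow_mul, ← pow_mul, ← pow_add]; congr 1; rw [mul_comm t n, ← ht]; ring
    rw [h2, h3, hpi, hvn, e1, mul_pow ((p : O n) ^ t), e2]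
    rw [mul_pow, mul_pow, mul_pow, mul_pow, ← pow_mul v j n, ← pow_mul v n j, mul_comm j n]
    ring

theorem case_n (h5 : 5 ≤ n) (h1 : Reg1 n) (hKL : KL n) {x y c : ℤ} (hxy : IsCoprime x y)
    (hc0 : c ≠ 0) (h : x ^ n + y ^ n = (n : ℤ) ^ (n - 3) * c ^ n) : False := by
  obtain ⟨j, c', hcc, hnd, -⟩ := split_n n hc0
  obtain ⟨v, hv, hvn⟩ := n_eq n
  have hk : 1 ≤ n - 4 + (n - 1) * j := by omega
  refine no_eqn3 n h5 h1 hKL hk ?_
  refine ⟨x, y, c', v ^ (n - 3) * (v ^ n) ^ j, coprime_cast n hxy,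
    (hv.pow _).mul ((hv.pow n).pow j), (ok_int n).2 hnd, ?_⟩
  have h2 : ((x : O n)) ^ n + (y : O n) ^ n = (n : O n) ^ (n - 3) * (c : O n) ^ n := by
    exact_mod_cast congrArg (Int.cast : ℤ → O n) h
  have h3 : (c : O n) = (n : O n) ^ j * (c' : O n) := by
    rw [hcc]; push_cast; rfl
  have hexp : n * (n - 4 + (n - 1) * j) + 3 = (n - 1) * (n - 3) + (n - 1) * j * n := by
    obtain ⟨s, rfl⟩ : ∃ s, n = s + 4 := ⟨n - 4, by omega⟩
    have a1 : s + 4 - 4 = s := by omega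
    have a2 : s + 4 - 1 = s + 3 := by omega
    have a3 : s + 4 - 3 = s + 1 := by omega
    rw [a1, a2, a3]
    ring
  have e1 : (lam n) ^ (n * (n - 4 + (n - 1) * j) + 3) =
      (lam n ^ (n - 1)) ^ (n - 3) * ((lam n ^ (n - 1)) ^ j) ^ n := by
    rw [hexp, pow_add, ← pow_mul, ← pow_mul, ← pow_mul, ← mul_assoc]
  rw [h2, h3, hvn, e1, prod_empty, one_pow, one_mul]
  rw [mul_pow, mul_pow, mul_pow, mul_pow, ← pow_mul v j n, ← pow_mul v n j, mul_comm j n]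
  ring

end Pool.Agent.Helper38.REG
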