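import Pool.Agent.Helper38.REG.Base2

/-! Project REG, module C: the normalised situation of the descent.
BLUEPRINT (see `normalise`, `coprime_aux`, `diff_unit`, `coprime_F`, `config` in
Pool/Agent/Helper38/F5/Norm.lean for `n = 5`). Let `(∏ pi)^3 * (X^n + Y^n) = ε λ^(n(k+1)+e) Z^n`.
`∏ pi` is `ok` (`Good.ok_pi`), so `λ ∣ X^n + Y^n`, and `X^n + Y^n ≡ X + Y (mod λ)`, so `λ ∣ X + Y`,
`Y` is ok (else `λ` divides `X` and `Y`). Replace `Y` by `z^r * Y` with suitable `r` such that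
`λ^2 ∣ X + z^r Y` (same `n`-th power). Put `h_i = (X + z^i Y) / (1 - z^i)` (`i ≠ 0`; `λ` divides
`X + z^i Y`, `lam_eps`), `h_i ≡ - Y (mod λ)` is ok. `X^n + Y^n = (X + Y) ∏_{i≠0} (X + z^i Y)`
(from `(z_prim n).pow_sub_pow_eq_prod_sub_mul` or `X^n - Y^n = ∏ (X - ζ Y)`, n odd)
`= (X + Y) * (∏ (1 - z^i)) * ∏ h_i`, and `∏_{i≠0} (1 - z^i) = λ^(n-1) * unit`. Comparing powers of
`λ`: `λ^(n k + e + 1)` divides exactly `X + Y`; as `λ^2 ∣ X + Y`, `n k + e + 1 ≥ 2`.
Coprimality: `(z^i - z^j) Y` and `(z^i - z^j) X` are combinations of the two factors,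
`z^i - z^j = λ * unit`, so `λ` is a combination of `g_i` and `g_j`; one of them is prime to `λ`. -/

namespace Pool.Agent.Helper38.REG

open NumberField Finset

variable (n : ℕ) [hn : Fact n.Prime]

lemma cfg_ok_of_coprime {X Y : O n} (hXY : IsCoprime X Y) (h : lam n ∣ X + Y) : ok n Y := by
  intro hY
  have hX : lam n ∣ X := (dvd_add_left hY).1 h
  exact (lam_prime n).not_isUnit (hXY.isUnit_of_dvd' hX hY)

lemma cfg_normalise {X Y : O n} (hXY : IsCoprime X Y) (h : lam n ∣ X ^ n + Y ^ n) :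
    ∃ r : ℕ, lam n ^ 2 ∣ X + z n ^ r * Y := by
  have h1 : lam n ∣ X + Y := by
    rw [lam_dvd_cc] at h ⊢
    rw [map_add, map_pow, map_pow, ZMod.pow_card, ZMod.pow_card] at h
    rw [map_add]
    exact h
  have hY := cfg_ok_of_coprime n hXY h1
  obtain ⟨H, hH⟩ := h1
  have hcY : cc n Y ≠ 0 := (ok_cc n Y).1 hY
  refine ⟨(cc n H * (cc n Y)⁻¹).val, ?_⟩
  set r := (cc n H * (cc n Y)⁻¹).val with hr
  have e1 : 1 - z n ^ r = lam n * ∑ s ∈ Finset.range r, z n ^ s := by
    unfold lam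
    rw [mul_neg_geom_sum]
  have e : X + z n ^ r * Y = lam n * (H - (∑ s ∈ Finset.range r, z n ^ s) * Y) := by
    linear_combination hH - Y * e1
  rw [e, pow_two]
  refine mul_dvd_mul_left _ ?_
  rw [lam_dvd_cc, map_sub, map_mul, map_sum]
  simp only [map_pow, cc_z, one_pow, Finset.sum_const, Finset.card_range, nsmul_eq_mul, mul_one]
  rw [hr, ZMod.natCast_val, ZMod.cast_id', id_eq]
  field_simp
  ring

lemma cfg_coprime_F {X Y : O n} (F : ZMod n → O n) (hXY : IsCoprime X Y)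
    (hF : ∀ i : ZMod n, lam n * F i = X + z n ^ i.val * Y) {i j : ZMod n} (hij : i ≠ j) :
    IsCoprime (F i) (F j) := by
  have hl : lam n ≠ 0 := (lam_prime n).ne_zero
  obtain ⟨w, hw, hwe⟩ := diff_unit n hij
  refine coprime_aux n (w := w) (w' := - w) (a := z n ^ j.val) (b := z n ^ i.val) hw hw.neg
    ?_ ?_ hXY
  · apply mul_left_cancel₀ hl
    linear_combination hF i - hF j + Y * hwe
  · apply mul_left_cancel₀ hl
    linear_combination z n ^ j.val * hF i - z n ^ i.val * hF j - X * hwe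

theorem config (h5 : 5 ≤ n) (h1 : Reg1 n) {S : Finset (Ideal (O n))} (hS : Good n S) {k e : ℕ}
    (h : Eqn n S (k + 1) e) :
    2 ≤ n * k + e + 1 ∧ ∃ (X Y Z ε : O n) (g : ZMod n → O n), IsCoprime X Y ∧ IsUnit ε ∧
      ok n Z ∧ ok n Y ∧ X + Y = lam n ^ (n * k + e + 1) * g 0 ∧
      (∀ i : ZMod n, i ≠ 0 → X + z n ^ i.val * Y = (1 - z n ^ i.val) * g i) ∧
      (∀ i, ok n (g i)) ∧ (∀ i j, i ≠ j → IsCoprime (g i) (g j)) ∧
      (∏ P ∈ S, pi n P) ^ 3 * ∏ i, g i = ε * Z ^ n := by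
  classical
  have hl : lam n ≠ 0 := (lam_prime n).ne_zero
  obtain ⟨X, Y0, Z, ε, hXY0, hε, hZ, heq⟩ := h
  set PI : O n := (∏ P ∈ S, pi n P) ^ 3 with hPI
  have hPIok : ok n PI := ok_pow n (ok_prod n S _ fun P hP => hS.ok_pi n h1 hP) 3
  have hn2 : 2 ≤ n := by omega
  have hd : lam n ∣ X ^ n + Y0 ^ n := by
    have hd1 : lam n ∣ PI * (X ^ n + Y0 ^ n) := by
      rw [heq]
      refine Dvd.dvd.mul_right (Dvd.dvd.mul_left (dvd_pow_self _ ?_) _) _
      have : n ≤ n * (k + 1) := Nat.le_mul_of_pos_right n (Nat.succ_pos k)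
      omega
    exact ((lam_prime n).dvd_mul.1 hd1).resolve_left hPIok
  obtain ⟨r, hr⟩ := cfg_normalise n hXY0 hd
  set Y : O n := z n ^ r * Y0 with hYdef
  have hYn : Y ^ n = Y0 ^ n := by
    rw [hYdef, mul_pow, ← pow_mul, mul_comm r n, pow_mul, zn, one_pow, one_mul]
  have hXY : IsCoprime X Y := by
    rw [hYdef]
    exact (isCoprime_mul_unit_left_right ((z_unit n).pow r) X Y0).2 hXY0
  have hY : ok n Y := cfg_ok_of_coprime n hXY ((dvd_pow_self _ (by norm_num)).trans hr)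
  obtain ⟨W, hW⟩ := hr
  -- the units
  have hu : ∀ i : ZMod n, ∃ w : (𝓞 (K n))ˣ, i ≠ 0 → 1 - z n ^ i.val = lam n * (w : O n) := by
    intro i
    by_cases hi : i = 0
    · exact ⟨1, fun h => absurd hi h⟩
    · obtain ⟨w, ⟨w', rfl⟩, hw⟩ := one_sub_unit n hi
      exact ⟨w', fun _ => hw⟩
  choose w hw using hu
  have hwi : ∀ i, (w i : O n) * (((w i)⁻¹ : (𝓞 (K n))ˣ) : O n) = 1 := by
    intro i; simp
  let hh : ZMod n → O n := fun i => lam n * W * (((w i)⁻¹ : (𝓞 (K n))ˣ) : O n) - Y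
  have hhe : ∀ i, i ≠ 0 → X + z n ^ i.val * Y = (1 - z n ^ i.val) * hh i := by
    intro i hi
    have e1 := hw i hi
    have e2 := hwi i
    change X + z n ^ i.val * Y = (1 - z n ^ i.val) *
      (lam n * W * (((w i)⁻¹ : (𝓞 (K n))ˣ) : O n) - Y)
    linear_combination hW - (lam n * W * (((w i)⁻¹ : (𝓞 (K n))ˣ) : O n)) * e1 -
      lam n ^ 2 * W * e2
  have hok : ∀ i, ok n (hh i) := by
    intro i
    rw [ok_cc]
    have h2 : cc n (lam n) = 0 := (lam_dvd_cc n (lam n)).1 dvd_rfl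
    simp only [hh, map_sub, map_mul, h2, zero_mul, zero_sub]
    exact neg_ne_zero.2 ((ok_cc n Y).1 hY)
  -- the product
  have hprod : X ^ n + Y ^ n = (X + Y) * ((∏ i ∈ univ.erase (0 : ZMod n), (w i : O n)) *
      lam n ^ (n - 1) * ∏ i ∈ univ.erase (0 : ZMod n), hh i) := by
    rw [← prod_lin n h5 X Y, ← Finset.mul_prod_erase univ _ (Finset.mem_univ (0 : ZMod n))]
    have e0 : X + z n ^ (0 : ZMod n).val * Y = X + Y := by
      rw [ZMod.val_zero, pow_zero, one_mul]
    rw [e0]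
    congr 1
    have e1 : ∏ i ∈ univ.erase (0 : ZMod n), (X + z n ^ i.val * Y) =
        ∏ i ∈ univ.erase (0 : ZMod n), ((w i : O n) * lam n * hh i) := by
      refine Finset.prod_congr rfl fun i hi => ?_
      have hi' := Finset.ne_of_mem_erase hi
      rw [hhe i hi', hw i hi']
      ring
    rw [e1, Finset.prod_mul_distrib, Finset.prod_mul_distrib, Finset.prod_const,
      Finset.card_erase_of_mem (Finset.mem_univ _), Finset.card_univ, ZMod.card]
  set U : (𝓞 (K n))ˣ := ∏ i ∈ univ.erase (0 : ZMod n), w i with hU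
  have hUc : ∏ i ∈ univ.erase (0 : ZMod n), (w i : O n) = (U : O n) := by
    rw [hU, Units.coe_prod]
  set H : O n := ∏ i ∈ univ.erase (0 : ZMod n), hh i with hH
  have hHok : ok n H := ok_prod n _ _ fun i _ => hok i
  have hUi : (U : O n) * ((U⁻¹ : (𝓞 (K n))ˣ) : O n) = 1 := by simp
  rw [hUc] at hprod
  have h3 : (X + Y) * (PI * (U : O n) * H) = ε * lam n ^ (n * k + e + 1) * Z ^ n := by
    apply mul_left_cancel₀ (pow_ne_zero (n - 1) hl)
    have e2 : lam n ^ (n * (k + 1) + e) = lam n ^ (n * k + e + 1) * lam n ^ (n - 1) := by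
      rw [← pow_add]
      congr 1
      have : n * (k + 1) = n * k + n := by ring
      omega
    rw [e2, ← hYn] at heq
    linear_combination heq - PI * hprod
  have hPUH : ok n (PI * (U : O n) * H) :=
    (ok_mul n).2 ⟨(ok_mul n).2 ⟨hPIok, ok_unit n U.isUnit⟩, hHok⟩
  have h4 : lam n ^ (n * k + e + 1) ∣ X + Y := by
    apply (lam_prime n).pow_dvd_of_dvd_mul_right (n * k + e + 1) hPUH
    rw [h3]
    exact Dvd.intro (ε * Z ^ n) (by ring)
  obtain ⟨g0, hg0⟩ := h4
  have h6 : g0 * (PI * (U : O n) * H) = ε * Z ^ n := by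
    apply mul_left_cancel₀ (pow_ne_zero (n * k + e + 1) hl)
    rw [hg0] at h3
    linear_combination h3
  have hg0ok : ok n g0 := by
    have : ok n (g0 * (PI * (U : O n) * H)) := by
      rw [h6]
      exact (ok_mul n).2 ⟨ok_unit n hε, ok_pow n hZ n⟩
    exact ((ok_mul n).1 this).1
  have hk2 : 2 ≤ n * k + e + 1 := by
    by_contra hlt
    have hn1 : n * k + e + 1 = 1 := by omega
    rw [hn1, pow_one] at hg0
    have e3 : g0 = lam n * W := by
      apply mul_left_cancel₀ hl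
      rw [hg0] at hW
      linear_combination hW
    exact hg0ok ⟨W, e3⟩
  let g : ZMod n → O n := fun i => if i = 0 then g0 else hh i
  have hgz : g 0 = g0 := if_pos rfl
  have hgn : ∀ i, i ≠ 0 → g i = hh i := fun i hi => if_neg hi
  refine ⟨hk2, X, Y, Z, ε * ((U⁻¹ : (𝓞 (K n))ˣ) : O n), g, hXY, hε.mul (U⁻¹).isUnit, hZ, hY,
    ?_, ?_, ?_, ?_, ?_⟩
  · rw [hgz]
    exact hg0
  · intro i hi
    rw [hgn i hi]
    exact hhe i hi
  · intro i
    by_cases hi : i = 0
    · rw [hi, hgz]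
      exact hg0ok
    · rw [hgn i hi]
      exact hok i
  · intro i j hij
    let F : ZMod n → O n := fun i => if i = 0 then lam n ^ (n * k + e) * g0 else (w i : O n) * hh i
    have hF : ∀ i : ZMod n, lam n * F i = X + z n ^ i.val * Y := by
      intro i
      by_cases hi : i = 0
      · subst hi
        simp only [F, if_true]
        rw [ZMod.val_zero, pow_zero, one_mul, hg0, pow_succ]
        ring
      · simp only [F, if_neg hi]
        rw [hhe i hi, hw i hi]
        ring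
    have hdv : ∀ i, g i ∣ F i := by
      intro i
      by_cases hi : i = 0
      · simp only [F, g, if_pos hi]
        exact Dvd.intro_left _ rfl
      · simp only [F, g, if_neg hi]
        exact Dvd.intro_left _ rfl
    exact ((cfg_coprime_F n F hXY hF hij).of_isCoprime_of_dvd_left (hdv i)).of_isCoprime_of_dvd_right
      (hdv j)
  · rw [← Finset.mul_prod_erase univ g (Finset.mem_univ (0 : ZMod n)), hgz]
    have e1 : ∏ i ∈ univ.erase (0 : ZMod n), g i = H :=
      Finset.prod_congr rfl fun i hi => hgn i (Finset.ne_of_mem_erase hi)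
    rw [e1]
    linear_combination ((U⁻¹ : (𝓞 (K n))ˣ) : O n) * h6 - PI * g0 * H * hUi

end Pool.Agent.Helper38.REG
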