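import Mathlib

/-! Project REG: `n`-th power residue indices modulo a prime `p ≡ 1 (mod n)`. -/

namespace Pool.Agent.Helper38.REG

open Finset

section
variable {n : ℕ} [hn : Fact n.Prime] {p : ℕ} [Fact p.Prime]

/-- data of a primitive `n`-th root of unity modulo `p` -/
structure QD (n p m : ℕ) [Fact p.Prime] (w : ZMod p) : Prop where
  hm : p - 1 = n * m
  hm2 : Even m
  hw : IsPrimitiveRoot w n

variable {m : ℕ} {w : ZMod p}

/-- the index of `x`: the class `i` mod `n` with `w ^ i = x ^ m` (and `0` if `x = 0`) -/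
noncomputable def ind (n : ℕ) (w : ZMod p) (m : ℕ) (x : ZMod p) : ZMod n :=
  if h : x ≠ 0 ∧ ∃ i : ℕ, i < n ∧ w ^ i = x ^ m then (h.2.choose : ZMod n) else 0

omit hn in
lemma QD.mpos (h : QD n p m w) : 0 < m := by
  have := h.hm
  have h2 := (Fact.out : p.Prime).two_le
  rcases Nat.eq_zero_or_pos m with rfl | h3
  · omega
  · exact h3

lemma QD.w_ne (h : QD n p m w) : w ≠ 0 := h.hw.ne_zero hn.out.ne_zero

omit hn in
lemma QD.pow_mod (h : QD n p m w) (k : ℕ) : w ^ k = w ^ (k % n) := by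
  conv_lhs => rw [← Nat.div_add_mod k n]
  rw [pow_add, pow_mul, h.hw.pow_eq_one, one_pow, one_mul]

lemma QD.pow_eq_iff (h : QD n p m w) (a b : ℕ) : w ^ a = w ^ b ↔ (a : ZMod n) = b := by
  rw [ZMod.natCast_eq_natCast_iff, h.pow_mod a, h.pow_mod b]
  constructor
  · intro e
    exact h.hw.pow_inj (Nat.mod_lt _ hn.out.pos) (Nat.mod_lt _ hn.out.pos) e
  · intro e
    rw [show a % n = b % n from e]

lemma QD.ind_spec (h : QD n p m w) {x : ZMod p} (hx : x ≠ 0) :
    w ^ (ind n w m x).val = x ^ m := by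
  have h5 : (x ^ m) ^ n = 1 := by
    rw [← pow_mul, mul_comm, ← h.hm]
    exact ZMod.pow_card_sub_one_eq_one hx
  have : NeZero n := ⟨hn.out.ne_zero⟩
  obtain ⟨i, hi, hie⟩ := h.hw.eq_pow_of_pow_eq_one h5
  have hh : x ≠ 0 ∧ ∃ i : ℕ, i < n ∧ w ^ i = x ^ m := ⟨hx, i, hi, hie⟩
  unfold ind
  rw [dif_pos hh]
  rw [ZMod.val_natCast, ← h.pow_mod]
  exact hh.2.choose_spec.2

lemma QD.ind_zero (_h : QD n p m w) : ind n w m (0 : ZMod p) = 0 := by
  unfold ind
  rw [dif_neg]
  simp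

lemma QD.ind_of (h : QD n p m w) {x : ZMod p} (hx : x ≠ 0) {a : ℕ} (ha : w ^ a = x ^ m) :
    ind n w m x = a := by
  have := h.ind_spec hx
  rw [← ha, h.pow_eq_iff, ZMod.natCast_zmod_val] at this
  exact this

lemma QD.ind_mul (h : QD n p m w) {x y : ZMod p} (hx : x ≠ 0) (hy : y ≠ 0) :
    ind n w m (x * y) = ind n w m x + ind n w m y := by
  rw [h.ind_of (mul_ne_zero hx hy) (a := (ind n w m x).val + (ind n w m y).val)
    (by rw [pow_add, h.ind_spec hx, h.ind_spec hy, mul_pow])]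
  push_cast
  rw [ZMod.natCast_zmod_val, ZMod.natCast_zmod_val]

lemma QD.ind_one (h : QD n p m w) : ind n w m 1 = 0 := by
  have := h.ind_of (x := 1) one_ne_zero (a := 0) (by simp)
  simpa using this

lemma QD.ind_neg_one (h : QD n p m w) : ind n w m (-1) = 0 := by
  have := h.ind_of (x := -1) (neg_ne_zero.2 one_ne_zero) (a := 0)
    (by rw [h.hm2.neg_one_pow, pow_zero])
  simpa using this

lemma QD.ind_neg (h : QD n p m w) (x : ZMod p) : ind n w m (-x) = ind n w m x := by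
  by_cases hx : x = 0
  · rw [hx, neg_zero]
  · rw [← neg_one_mul, h.ind_mul (neg_ne_zero.2 one_ne_zero) hx, h.ind_neg_one, zero_add]

lemma QD.ind_pow (h : QD n p m w) {x : ZMod p} (hx : x ≠ 0) (k : ℕ) :
    ind n w m (x ^ k) = k * ind n w m x := by
  induction k with
  | zero => simp [h.ind_one]
  | succ k ih => rw [pow_succ, h.ind_mul (pow_ne_zero k hx) hx, ih]; push_cast; ring

lemma QD.ind_pown (h : QD n p m w) (x : ZMod p) : ind n w m (x ^ n) = 0 := by
  by_cases hx : x = 0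
  · rw [hx, zero_pow hn.out.ne_zero, h.ind_zero]
  · rw [h.ind_pow hx, ZMod.natCast_self, zero_mul]

lemma QD.ind_inv (h : QD n p m w) (x : ZMod p) : ind n w m x⁻¹ = - ind n w m x := by
  by_cases hx : x = 0
  · rw [hx, inv_zero, h.ind_zero, neg_zero]
  · have := h.ind_mul hx (inv_ne_zero hx)
    rw [mul_inv_cancel₀ hx, h.ind_one] at this
    exact eq_neg_of_add_eq_zero_right this.symm

lemma QD.ind_eq_iff (h : QD n p m w) {x y : ZMod p} (hx : x ≠ 0) (hy : y ≠ 0) :
    ind n w m x = ind n w m y ↔ x ^ m = y ^ m := by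
  rw [← h.ind_spec hx, ← h.ind_spec hy]
  constructor
  · intro e; rw [e]
  · intro e
    rw [h.pow_eq_iff, ZMod.natCast_zmod_val, ZMod.natCast_zmod_val] at e
    exact e

lemma QD.ind_w (h : QD n p m w) : ind n w m w = m := h.ind_of h.w_ne rfl

lemma QD.ind_prod (h : QD n p m w) {ι : Type*} (s : Finset ι) (f : ι → ZMod p)
    (hf : ∀ i ∈ s, f i ≠ 0) : ind n w m (∏ i ∈ s, f i) = ∑ i ∈ s, ind n w m (f i) := by
  classical
  induction s using Finset.induction_on with
  | empty => simp [h.ind_one]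
  | insert a s ha ih =>
    rw [prod_insert ha, sum_insert ha, h.ind_mul (hf a (mem_insert_self a s))
      (prod_ne_zero_iff.2 fun i hi => hf i (mem_insert_of_mem hi)),
      ih fun i hi => hf i (mem_insert_of_mem hi)]

/-- a generator -/
lemma exists_gen (p : ℕ) [Fact p.Prime] : ∃ g : ZMod p, g ≠ 0 ∧ IsPrimitiveRoot g (p - 1) := by
  obtain ⟨g, hg⟩ := IsCyclic.exists_generator (α := (ZMod p)ˣ)
  refine ⟨g, g.ne_zero, ?_⟩
  have h1 : orderOf g = p - 1 := by
    rw [orderOf_eq_card_of_forall_mem_zpowers hg, Nat.card_eq_fintype_card, ZMod.card_units]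
  rw [← h1, ← orderOf_units]
  exact IsPrimitiveRoot.orderOf _

lemma QD.exists_ind (h : QD n p m w) : ∃ g : ZMod p, g ≠ 0 ∧ ind n w m g ≠ 0 := by
  obtain ⟨g, hg, hp⟩ := exists_gen p
  refine ⟨g, hg, fun h0 => ?_⟩
  have h1 := h.ind_spec hg
  rw [h0, ZMod.val_zero, pow_zero] at h1
  have := hp.dvd_of_pow_eq_one _ h1.symm
  have h2 := Nat.le_of_dvd h.mpos this
  have h3 := h.hm
  have h4 := h.mpos
  have h5 := hn.out.two_le
  have : 2 * m ≤ n * m := Nat.mul_le_mul_right m h5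
  omega

lemma QD.exists_ind_eq (h : QD n p m w) (c : ZMod n) : ∃ x : ZMod p, x ≠ 0 ∧ ind n w m x = c := by
  obtain ⟨g, hg, hg0⟩ := h.exists_ind
  refine ⟨g ^ (c * (ind n w m g)⁻¹).val, pow_ne_zero _ hg, ?_⟩
  rw [h.ind_pow hg, ZMod.natCast_zmod_val, mul_assoc, inv_mul_cancel₀ hg0, mul_one]

lemma QD.mem_fibre (h : QD n p m w) (c : ZMod n) (x : ZMod p) :
    (x ≠ 0 ∧ ind n w m x = c) ↔ x ^ m = w ^ c.val := by
  constructor
  · rintro ⟨hx, rfl⟩
    exact (h.ind_spec hx).symm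
  · intro hx
    have hx0 : x ≠ 0 := by
      rintro rfl
      rw [zero_pow h.mpos.ne'] at hx
      exact pow_ne_zero c.val h.w_ne hx.symm
    refine ⟨hx0, ?_⟩
    rw [h.ind_of hx0 hx.symm, ZMod.natCast_zmod_val]

/-- the fibre product -/
lemma QD.prod_fibre (h : QD n p m w) (c : ZMod n) :
    ∏ x ∈ univ.filter (fun x : ZMod p => x ≠ 0 ∧ ind n w m x = c), (1 - x) = 1 - w ^ c.val := by
  obtain ⟨t0, ht0, ht0c⟩ := h.exists_ind_eq c
  have ht0m : t0 ^ m = w ^ c.val := (h.mem_fibre c t0).1 ⟨ht0, ht0c⟩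
  obtain ⟨g, hg, hp⟩ := exists_gen p
  have hpr : IsPrimitiveRoot (g ^ n) m := by
    refine hp.pow ?_ h.hm
    have := h.hm
    have h3 := h.mpos
    have h5 := hn.out.two_le
    have : 2 * m ≤ n * m := Nat.mul_le_mul_right m h5
    omega
  have h1 := hpr.pow_sub_pow_eq_prod_sub_mul (1 : ZMod p) t0 h.mpos
  rw [one_pow, ht0m] at h1
  rw [h1]
  symm
  refine Finset.prod_bij' (fun ζ _ => ζ * t0) (fun x _ => x * t0⁻¹) ?_ ?_ ?_ ?_ ?_
  · intro ζ hζ
    rw [Polynomial.mem_nthRootsFinset h.mpos] at hζ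
    rw [mem_filter, h.mem_fibre, mul_pow, hζ, one_mul, ht0m]
    exact ⟨mem_univ _, rfl⟩
  · intro x hx
    rw [mem_filter, h.mem_fibre] at hx
    rw [Polynomial.mem_nthRootsFinset h.mpos, mul_pow, hx.2, inv_pow, ht0m]
    exact mul_inv_cancel₀ (pow_ne_zero _ h.w_ne)
  · intro ζ _
    rw [mul_assoc, mul_inv_cancel₀ ht0, mul_one]
  · intro x _
    rw [mul_assoc, inv_mul_cancel₀ ht0, mul_one]
  · intro ζ _
    rfl

/-- sums over the fibres -/
lemma QD.sum_fibre (h : QD n p m w) {c : ZMod n} (hc : c ≠ 0) :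
    ∑ x ∈ univ.filter (fun x : ZMod p => ind n w m x = c), ind n w m (1 - x) =
      ind n w m (1 - w ^ c.val) := by
  rw [← h.prod_fibre c, h.ind_prod]
  · refine sum_congr ?_ fun x _ => rfl
    ext x
    simp only [mem_filter, mem_univ, true_and]
    constructor
    · intro hx
      refine ⟨?_, hx⟩
      rintro rfl
      exact hc (by rw [← hx, h.ind_zero])
    · exact fun hx => hx.2
  · intro x hx
    rw [mem_filter] at hx
    intro h0
    have : x = 1 := (sub_eq_zero.1 h0).symm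
    rw [this, h.ind_one] at hx
    exact hc hx.2.2.symm

omit hn in
lemma QD.one_sub_ne (h : QD n p m w) {k : ℕ} (hk : ¬ n ∣ k) : 1 - w ^ k ≠ 0 := by
  intro h0
  exact hk (h.hw.dvd_of_pow_eq_one k (sub_eq_zero.1 h0).symm)

/-- shift of the index -/
lemma QD.sum_shift (h : QD n p m w) {g : ZMod p} (hg : g ≠ 0) (F : ZMod n → ZMod n)
    (hF : F 0 = 0) : ∑ x : ZMod p, F (ind n w m x) + F (ind n w m g) =
      ∑ x : ZMod p, F (ind n w m x + ind n w m g) := by
  have e1 : ∑ x : ZMod p, F (ind n w m x) = ∑ x : ZMod p, F (ind n w m (x * g)) :=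
    (Fintype.sum_equiv (Equiv.mulRight₀ g hg) _ _ (fun x => rfl)).symm
  rw [e1, ← add_sum_erase univ (fun x => F (ind n w m (x * g))) (mem_univ 0),
    ← add_sum_erase univ (fun x => F (ind n w m x + ind n w m g)) (mem_univ 0)]
  have e2 : ∑ x ∈ univ.erase (0 : ZMod p), F (ind n w m (x * g)) =
      ∑ x ∈ univ.erase (0 : ZMod p), F (ind n w m x + ind n w m g) := by
    refine sum_congr rfl fun x hx => ?_
    rw [h.ind_mul (ne_of_mem_erase hx) hg]
  rw [e2, zero_mul, h.ind_zero, hF, zero_add, zero_add, add_comm]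

end

end Pool.Agent.Helper38.REG
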