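import Pool.Agent.Helper38.REG.Log2
import Pool.Agent.Helper38.REG.Ind

/-! Project REG: definitions shared by the modules. -/

namespace Pool.Agent.Helper38.REG

open NumberField Finset

variable (n : ℕ) [hn : Fact n.Prime]

/-- `n` does not divide the class number of `ℚ(ζ_n)` -/
def Reg1 : Prop := ¬ n ∣ NumberField.classNumber (K n)

/-- `n` divides no numerator of `B_2, B_4, …, B_(n-3)` -/
def Reg2 : Prop := ∀ k : ℕ, 1 ≤ k → 2 * k ≤ n - 3 → ¬ (n : ℤ) ∣ (bernoulli (2 * k)).num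

omit hn in
lemma prin_pow_card (P : Ideal (O n)) :
    (P ^ NumberField.classNumber (K n)).IsPrincipal := by
  by_cases hP : P = ⊥
  · subst hP
    have hc : NumberField.classNumber (K n) ≠ 0 := by
      rw [NumberField.classNumber]
      exact Fintype.card_ne_zero
    rw [← Ideal.zero_eq_bot, zero_pow hc, Ideal.zero_eq_bot]
    exact bot_isPrincipal
  · have h0 : P ∈ nonZeroDivisors (Ideal (O n)) := mem_nonZeroDivisors_of_ne_zero hP
    have h1 : ClassGroup.mk0 ⟨P, h0⟩ ^ NumberField.classNumber (K n) = 1 := pow_card_eq_one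
    rw [← map_pow, ClassGroup.mk0_eq_one_iff] at h1
    exact h1

/-- an exponent `≡ 1 (mod n)` which is a multiple of the class number -/
noncomputable def HH : ℕ := NumberField.classNumber (K n) *
  ((NumberField.classNumber (K n) : ZMod n)⁻¹).val

lemma HH_cast (h : Reg1 n) : (HH n : ZMod n) = 1 := by
  unfold HH
  push_cast
  rw [ZMod.natCast_zmod_val, mul_inv_cancel₀]
  intro h0
  exact h ((ZMod.natCast_eq_zero_iff _ _).1 h0)

lemma HH_mod (h : Reg1 n) : HH n % n = 1 := by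
  have h1 := HH_cast n h
  have h2 : ((HH n : ℕ) : ZMod n) = ((1 : ℕ) : ZMod n) := by rw [h1]; simp
  rw [ZMod.natCast_eq_natCast_iff'] at h2
  rw [h2, Nat.mod_eq_of_lt hn.out.one_lt]

lemma HH_pos (h : Reg1 n) : 0 < HH n := by
  rcases Nat.eq_zero_or_pos (HH n) with h0 | h0
  · have := HH_mod n h
    rw [h0] at this
    simp at this
  · exact h0

lemma HH_prin (P : Ideal (O n)) : (P ^ HH n).IsPrincipal := by
  unfold HH
  rw [pow_mul]
  obtain ⟨x, hx⟩ := prin_pow_card n P
  refine ⟨x ^ ((NumberField.classNumber (K n) : ZMod n)⁻¹).val, ?_⟩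
  rw [hx]
  exact Ideal.span_singleton_pow _ _

theorem prin (h : Reg1 n) (J : Ideal (O n)) (hJ : (J ^ n).IsPrincipal) : J.IsPrincipal := by
  refine Ideal.IsPrincipal.of_isPrincipal_pow_of_coprime ?_ hJ
  exact (Nat.Prime.coprime_iff_not_dvd hn.out).2 h

/-- a generator of `P ^ HH` -/
noncomputable def pi (P : Ideal (O n)) : O n :=
  have := HH_prin n P
  Submodule.IsPrincipal.generator (P ^ HH n)

lemma pi_span (P : Ideal (O n)) : Ideal.span {pi n P} = P ^ HH n := by
  have := HH_prin n P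
  exact Ideal.span_singleton_generator _

/-- the prime ideals above `p` -/
noncomputable def PP (p : ℕ) : Finset (Ideal (O n)) := by
  classical
  exact (UniqueFactorizationMonoid.normalizedFactors (Ideal.span {(p : O n)})).toFinset

/-- no obstruction from the primes in `S`: if the odd logarithmic invariants of the primes with
`c P = i` do not depend on `i ≠ 0`, then two classes `i ≠ 0` are free of primes -/
def NoObs (S : Finset (Ideal (O n))) : Prop :=
  ∀ (c : Ideal (O n) → ZMod n) (κ : ℕ → ZMod n),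
    (∀ i : ZMod n, i ≠ 0 → ∀ r, Odd r → 3 ≤ r → r ≤ n - 2 →
      ∑ P ∈ S.filter (fun P => c P = i), L n r (pi n P) = κ r) →
    ∃ i j : ZMod n, i ≠ 0 ∧ j ≠ 0 ∧ i ≠ j ∧ (∀ P ∈ S, c P ≠ i) ∧ (∀ P ∈ S, c P ≠ j)

/-- the equations of the descent -/
def Eqn (S : Finset (Ideal (O n))) (k e : ℕ) : Prop :=
  ∃ X Y Z ε : O n, IsCoprime X Y ∧ IsUnit ε ∧ ok n Z ∧
    (∏ P ∈ S, pi n P) ^ 3 * (X ^ n + Y ^ n) = ε * lam n ^ (n * k + e) * Z ^ n

/-- admissible sets of primes -/
def Good (S : Finset (Ideal (O n))) : Prop := ∀ P ∈ S, P.IsPrime ∧ P ≠ ⊥ ∧ lam n ∉ P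

lemma Good.ok_pi {S : Finset (Ideal (O n))} (h1 : Reg1 n) (hS : Good n S) {P : Ideal (O n)}
    (hP : P ∈ S) : ok n (pi n P) := by
  obtain ⟨hp, h0, hl⟩ := hS P hP
  intro hd
  have h2 : P ^ HH n ≤ Ideal.span {lam n} := by
    rw [← pi_span, Ideal.span_singleton_le_span_singleton]
    exact hd
  have hprime : (Ideal.span {lam n}).IsPrime :=
    (Ideal.span_singleton_prime (lam_prime n).ne_zero).2 (lam_prime n)
  have h3 : P ≤ Ideal.span {lam n} :=
    (Ideal.IsPrime.pow_le_iff (HH_pos n h1).ne').1 h2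
  have hmax : P.IsMaximal := hp.isMaximal h0
  have h4 : P = Ideal.span {lam n} := hmax.eq_of_le hprime.ne_top h3
  apply hl
  rw [h4]
  exact Ideal.mem_span_singleton_self _

/-- Kummer's lemma -/
def KL : Prop := ∀ u : O n, IsUnit u → (∀ r, 1 ≤ r → r ≤ n - 2 → L n r u = 0) →
  ∃ v : O n, IsUnit v ∧ u = v ^ n

section
variable {n} {p : ℕ} [Fact p.Prime] {m : ℕ} {w : ZMod p}

/-- the homomorphism `O → F_p`, `z ↦ w ^ a` -/
noncomputable def tk (h : QD n p m w) (a : (ZMod n)ˣ) : O n →+* ZMod p :=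
  (lft n w (h.hw.geom_sum_eq_zero hn.out.one_lt)).comp (sg n a)

lemma tk_z (h : QD n p m w) (a : (ZMod n)ˣ) : tk h a (z n) = w ^ (a : ZMod n).val := by
  unfold tk
  rw [RingHom.comp_apply, sg_z, map_pow, lft_z]

lemma tk_sg (h : QD n p m w) (a b : (ZMod n)ˣ) (x : O n) : tk h a (sg n b x) = tk h (a * b) x := by
  unfold tk
  rw [RingHom.comp_apply, RingHom.comp_apply, sg_sg]

/-- the prime ideal above `p` with `z ↦ w ^ a` -/
noncomputable def pk (h : QD n p m w) (a : (ZMod n)ˣ) : Ideal (O n) := RingHom.ker (tk h a)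

lemma mem_pk (h : QD n p m w) (a : (ZMod n)ˣ) (x : O n) : x ∈ pk h a ↔ tk h a x = 0 :=
  RingHom.mem_ker

end

end Pool.Agent.Helper38.REG
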