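import Pool.Agent.Helper38.REG.Base2

/-! Project REG, module F: splitting a product which is an `n`-th power up to the primes of `S`.
BLUEPRINT. `O n` is a Dedekind domain. For `P ∈ S`: `(pi P) = P ^ HH`, `HH ≡ 1 (mod n)`
(`pi_span`, `HH_mod`). The exponent of `P` in `(∏_{S} pi)^3 * ∏ g_i` is `3 * HH + ∑_i v_P(g_i)`
and a multiple of `n`, and `n` does not divide `3`, so `P` contains some `g_i`, exactly one because
the `g_i` are comaximal: this defines `c`. The ideals
`J_i = ((∏_{P ∈ S, c P = i} pi P)^3 * g_i)` have exponents divisible by `n` at every prime, so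
each is an `n`-th power, and the root is principal by `prin`. Hence `(∏ ...)^3 * g_i = u * r^n`
with a unit `u`. -/

namespace Pool.Agent.Helper38.REG

open NumberField Finset

variable (n : ℕ) [hn : Fact n.Prime]

open Classical in
/-- the exponent of a prime in an ideal -/
private noncomputable def vv (P I : Ideal (O n)) : ℕ :=
  Multiset.count P (UniqueFactorizationMonoid.normalizedFactors I)

omit hn in
private lemma vv_mul (P : Ideal (O n)) {I J : Ideal (O n)} (hI : I ≠ ⊥) (hJ : J ≠ ⊥) :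
    vv n P (I * J) = vv n P I + vv n P J := by
  unfold vv
  rw [UniqueFactorizationMonoid.normalizedFactors_mul hI hJ, Multiset.count_add]

omit hn in
private lemma vv_pow (P I : Ideal (O n)) (k : ℕ) : vv n P (I ^ k) = k * vv n P I := by
  unfold vv
  rw [UniqueFactorizationMonoid.normalizedFactors_pow, Multiset.count_nsmul]

omit hn in
private lemma vv_one (P : Ideal (O n)) : vv n P 1 = 0 := by
  unfold vv
  rw [UniqueFactorizationMonoid.normalizedFactors_one, Multiset.count_zero]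

omit hn in
private lemma vv_prod (P : Ideal (O n)) {κ : Type*} (s : Finset κ) (f : κ → Ideal (O n))
    (hf : ∀ i ∈ s, f i ≠ ⊥) : vv n P (∏ i ∈ s, f i) = ∑ i ∈ s, vv n P (f i) := by
  classical
  induction s using Finset.induction_on with
  | empty => simp only [Finset.prod_empty, Finset.sum_empty, vv_one]
  | insert a s ha ih =>
    rw [Finset.prod_insert ha, Finset.sum_insert ha, vv_mul, ih]
    · exact fun i hi => hf i (Finset.mem_insert_of_mem hi)
    · exact hf a (Finset.mem_insert_self _ _)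
    · exact Finset.prod_ne_zero_iff.2 fun i hi => hf i (Finset.mem_insert_of_mem hi)

omit hn in
private lemma vv_prime (P Q : Ideal (O n)) (hQ : Q.IsPrime) (hQ0 : Q ≠ ⊥) :
    vv n P Q = if P = Q then 1 else 0 := by
  unfold vv
  rw [UniqueFactorizationMonoid.normalizedFactors_irreducible
    ((Ideal.prime_of_isPrime hQ0 hQ).irreducible), normalize_eq, Multiset.count_singleton]

omit hn in
private lemma vv_eq_zero (P : Ideal (O n)) {I : Ideal (O n)} (hI : I ≠ ⊥) (h : ¬ I ≤ P) :
    vv n P I = 0 := by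
  unfold vv
  rw [Multiset.count_eq_zero, Ideal.mem_normalizedFactors_iff hI]
  exact fun h' => h h'.2

omit hn in
private lemma exists_root {I : Ideal (O n)} (hI : I ≠ ⊥) {k : ℕ}
    (h : ∀ P : Ideal (O n), P.IsPrime → P ≠ ⊥ → k ∣ vv n P I) : ∃ J, I = J ^ k := by
  classical
  have h1 : ∀ P ∈ UniqueFactorizationMonoid.normalizedFactors I,
      k ∣ Multiset.count P (UniqueFactorizationMonoid.normalizedFactors I) := by
    intro P hP
    have h2 := (Ideal.mem_normalizedFactors_iff hI).1 hP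
    refine h P h2.1 ?_
    rintro rfl
    exact hI (le_bot_iff.1 h2.2)
  refine ⟨∏ P ∈ (UniqueFactorizationMonoid.normalizedFactors I).toFinset,
    P ^ (Multiset.count P (UniqueFactorizationMonoid.normalizedFactors I) / k), ?_⟩
  rw [← Finset.prod_pow]
  conv_lhs => rw [← Ideal.prod_normalizedFactors_eq_self hI, Finset.prod_multiset_count]
  refine Finset.prod_congr rfl fun P hP => ?_
  rw [← pow_mul, Nat.div_mul_cancel (h1 P (Multiset.mem_toFinset.1 hP))]

open Classical in
theorem factor (h5 : 5 ≤ n) (h1 : Reg1 n) {ι : Type} [Fintype ι] [Nonempty ι] (g : ι → O n)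
    (hg : ∀ i j, i ≠ j → IsCoprime (g i) (g j)) (S : Finset (Ideal (O n)))
    (hS : ∀ P ∈ S, P.IsPrime ∧ P ≠ ⊥) {ε Z : O n} (hε : IsUnit ε) (hZ : Z ≠ 0)
    (h : (∏ P ∈ S, pi n P) ^ 3 * ∏ i, g i = ε * Z ^ n) :
    ∃ c : Ideal (O n) → ι, (∀ P ∈ S, ∀ i, g i ∈ P ↔ i = c P) ∧
      ∀ i, ∃ u r : O n, IsUnit u ∧
        (∏ P ∈ S.filter (fun P => c P = i), pi n P) ^ 3 * g i = u * r ^ n := by
  have hrhs : ε * Z ^ n ≠ 0 := mul_ne_zero hε.ne_zero (pow_ne_zero _ hZ)
  have hlhs := hrhs
  rw [← h] at hlhs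
  have hA : (∏ P ∈ S, pi n P) ≠ 0 := by
    intro h0
    apply hlhs
    rw [h0, zero_pow (by norm_num), zero_mul]
  have hg0 : ∀ i, g i ≠ 0 := by
    intro i h0
    apply hlhs
    rw [Finset.prod_eq_zero (Finset.mem_univ i) h0, mul_zero]
  have hsg0 : ∀ i, Ideal.span {g i} ≠ ⊥ := fun i h0 => hg0 i (Ideal.span_singleton_eq_bot.1 h0)
  have hsp : ∀ T : Finset (Ideal (O n)), (∀ P ∈ T, P.IsPrime ∧ P ≠ ⊥) →
      Ideal.span {∏ P ∈ T, pi n P} = ∏ P ∈ T, P ^ HH n := by
    intro T hT
    rw [← Ideal.prod_span_singleton]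
    exact Finset.prod_congr rfl fun P _ => pi_span n P
  have hPne : ∀ T : Finset (Ideal (O n)), (∀ P ∈ T, P.IsPrime ∧ P ≠ ⊥) →
      ∀ P ∈ T, P ^ HH n ≠ ⊥ := fun T hT P hP => pow_ne_zero _ (hT P hP).2
  -- the exponent of `Q` in the product over `T`
  have hvT : ∀ T : Finset (Ideal (O n)), (∀ P ∈ T, P.IsPrime ∧ P ≠ ⊥) →
      ∀ Q : Ideal (O n), vv n Q (Ideal.span {∏ P ∈ T, pi n P}) =
        if Q ∈ T then HH n else 0 := by
    intro T hT Q
    rw [hsp T hT, vv_prod n Q T _ (hPne T hT)]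
    have h2 : ∀ P ∈ T, vv n Q (P ^ HH n) = if Q = P then HH n else 0 := by
      intro P hP
      rw [vv_pow, vv_prime n Q P (hT P hP).1 (hT P hP).2]
      split_ifs <;> simp
    rw [Finset.sum_congr rfl h2, Finset.sum_ite_eq]
  -- the main equation of exponents
  have hmain : ∀ Q : Ideal (O n), 3 * (if Q ∈ S then HH n else 0) +
      ∑ i, vv n Q (Ideal.span {g i}) = n * vv n Q (Ideal.span {Z}) := by
    intro Q
    have h2 : Ideal.span {(∏ P ∈ S, pi n P) ^ 3 * ∏ i, g i} = Ideal.span {ε * Z ^ n} := by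
      rw [h]
    have h3 : Ideal.span {ε * Z ^ n} = Ideal.span {Z} ^ n := by
      rw [Ideal.span_singleton_mul_left_unit hε, Ideal.span_singleton_pow]
    have h4 : Ideal.span {(∏ P ∈ S, pi n P) ^ 3 * ∏ i, g i} =
        Ideal.span {∏ P ∈ S, pi n P} ^ 3 * ∏ i, Ideal.span {g i} := by
      rw [Ideal.prod_span_singleton, Ideal.span_singleton_pow, Ideal.span_singleton_mul_span_singleton]
    rw [h3, h4] at h2
    have h5 := congrArg (vv n Q) h2
    rw [vv_mul, vv_pow, vv_pow, hvT S hS Q, vv_prod] at h5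
    · exact h5
    · exact fun i _ => hsg0 i
    · exact pow_ne_zero _ fun h0 => hA (Ideal.span_singleton_eq_bot.1 h0)
    · exact Finset.prod_ne_zero_iff.2 fun i _ => hsg0 i
  -- at most one of the `g i` lies in a prime
  have huniq : ∀ Q : Ideal (O n), Q.IsPrime → ∀ i j, g i ∈ Q → g j ∈ Q → i = j := by
    intro Q hQ i j hi hj
    by_contra hij
    obtain ⟨a, b, hab⟩ := hg i j hij
    apply hQ.ne_top
    rw [Ideal.eq_top_iff_one, ← hab]
    exact Q.add_mem (Q.mul_mem_left _ hi) (Q.mul_mem_left _ hj)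
  have hv0 : ∀ Q : Ideal (O n), ∀ i, g i ∉ Q → vv n Q (Ideal.span {g i}) = 0 := by
    intro Q i hi
    refine vv_eq_zero n Q (hsg0 i) ?_
    rwa [Ideal.span_singleton_le_iff_mem]
  have hsum : ∀ Q : Ideal (O n), Q.IsPrime → ∀ i, g i ∈ Q →
      ∑ j, vv n Q (Ideal.span {g j}) = vv n Q (Ideal.span {g i}) := by
    intro Q hQ i hi
    refine Finset.sum_eq_single i ?_ ?_
    · intro j _ hj
      exact hv0 Q j fun h' => hj (huniq Q hQ j i h' hi)
    · intro h'
      exact absurd (Finset.mem_univ i) h'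
  have hnd : ¬ n ∣ 3 * HH n := by
    intro hd
    rcases (Nat.Prime.dvd_mul hn.out).1 hd with h' | h'
    · exact absurd (Nat.le_of_dvd (by norm_num) h') (by omega)
    · have := HH_mod n h1
      rw [Nat.mod_eq_zero_of_dvd h'] at this
      exact absurd this (by norm_num)
  have hex : ∀ P ∈ S, ∃ i, g i ∈ P := by
    intro P hP
    by_contra hno
    push Not at hno
    have h2 := hmain P
    rw [if_pos hP, Finset.sum_eq_zero fun i _ => hv0 P i (hno i), add_zero] at h2
    exact hnd ⟨_, h2⟩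
  have hc : ∃ c : Ideal (O n) → ι, ∀ P ∈ S, g (c P) ∈ P := by
    refine ⟨fun P => if hP : ∃ i, g i ∈ P then hP.choose else Classical.arbitrary ι, ?_⟩
    intro P hP
    have h2 := hex P hP
    simp only [dif_pos h2]
    exact h2.choose_spec
  obtain ⟨c, hc⟩ := hc
  refine ⟨c, fun P hP i => ⟨fun hi => huniq P (hS P hP).1 i (c P) hi (hc P hP), ?_⟩, ?_⟩
  · rintro rfl
    exact hc P hP
  · intro i
    have hT : ∀ P ∈ S.filter (fun P => c P = i), P.IsPrime ∧ P ≠ ⊥ := fun P hP =>
      hS P (Finset.mem_filter.1 hP).1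
    have hB : (∏ P ∈ S.filter (fun P => c P = i), pi n P) ≠ 0 := by
      intro h0
      have h2 : Ideal.span {∏ P ∈ S.filter (fun P => c P = i), pi n P} = ⊥ := by
        rw [h0]
        exact Ideal.span_singleton_eq_bot.2 rfl
      rw [hsp _ hT] at h2
      exact (Finset.prod_ne_zero_iff.2 (hPne _ hT)) h2
    have hJ0 : Ideal.span {(∏ P ∈ S.filter (fun P => c P = i), pi n P) ^ 3 * g i} ≠ ⊥ := by
      intro h0
      exact (mul_ne_zero (pow_ne_zero 3 hB) (hg0 i)) (Ideal.span_singleton_eq_bot.1 h0)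
    have hdvd : ∀ Q : Ideal (O n), Q.IsPrime → Q ≠ ⊥ →
        n ∣ vv n Q (Ideal.span {(∏ P ∈ S.filter (fun P => c P = i), pi n P) ^ 3 * g i}) := by
      intro Q hQ hQ0
      have h2 : Ideal.span {(∏ P ∈ S.filter (fun P => c P = i), pi n P) ^ 3 * g i} =
          Ideal.span {∏ P ∈ S.filter (fun P => c P = i), pi n P} ^ 3 * Ideal.span {g i} := by
        rw [Ideal.span_singleton_pow, Ideal.span_singleton_mul_span_singleton]
      rw [h2, vv_mul n Q (pow_ne_zero _ fun h0 => hB (Ideal.span_singleton_eq_bot.1 h0)) (hsg0 i),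
        vv_pow, hvT _ hT Q]
      have h3 := hmain Q
      by_cases hi : g i ∈ Q
      · rw [hsum Q hQ i hi] at h3
        have h4 : (Q ∈ S.filter (fun P => c P = i)) ↔ Q ∈ S := by
          rw [Finset.mem_filter]
          refine ⟨fun h' => h'.1, fun h' => ⟨h', ?_⟩⟩
          exact huniq Q hQ _ _ (hc Q h') hi
        rw [if_congr h4 rfl rfl]
        exact ⟨_, h3⟩
      · have h4 : Q ∉ S.filter (fun P => c P = i) := by
          rw [Finset.mem_filter]
          rintro ⟨h', rfl⟩
          exact hi (hc Q h')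
        rw [if_neg h4, hv0 Q i hi]
        simp
    obtain ⟨J, hJ⟩ := exists_root n hJ0 hdvd
    have hJp : (J ^ n).IsPrincipal := by
      rw [← hJ]
      exact ⟨⟨_, rfl⟩⟩
    obtain ⟨r, hr⟩ := (prin n h1 J hJp).principal
    have hr' : J = Ideal.span {r} := hr
    rw [hr', Ideal.span_singleton_pow, Ideal.span_singleton_eq_span_singleton] at hJ
    obtain ⟨u, hu⟩ := hJ.symm
    exact ⟨u, r, u.isUnit, by rw [← hu, mul_comm]⟩

end Pool.Agent.Helper38.REG
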