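import Pool.Agent.Helper38.REG.Split

/-! Project REG, module N: absence of obstructions.
BLUEPRINT. noObs_small: at most `n - 3` of the `n - 1` classes `i ≠ 0` are hit.
noObs_one: let `s` be odd with `L s (pi (pk h 1)) ≠ 0`; then `L s (pi P) ≠ 0` for all `P ∈ PP n p`
(`mem_PP_iff`, `L_pi_pk`). `S ⊆ PP n p` has at most `n - 1` elements (`card_PP`). Suppose at most one
class `i ≠ 0` is not hit. If exactly one is not hit, `κ s = 0` (empty sum); `n - 2` classes are hit
by at most `n - 1` primes, so some class (there are at least `n - 3 ≥ 2` such) is hit by exactly one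
prime `P`, and `L s (pi P) = κ s = 0`, contradiction. If all `n - 1` classes `i ≠ 0` are hit, then
each is hit by exactly one prime, `S` has `n - 1` elements, `S = PP n p`, and
`L s (pi P) = κ s` for all `P ∈ PP n p`; with `P = pk h 1` and `P = pk h a`: `a^(-s) = 1` for all
`a : (ZMod n)ˣ`, impossible for `1 ≤ s ≤ n - 2`. -/

namespace Pool.Agent.Helper38.REG

open NumberField Finset

variable {n : ℕ} [hn : Fact n.Prime] {p : ℕ} [Fact p.Prime] {m : ℕ} {w : ZMod p}

/-- the nonzero classes which are not hit -/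
noncomputable def freeCl (S : Finset (Ideal (O n))) (c : Ideal (O n) → ZMod n) :
    Finset (ZMod n) := by
  classical
  exact (Finset.univ.erase (0 : ZMod n)) \ S.image c

lemma mem_freeCl {S : Finset (Ideal (O n))} {c : Ideal (O n) → ZMod n} {i : ZMod n} :
    i ∈ freeCl S c ↔ i ≠ 0 ∧ ∀ P ∈ S, c P ≠ i := by
  classical
  unfold freeCl
  simp

lemma noObs_of {S : Finset (Ideal (O n))} {c : Ideal (O n) → ZMod n}
    (h : 1 < (freeCl S c).card) :
    ∃ i j : ZMod n, i ≠ 0 ∧ j ≠ 0 ∧ i ≠ j ∧ (∀ P ∈ S, c P ≠ i) ∧ (∀ P ∈ S, c P ≠ j) := by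
  obtain ⟨i, hi, j, hj, hij⟩ := Finset.one_lt_card.1 h
  rw [mem_freeCl] at hi hj
  exact ⟨i, j, hi.1, hj.1, hij, hi.2, hj.2⟩

lemma card_nz : ((Finset.univ : Finset (ZMod n)).erase 0).card = n - 1 := by
  rw [Finset.card_erase_of_mem (Finset.mem_univ _), Finset.card_univ, ZMod.card]

theorem noObs_small (h5 : 5 ≤ n) {S : Finset (Ideal (O n))} (hS : S.card ≤ n - 3) : NoObs n S := by
  classical
  intro c κ _
  apply noObs_of
  unfold freeCl
  have h1 := Finset.le_card_sdiff (S.image c) ((Finset.univ : Finset (ZMod n)).erase 0)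
  rw [card_nz] at h1
  have h2 : (S.image c).card ≤ n - 3 := Finset.card_image_le.trans hS
  omega

lemma card_PP_le (h : QD n p m w) : (PP n p).card ≤ n - 1 := by
  classical
  have h1 : PP n p ⊆ (Finset.univ : Finset (ZMod n)ˣ).image (pk h) := by
    intro P hP
    obtain ⟨a, rfl⟩ := (mem_PP_iff h).1 hP
    exact Finset.mem_image_of_mem _ (Finset.mem_univ _)
  refine (Finset.card_le_card h1).trans (Finset.card_image_le.trans ?_)
  rw [Finset.card_univ, ZMod.card_units_eq_totient, Nat.totient_prime hn.out]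

theorem noObs_one (h5 : 5 ≤ n) (h1 : Reg1 n) (h : QD n p m w)
    (hr : ∃ r, Odd r ∧ 3 ≤ r ∧ r ≤ n - 2 ∧ L n r (pi n (pk h 1)) ≠ 0)
    {S : Finset (Ideal (O n))} (hS : S ⊆ PP n p) : NoObs n S := by
  classical
  obtain ⟨s, hs, hs3, hs2, hne⟩ := hr
  intro c κ hc
  by_contra hcon
  have hA : (freeCl S c).card ≤ 1 := by
    by_contra hA
    exact hcon (noObs_of (by omega))
  have hcS : S.card ≤ n - 1 := (Finset.card_le_card hS).trans (card_PP_le h)
  have hLne : ∀ P ∈ S, L n s (pi n P) ≠ 0 := by
    intro P hP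
    obtain ⟨a, rfl⟩ := (mem_PP_iff h).1 (hS hP)
    rw [L_pi_pk h1 h a hs hs3 hs2]
    exact mul_ne_zero (pow_ne_zero _ (Units.ne_zero _)) hne
  have hfib : ∑ i ∈ (Finset.univ : Finset (ZMod n)).erase 0, (S.filter (fun P => c P = i)).card
      ≤ S.card := by
    have e : S.card = ∑ i ∈ (Finset.univ : Finset (ZMod n)), (S.filter (fun P => c P = i)).card :=
      Finset.card_eq_sum_card_fiberwise (fun P _ => Finset.mem_univ (c P))
    rw [e]
    exact Finset.sum_le_sum_of_subset (Finset.erase_subset _ _)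
  have hpos : ∀ i : ZMod n, i ≠ 0 → i ∉ freeCl S c →
      1 ≤ (S.filter (fun P => c P = i)).card := by
    intro i hi hni
    rw [mem_freeCl] at hni
    push Not at hni
    obtain ⟨P, hP, hPi⟩ := hni hi
    exact Finset.card_pos.2 ⟨P, Finset.mem_filter.2 ⟨hP, hPi⟩⟩
  rcases Nat.lt_or_ge 0 (freeCl S c).card with hA1 | hA0
  · -- exactly one class is free
    obtain ⟨i0, hi0⟩ := Finset.card_pos.1 hA1
    have hi0' := mem_freeCl.1 hi0
    have hk : κ s = 0 := by
      rw [← hc i0 hi0'.1 s hs hs3 hs2]
      have : S.filter (fun P => c P = i0) = ∅ := by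
        rw [Finset.filter_eq_empty_iff]
        intro P hP
        exact hi0'.2 P hP
      rw [this, Finset.sum_empty]
    have hex : ∃ i : ZMod n, i ≠ 0 ∧ (S.filter (fun P => c P = i)).card = 1 := by
      by_contra hno
      push Not at hno
      have h2 : ∀ i ∈ ((Finset.univ : Finset (ZMod n)).erase 0).erase i0,
          2 ≤ (S.filter (fun P => c P = i)).card := by
        intro i hi
        rw [Finset.mem_erase, Finset.mem_erase] at hi
        have h3 := hpos i hi.2.1 (fun h4 => hi.1 (Finset.card_le_one.1 hA i h4 i0 hi0))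
        have h4 := hno i hi.2.1
        omega
      have h3 := Finset.card_nsmul_le_sum _ _ _ h2
      have h4 : (((Finset.univ : Finset (ZMod n)).erase 0).erase i0).card = n - 2 := by
        rw [Finset.card_erase_of_mem (Finset.mem_erase.2 ⟨hi0'.1, Finset.mem_univ _⟩), card_nz]
        omega
      have h5' : ∑ i ∈ ((Finset.univ : Finset (ZMod n)).erase 0).erase i0,
          (S.filter (fun P => c P = i)).card ≤
          ∑ i ∈ (Finset.univ : Finset (ZMod n)).erase 0, (S.filter (fun P => c P = i)).card :=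
        Finset.sum_le_sum_of_subset (Finset.erase_subset _ _)
      rw [h4, smul_eq_mul] at h3
      omega
    obtain ⟨i, hi, hi1⟩ := hex
    obtain ⟨P, hP⟩ := Finset.card_eq_one.1 hi1
    have h6 := hc i hi s hs hs3 hs2
    rw [hP, Finset.sum_singleton, hk] at h6
    have h7 : P ∈ S.filter (fun P => c P = i) := by rw [hP]; exact Finset.mem_singleton_self _
    exact hLne P (Finset.mem_filter.1 h7).1 h6
  · -- no class is free
    have hA0' : freeCl S c = ∅ := Finset.card_eq_zero.1 (by omega)
    have hpos' : ∀ i ∈ (Finset.univ : Finset (ZMod n)).erase 0,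
        1 ≤ (S.filter (fun P => c P = i)).card := by
      intro i hi
      exact hpos i (Finset.mem_erase.1 hi).1 (by rw [hA0']; exact Finset.notMem_empty _)
    have hsum : ∑ i ∈ (Finset.univ : Finset (ZMod n)).erase 0, 1 = n - 1 := by
      rw [Finset.sum_const, card_nz, smul_eq_mul, mul_one]
    have hle := Finset.sum_le_sum hpos'
    have hcard : S.card = n - 1 := by omega
    have hSP : S = PP n p := Finset.eq_of_subset_of_card_le hS (by
      rw [hcard]; exact card_PP_le h)
    have hone : ∀ i ∈ (Finset.univ : Finset (ZMod n)).erase 0,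
        (S.filter (fun P => c P = i)).card = 1 := by
      have h8 : ∑ i ∈ (Finset.univ : Finset (ZMod n)).erase 0, 1 =
          ∑ i ∈ (Finset.univ : Finset (ZMod n)).erase 0, (S.filter (fun P => c P = i)).card := by
        omega
      intro i hi
      exact ((Finset.sum_eq_sum_iff_of_le hpos').1 h8 i hi).symm
    have hc0 : ∀ P ∈ S, c P ≠ 0 := by
      intro P hP h0
      have e : S.card = ∑ i ∈ (Finset.univ : Finset (ZMod n)),
          (S.filter (fun P => c P = i)).card :=
        Finset.card_eq_sum_card_fiberwise (fun P _ => Finset.mem_univ (c P))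
      rw [← Finset.add_sum_erase _ _ (Finset.mem_univ (0 : ZMod n))] at e
      have h9 : 1 ≤ (S.filter (fun P => c P = 0)).card :=
        Finset.card_pos.2 ⟨P, Finset.mem_filter.2 ⟨hP, h0⟩⟩
      omega
    have hall : ∀ P ∈ S, L n s (pi n P) = κ s := by
      intro P hP
      obtain ⟨Q, hQ⟩ := Finset.card_eq_one.1
        (hone (c P) (Finset.mem_erase.2 ⟨hc0 P hP, Finset.mem_univ _⟩))
      have h10 : P ∈ S.filter (fun P' => c P' = c P) := Finset.mem_filter.2 ⟨hP, rfl⟩
      rw [hQ, Finset.mem_singleton] at h10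
      have h11 := hc (c P) (hc0 P hP) s hs hs3 hs2
      rw [hQ, Finset.sum_singleton, ← h10] at h11
      exact h11
    have hpow : ∀ a : (ZMod n)ˣ, a ^ s = 1 := by
      intro a
      have h12 := hall (pk h a⁻¹) (by rw [hSP]; exact (mem_PP_iff h).2 ⟨_, rfl⟩)
      have h13 := hall (pk h 1) (by rw [hSP]; exact (mem_PP_iff h).2 ⟨_, rfl⟩)
      rw [L_pi_pk h1 h a⁻¹ hs hs3 hs2, ← h13, inv_inv] at h12
      have h14 : (a : ZMod n) ^ s = 1 := by
        have h15 : ((a : ZMod n) ^ s - 1) * L n s (pi n (pk h 1)) = 0 := by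
          linear_combination h12
        rcases mul_eq_zero.1 h15 with h16 | h16
        · exact sub_eq_zero.1 h16
        · exact absurd h16 hne
      ext
      rw [Units.val_pow_eq_pow_val, h14, Units.val_one]
    obtain ⟨g, hg⟩ := IsCyclic.exists_generator (α := (ZMod n)ˣ)
    have h17 : orderOf g = n - 1 := by
      rw [orderOf_eq_card_of_forall_mem_zpowers hg, Nat.card_eq_fintype_card,
        ZMod.card_units_eq_totient, Nat.totient_prime hn.out]
    have h18 := orderOf_dvd_of_pow_eq_one (hpow g)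
    rw [h17] at h18
    have h19 := Nat.le_of_dvd (by omega) h18
    omega

end Pool.Agent.Helper38.REG
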