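import Pool.Agent.Helper38.REG.Config
import Pool.Agent.Helper38.REG.Factor
import Pool.Agent.Helper38.REG.NoObs

/-! Project REG, module D: the descent (helper38). -/

namespace Pool.Agent.Helper38.REG

open NumberField Finset

variable (n : ℕ) [hn : Fact n.Prime]

lemma ok_of_pow {r : O n} {k : ℕ} (hk : k ≠ 0) (h : ok n (r ^ k)) : ok n r := by
  intro hd
  exact h (hd.trans (dvd_pow_self r hk))

lemma ok_root {x u r : O n} (hx : ok n x) (h : x = u * r ^ n) : ok n r := by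
  rw [h, ok_mul] at hx
  exact ok_of_pow n hn.out.ne_zero hx.2

/-- units with equal invariants differ by an `n`-th power -/
lemma unit_ratio (hKL : KL n) {u v : O n} (hu : IsUnit u) (hv : IsUnit v)
    (h : ∀ r, 1 ≤ r → r ≤ n - 2 → L n r u = L n r v) : ∃ y, IsUnit y ∧ u = v * y ^ n := by
  obtain ⟨v', rfl⟩ := hv
  have hi : ((v'⁻¹ : (𝓞 (K n))ˣ) : O n) * (v' : O n) = 1 := by simp
  have hiu : IsUnit ((v'⁻¹ : (𝓞 (K n))ˣ) : O n) := (v'⁻¹).isUnit
  obtain ⟨y, hy, hye⟩ := hKL (u * ((v'⁻¹ : (𝓞 (K n))ˣ) : O n)) (hu.mul hiu) (by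
    intro r h1 h2
    have e := L_mul n h1 h2 (ok_unit n hiu) (ok_unit n v'.isUnit)
    rw [hi, L_one n h1 h2] at e
    rw [L_mul n h1 h2 (ok_unit n hu) (ok_unit n hiu), h r h1 h2, add_comm]
    exact e.symm)
  refine ⟨y, hy, ?_⟩
  linear_combination (v' : O n) * hye - u * hi

theorem step (h5 : 5 ≤ n) (h1 : Reg1 n) (hKL : KL n) {S : Finset (Ideal (O n))}
    (hS : Good n S) (hN : NoObs n S) {k e : ℕ} (hk : 1 ≤ k) (h : Eqn n S (k + 1) e) :
    ∃ S' ⊆ S, Eqn n S' k e := by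
  classical
  obtain ⟨-, X, Y, Z, ε, g, hXY, hε, hZ, hY, hg0, hgi, hok, hco, hprod⟩ := config n h5 h1 hS h
  have hl : lam n ≠ 0 := (lam_prime n).ne_zero
  have hZ0 : Z ≠ 0 := by
    rintro rfl
    exact hZ (dvd_zero _)
  obtain ⟨c, -, hsplit'⟩ := factor n h5 h1 g hco S
    (fun P hP => ⟨(hS P hP).1, (hS P hP).2.1⟩) hε hZ0 hprod
  have hsplit : ∀ i, ∃ u r : O n, IsUnit u ∧
      (∏ P ∈ S.filter (fun P => c P = i), pi n P) ^ 3 * g i = u * r ^ n := by
    intro i
    obtain ⟨u, r, hu, h2⟩ := hsplit' i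
    refine ⟨u, r, hu, ?_⟩
    rw [← h2]
    congr!
  -- the relation between `g i` and `Y`
  have hw : ∀ i : ZMod n, i ≠ 0 → ∃ w : O n, IsUnit w ∧ 1 - z n ^ i.val = lam n * w ∧
      w * (g i + Y) = lam n ^ (n * k + e) * g 0 := by
    intro i hi
    obtain ⟨w, hw, hwe⟩ := one_sub_unit n hi
    refine ⟨w, hw, hwe, ?_⟩
    apply mul_left_cancel₀ hl
    have e1 := hgi i hi
    have e2 : lam n ^ (n * k + e + 1) = lam n * lam n ^ (n * k + e) := by
      rw [pow_succ]; ring
    rw [e2] at hg0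
    linear_combination (-(g i) - Y) * hwe - e1 + hg0
  have hTg : ∀ i : ZMod n, i ≠ 0 → T n (g i) = T n (-Y) := by
    intro i hi
    obtain ⟨w, hw, -, hwe⟩ := hw i hi
    rw [T_eq_iff, sub_neg_eq_add]
    have h2 : (n : O n) ∣ w * (g i + Y) := by
      rw [hwe]
      refine Dvd.dvd.mul_right (n_dvd_lam_pow n ?_) _
      have : n * 1 ≤ n * k := Nat.mul_le_mul_left n hk
      omega
    exact (hw.dvd_mul_left).1 h2
  have hokpi : ∀ i, ok n (∏ P ∈ S.filter (fun P => c P = i), pi n P) := by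
    intro i
    apply ok_prod
    intro P hP
    exact hS.ok_pi n h1 (mem_filter.1 hP).1
  have h3 : (3 : ZMod n) ≠ 0 := by
    intro h0
    have := (ZMod.natCast_eq_zero_iff 3 n).1 (by exact_mod_cast h0)
    have := Nat.le_of_dvd (by norm_num) this
    omega
  obtain ⟨i, j, hi, hj, hij, hci, hcj⟩ := hN c (fun r => -(3 : ZMod n)⁻¹ * L n r (-Y)) (by
    intro i hi r hr h3r hrn
    obtain ⟨u, s, hu, hs⟩ := hsplit i
    have hl1 : ok n ((∏ P ∈ S.filter (fun P => c P = i), pi n P) ^ 3 * g i) :=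
      (ok_mul n).2 ⟨ok_pow n (hokpi i) 3, hok i⟩
    have hoks : ok n s := ok_root n hl1 hs
    have e1 := congrArg (L n r) hs
    rw [L_mul n (by omega) hrn (ok_pow n (hokpi i) 3) (hok i), L_pow n (by omega) hrn (hokpi i),
      L_prod n (by omega) hrn _ _ (fun P hP => hS.ok_pi n h1 (mem_filter.1 hP).1),
      L_mul n (by omega) hrn (ok_unit n hu) (ok_pow n hoks n), L_pown n (by omega) hrn hoks,
      unit_odd n hr h3r hrn hu, L_T n (hTg i hi)] at e1
    push_cast at e1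
    field_simp
    linear_combination e1)
  have hne : ∀ i, (∀ P ∈ S, c P ≠ i) → S.filter (fun P => c P = i) = ∅ := by
    intro i hi
    exact filter_eq_empty_iff.2 hi
  obtain ⟨u1, r1, hu1, e1⟩ := hsplit i
  obtain ⟨u2, r2, hu2, e2⟩ := hsplit j
  rw [hne i hci, prod_empty, one_pow, one_mul] at e1
  rw [hne j hcj, prod_empty, one_pow, one_mul] at e2
  have hr1 := ok_root n (hok i) e1
  have hr2 := ok_root n (hok j) e2
  obtain ⟨v, hv, huv⟩ := unit_ratio n hKL hu1 hu2 (by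
    intro r h1r h2r
    have e3 : L n r (g i) = L n r (g j) := L_T n ((hTg i hi).trans (hTg j hj).symm)
    rw [e1, e2, L_mul n h1r h2r (ok_unit n hu1) (ok_pow n hr1 n), L_pown n h1r h2r hr1,
      L_mul n h1r h2r (ok_unit n hu2) (ok_pow n hr2 n), L_pown n h1r h2r hr2, add_zero,
      add_zero] at e3
    exact e3)
  obtain ⟨u0, r0, hu0, e0⟩ := hsplit 0
  have hr0 : ok n r0 := ok_root n ((ok_mul n).2 ⟨ok_pow n (hokpi 0) 3, hok 0⟩) e0
  obtain ⟨w1, hw1, hw1e, hw1g⟩ := hw i hi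
  obtain ⟨w2, hw2, hw2e, hw2g⟩ := hw j hj
  obtain ⟨w3, hw3, hw3e⟩ := diff_unit n hij
  have hw123 : w2 - w1 = w3 := by
    apply mul_left_cancel₀ hl
    linear_combination hw3e + hw1e - hw2e
  obtain ⟨W, hW⟩ := (hw1.mul hw2).mul hu2
  have hWi : (W : O n) * ((W⁻¹ : (𝓞 (K n))ˣ) : O n) = 1 := by simp
  refine ⟨S.filter (fun P => c P = 0), filter_subset _ _, v * r1, -r2, r0,
    ((W⁻¹ : (𝓞 (K n))ˣ) : O n) * w3 * u0, ?_, ?_, hr0, ?_⟩
  · rw [IsCoprime.neg_right_iff, isCoprime_mul_unit_left_left hv]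
    refine ((hco i j hij).of_isCoprime_of_dvd_left ?_).of_isCoprime_of_dvd_right ?_
    · rw [e1]
      exact Dvd.dvd.mul_left (dvd_pow_self _ hn.out.ne_zero) _
    · rw [e2]
      exact Dvd.dvd.mul_left (dvd_pow_self _ hn.out.ne_zero) _
  · exact ((W⁻¹).isUnit.mul hw3).mul hu0
  · have hodd : (-r2) ^ n = - r2 ^ n := (n_odd n h5).neg_pow r2
    rw [hodd, mul_pow]
    have e5 : w1 * w2 * (g i - g j) = w3 * (lam n ^ (n * k + e) * g 0) := by
      rw [← hw123]
      linear_combination w2 * hw1g - w1 * hw2g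
    rw [e1, e2, huv] at e5
    have e6 : (W : O n) * (v ^ n * r1 ^ n + - r2 ^ n) = w3 * (lam n ^ (n * k + e) * g 0) := by
      rw [hW]
      linear_combination e5
    generalize (∏ P ∈ S.filter (fun P => c P = 0), pi n P) ^ 3 = D at *
    generalize lam n ^ (n * k + e) = Λ at *
    generalize v ^ n * r1 ^ n + - r2 ^ n = Q at *
    linear_combination ((W⁻¹ : (𝓞 (K n))ˣ) : O n) * D * e6 +
      ((W⁻¹ : (𝓞 (K n))ˣ) : O n) * w3 * Λ * e0 - D * Q * hWi

theorem base0 (h5 : 5 ≤ n) (h1 : Reg1 n) {S : Finset (Ideal (O n))} (hS : Good n S) :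
    ¬ Eqn n S 1 0 := by
  intro h
  have := (config n h5 h1 hS (k := 0) (e := 0) h).1
  omega

lemma lam_Rp : Rp n (1 - E n) (lam n) := Rp.one.sub Rp.z

lemma lam_series : ∃ F : PowerSeries (ZMod n), 1 - E n = PowerSeries.X * F ∧
    PowerSeries.constantCoeff F = -1 := by
  have h0 : PowerSeries.constantCoeff (1 - E n) = 0 := by
    rw [map_sub, constantCoeff_E, map_one, sub_self]
  obtain ⟨F, hF⟩ := PowerSeries.X_dvd_iff.2 h0
  refine ⟨F, hF, ?_⟩
  have h1 : PowerSeries.coeff 1 (1 - E n) = PowerSeries.coeff 0 F := by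
    rw [hF]
    exact PowerSeries.coeff_succ_X_mul 0 F
  rw [map_sub, coeff_E, PowerSeries.coeff_one, if_neg one_ne_zero,
    PowerSeries.coeff_zero_eq_constantCoeff_apply] at h1
  rw [← h1]
  simp

lemma ld_mul_self {g : PowerSeries (ZMod n)} (hg : PowerSeries.constantCoeff g ≠ 0) :
    ld n g * g = PowerSeries.derivative (ZMod n) g := by
  unfold ld
  rw [mul_assoc, PowerSeries.inv_mul_cancel g hg, mul_one]

lemma L3_shift (h5 : 5 ≤ n) {x y : O n} {G D : PowerSeries (ZMod n)} (hG : Rp n G x)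
    (hD : Rp n D y) (hD0 : ∀ k < 3, PowerSeries.coeff k D = 0) (hx : ok n x) :
    (L n 3 (x + y) - L n 3 x) * PowerSeries.constantCoeff G = 6 * PowerSeries.coeff 3 D := by
  have hG0 : PowerSeries.constantCoeff G ≠ 0 := (ok_Rp n hG).1 hx
  have hD00 : PowerSeries.constantCoeff D = 0 := by
    rw [← PowerSeries.coeff_zero_eq_constantCoeff_apply]; exact hD0 0 (by norm_num)
  have hGD0 : PowerSeries.constantCoeff (G + D) ≠ 0 := by
    rw [map_add, hD00, add_zero]; exact hG0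
  rw [L_eq n (by norm_num) (by omega) (hG.add hD) hGD0, L_eq n (by norm_num) (by omega) hG hG0]
  have h1 := congrArg (PowerSeries.coeff 2) (ld_mul_self n hGD0)
  have h2 := congrArg (PowerSeries.coeff 2) (ld_mul_self n hG0)
  have hc := ld_congr n (N := 2) hGD0 (h := G) (by
    intro k hk
    rw [map_add, hD0 k (by omega), add_zero])
  have c0 := hc 0 (by norm_num)
  have c1 := hc 1 (by norm_num)
  rw [PowerSeries.coeff_derivative, PowerSeries.coeff_mul,
    Finset.Nat.sum_antidiagonal_eq_sum_range_succ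
      (fun a b => PowerSeries.coeff a (ld n (G + D)) * PowerSeries.coeff b (G + D)),
    sum_range_succ, sum_range_succ, sum_range_succ, sum_range_zero] at h1
  rw [PowerSeries.coeff_derivative, PowerSeries.coeff_mul,
    Finset.Nat.sum_antidiagonal_eq_sum_range_succ
      (fun a b => PowerSeries.coeff a (ld n G) * PowerSeries.coeff b G),
    sum_range_succ, sum_range_succ, sum_range_succ, sum_range_zero] at h2
  simp only [map_add, hD0 0 (by norm_num), hD0 1 (by norm_num), hD0 2 (by norm_num), add_zero,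
    Nat.sub_zero, Nat.sub_self, c0, c1] at h1 h2
  rw [PowerSeries.coeff_zero_eq_constantCoeff_apply G] at h1 h2
  norm_num at h1 h2 ⊢
  linear_combination 2 * h1 - 2 * h2

theorem base3 (h5 : 5 ≤ n) (h1 : Reg1 n) : ¬ Eqn n ∅ 1 3 := by
  classical
  intro h
  have hS : Good n ∅ := by intro P hP; simp at hP
  obtain ⟨-, X, Y, Z, ε, g, hXY, hε, hZ, hY, hg0, hgi, hok, hco, hprod⟩ :=
    config n h5 h1 hS (k := 0) (e := 3) h
  have hl : lam n ≠ 0 := (lam_prime n).ne_zero
  have hZ0 : Z ≠ 0 := by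
    rintro rfl
    exact hZ (dvd_zero _)
  obtain ⟨c, -, hsplit⟩ := factor n h5 h1 g hco ∅ (fun P hP => by simp at hP) hε hZ0 hprod
  have hL : ∀ i, L n 3 (g i) = 0 := by
    intro i
    obtain ⟨u, r, hu, e1⟩ := hsplit i
    rw [filter_empty, prod_empty, one_pow, one_mul] at e1
    have hr := ok_root n (hok i) e1
    rw [e1, L_mul n (by norm_num) (by omega) (ok_unit n hu) (ok_pow n hr n),
      L_pown n (by norm_num) (by omega) hr, unit_odd n (by decide) le_rfl (by omega) hu, add_zero]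
  have hv1 : ((1 : ZMod n)).val = 1 := by
    have : Fact (1 < n) := ⟨hn.out.one_lt⟩
    exact ZMod.val_one n
  have hv2 : ((2 : ZMod n)).val = 2 := by
    have := ZMod.val_cast_of_lt (n := n) (a := 2) (by omega)
    exact_mod_cast this
  have h20 : (2 : ZMod n) ≠ 0 := by
    intro h0
    rw [h0, ZMod.val_zero] at hv2
    omega
  have hz : z n = 1 - lam n := by unfold lam; ring
  -- `g 1 = λ^3 g 0 - Y`
  have e1 : g 1 = -Y + lam n ^ 3 * g 0 := by
    have := hgi 1 one_ne_zero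
    rw [hv1, pow_one] at this
    apply mul_left_cancel₀ hl
    rw [show n * 0 + 3 + 1 = 4 by ring] at hg0
    linear_combination hg0 - this + (g 1 + Y) * hz
  have e2 : (1 + z n) * (g 2 + Y) = lam n ^ 3 * g 0 := by
    have := hgi 2 h20
    rw [hv2] at this
    apply mul_left_cancel₀ hl
    rw [show n * 0 + 3 + 1 = 4 by ring] at hg0
    linear_combination hg0 - this + (1 + z n) * (g 2 + Y) * hz
  obtain ⟨F, hF, hF0⟩ := lam_series n
  obtain ⟨A, hA⟩ := exists_Rp n (g 0)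
  obtain ⟨G, hG⟩ := exists_Rp n (-Y)
  have hA0 : PowerSeries.constantCoeff A ≠ 0 := (ok_Rp n hA).1 (hok 0)
  have hD1 : Rp n (PowerSeries.X ^ 3 * (F ^ 3 * A)) (lam n ^ 3 * g 0) := by
    have := ((lam_Rp n).pow 3).mul hA
    rw [hF] at this
    have e : (PowerSeries.X * F) ^ 3 * A = PowerSeries.X ^ 3 * (F ^ 3 * A) := by ring
    rwa [e] at this
  have hE2 : PowerSeries.constantCoeff (1 + E n) = 2 := by
    rw [map_add, constantCoeff_E, map_one]; norm_num
  have hD2 : Rp n (PowerSeries.X ^ 3 * (F ^ 3 * A * (1 + E n)⁻¹)) (g 2 + Y) := by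
    have h3 : Rp n (1 + E n) (1 + z n) := Rp.one.add Rp.z
    have hinv : (1 + E n) * (1 + E n)⁻¹ = 1 :=
      PowerSeries.mul_inv_cancel _ (by rw [hE2]; exact h20)
    unfold Rp at *
    have e3 := congrArg (T n) e2
    rw [map_mul, ← h3, ← hD1] at e3
    have e4 : Ideal.Quotient.mk (I n) ((1 + E n)⁻¹) * Ideal.Quotient.mk (I n) (1 + E n) = 1 := by
      rw [← map_mul, mul_comm, hinv, map_one]
    calc Ideal.Quotient.mk (I n) (PowerSeries.X ^ 3 * (F ^ 3 * A * (1 + E n)⁻¹))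
        = Ideal.Quotient.mk (I n) ((1 + E n)⁻¹) *
            Ideal.Quotient.mk (I n) (PowerSeries.X ^ 3 * (F ^ 3 * A)) := by
          rw [← map_mul]; congr 1; ring
      _ = T n (g 2 + Y) := by rw [← e3, ← mul_assoc, e4, one_mul]
  have hz0 : ∀ B : PowerSeries (ZMod n), ∀ k < 3,
      PowerSeries.coeff k (PowerSeries.X ^ 3 * B) = 0 := by
    intro B k hk
    rw [PowerSeries.coeff_X_pow_mul', if_neg (by omega)]
  have hz3 : ∀ B : PowerSeries (ZMod n),
      PowerSeries.coeff 3 (PowerSeries.X ^ 3 * B) = PowerSeries.constantCoeff B := by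
    intro B
    rw [PowerSeries.coeff_X_pow_mul', if_pos le_rfl, Nat.sub_self,
      PowerSeries.coeff_zero_eq_constantCoeff_apply]
  have hYok : ok n (-Y) := (ok_neg n).2 hY
  have s1 := L3_shift n h5 hG hD1 (hz0 _) hYok
  have s2 := L3_shift n h5 hG hD2 (hz0 _) hYok
  rw [← e1, hL 1, hz3, map_mul, map_pow, hF0] at s1
  rw [show -Y + (g 2 + Y) = g 2 by ring, hL 2, hz3, map_mul, map_mul, map_pow, hF0] at s2
  have hinv : PowerSeries.constantCoeff ((1 + E n)⁻¹) * 2 = 1 := by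
    rw [← hE2, ← map_mul, PowerSeries.inv_mul_cancel _ (by rw [hE2]; exact h20), map_one]
  have h6 : (6 : ZMod n) ≠ 0 := by
    intro h0
    have := (ZMod.natCast_eq_zero_iff 6 n).1 (by exact_mod_cast h0)
    have h7 : n = 6 ∨ n = 5 ∨ 6 < n := by omega
    rcases h7 with h7 | h7 | h7
    · rw [h7] at hn; exact absurd hn.out (by norm_num)
    · rw [h7] at this; omega
    · have := Nat.le_of_dvd (by norm_num) this; omega
  have : 6 * PowerSeries.constantCoeff A = 0 := by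
    linear_combination 2 * (s1 - s2) + 6 * PowerSeries.constantCoeff A * hinv
  rcases mul_eq_zero.1 this with h8 | h8
  · exact h6 h8
  · exact hA0 h8

theorem no_eqn0 (h5 : 5 ≤ n) (h1 : Reg1 n) (hKL : KL n) {S : Finset (Ideal (O n))}
    (hS : Good n S) (hN : ∀ S' ⊆ S, NoObs n S') {k : ℕ} (hk : 1 ≤ k) : ¬ Eqn n S k 0 := by
  induction k, hk using Nat.le_induction generalizing S with
  | base => exact base0 n h5 h1 hS
  | succ k hk ih =>
    intro h
    obtain ⟨S', hS', h'⟩ := step n h5 h1 hKL hS (hN S subset_rfl) hk h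
    exact ih (fun P hP => hS P (hS' hP)) (fun S'' h'' => hN S'' (h''.trans hS')) h'

theorem no_eqn3 (h5 : 5 ≤ n) (h1 : Reg1 n) (hKL : KL n) {k : ℕ} (hk : 1 ≤ k) :
    ¬ Eqn n ∅ k 3 := by
  induction k, hk using Nat.le_induction with
  | base => exact base3 n h5 h1
  | succ k hk ih =>
    intro h
    have hS : Good n ∅ := by intro P hP; simp at hP
    obtain ⟨S', hS', h'⟩ := step n h5 h1 hKL hS
      (noObs_small h5 (by rw [card_empty]; omega)) hk h
    rw [subset_empty.1 hS'] at h'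
    exact ih h'

end Pool.Agent.Helper38.REG
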