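import Pool.Agent.Helper38.REG.Defs

/-! Project REG, module U: units of `ℤ[ζ_n]`.
BLUEPRINT. unit_conj: put `v = u / σ(u)`, `σ = sg n (-1)` (complex conjugation: for every embedding
`φ : K n →+* ℂ`, `φ (σ x) = conj (φ x)`, by `hom_ext` applied to the two ring homs `O n → ℂ`,
`z` goes to a root of unity). All embeddings of `v` have absolute value 1, `v` is integral, so
`v` has finite order (`NumberField.Embeddings.pow_eq_one_of_norm_eq_one`), and then
`(zspec n).exists_pow_or_neg_mul_pow_of_isOfFinOrder` (n odd) gives `v = ± z ^ j`.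
See `tors_form` in Pool/Agent/Helper38/F5/Units.lean for the last step.
unit_odd: `L r u = L r s + j * L r z + (-1) ^ r * L r u` (`L_sg`), `r ≥ 3` odd: `2 * L r u = 0`. -/

namespace Pool.Agent.Helper38.REG

open NumberField

variable (n : ℕ) [hn : Fact n.Prime]

/-- `sg n (-1)` is complex conjugation under every embedding -/
lemma phi_sg_neg_one (f : O n →+* ℂ) (x : O n) :
    f (sg n (-1) x) = (starRingEnd ℂ) (f x) := by
  have h : f.comp (sg n (-1)) = (starRingEnd ℂ).comp f := by
    apply hom_ext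
    rw [RingHom.comp_apply, RingHom.comp_apply, sg_z, map_pow]
    have hw : f (z n) ^ n = 1 := by rw [← map_pow, zn, map_one]
    have hnorm : ‖f (z n)‖ = 1 := Complex.norm_eq_one_of_pow_eq_one hw hn.out.ne_zero
    have h0 : f (z n) ≠ 0 := by
      intro h
      rw [h, norm_zero] at hnorm
      exact zero_ne_one hnorm
    have h1 : f (z n) ^ (((-1 : (ZMod n)ˣ) : ZMod n)).val * f (z n) = 1 := by
      rw [← pow_succ, ← map_pow]
      have e : z n ^ ((((-1 : (ZMod n)ˣ) : ZMod n)).val + 1) = z n ^ 0 := by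
        apply z_pow_val
        push_cast
        rw [ZMod.natCast_zmod_val]
        simp
      rw [e, pow_zero, map_one]
    have h2 : (starRingEnd ℂ) (f (z n)) * f (z n) = 1 := by
      rw [mul_comm, Complex.mul_conj, Complex.normSq_eq_norm_sq, hnorm]
      simp
    exact mul_right_cancel₀ h0 (h1.trans h2.symm)
  exact congrArg (fun g => g x) h

lemma neg_one_odd {r : ℕ} (hr : Odd r) : (((-1 : (ZMod n)ˣ) : ZMod n)) ^ r = -1 := by
  rw [Units.val_neg, Units.val_one, hr.neg_one_pow]

theorem unit_conj (h5 : 5 ≤ n) {u : O n} (hu : IsUnit u) :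
    ∃ (s : O n) (j : ℕ), (s = 1 ∨ s = -1) ∧ u = s * z n ^ j * sg n (-1) u := by
  obtain ⟨u', hu'⟩ := (hu.map (sg n (-1))).exists_right_inv
  have hnorm : ∀ φ : K n →+* ℂ, ‖φ (((u * u' : O n)) : K n)‖ = 1 := by
    intro φ
    have h1 := phi_sg_neg_one n (φ.comp (algebraMap (O n) (K n))) u
    have h2 : (φ.comp (algebraMap (O n) (K n))) (sg n (-1) u * u') = 1 := by
      rw [hu', map_one]
    rw [map_mul, h1] at h2
    have h3 : ‖(φ.comp (algebraMap (O n) (K n))) u‖ *
        ‖(φ.comp (algebraMap (O n) (K n))) u'‖ = 1 := by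
      have := congrArg norm h2
      rwa [norm_mul, RCLike.norm_conj, norm_one] at this
    have h4 : φ (((u * u' : O n)) : K n) = (φ.comp (algebraMap (O n) (K n))) u *
        (φ.comp (algebraMap (O n) (K n))) u' := by
      rw [← map_mul]
      rfl
    rw [h4, norm_mul, h3]
  obtain ⟨m, hm, hv⟩ := NumberField.Embeddings.pow_eq_one_of_norm_eq_one (K n) ℂ
    (RingOfIntegers.isIntegral_coe (u * u')) hnorm
  have hodd : Odd n := hn.out.odd_of_ne_two (by omega)
  have : NeZero n := ⟨hn.out.ne_zero⟩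
  obtain ⟨j, -, hj⟩ := (zspec n).exists_pow_or_neg_mul_pow_of_isOfFinOrder hodd
    (isOfFinOrder_iff_pow_eq_one.2 ⟨m, hm, hv⟩)
  have key : ∃ s : O n, (s = 1 ∨ s = -1) ∧ u * u' = s * z n ^ j := by
    rcases hj with h | h
    · refine ⟨1, Or.inl rfl, ?_⟩
      rw [one_mul]
      ext
      exact h
    · refine ⟨-1, Or.inr rfl, ?_⟩
      ext
      refine Eq.trans h ?_
      rw [neg_mul, one_mul]
      rfl
  obtain ⟨s, hs, hsj⟩ := key
  refine ⟨s, j, hs, ?_⟩
  rw [← hsj, mul_assoc, mul_comm u', hu', mul_one]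

theorem unit_odd {r : ℕ} (hr : Odd r) (h3 : 3 ≤ r) (h2 : r ≤ n - 2) {u : O n} (hu : IsUnit u) :
    L n r u = 0 := by
  obtain ⟨s, j, hs, hu2⟩ := unit_conj n (by omega) hu
  have h1 : 1 ≤ r := by omega
  have oku := ok_unit n hu
  have oks : ok n s := by
    rcases hs with rfl | rfl
    · exact ok_one n
    · exact (ok_neg n).2 (ok_one n)
  have Ls : L n r s = 0 := by
    rcases hs with rfl | rfl
    · exact L_one n h1 h2
    · exact L_neg_one n h1 h2
  have okz := ok_pow n (ok_z n) j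
  have h := congrArg (L n r) hu2
  rw [L_mul n h1 h2 ((ok_mul n).2 ⟨oks, okz⟩) ((ok_sg n (-1)).2 oku), L_mul n h1 h2 oks okz, Ls,
    L_pow n h1 h2 (ok_z n), L_z n (by omega) h2, L_sg n h1 h2 _ oku, neg_one_odd n hr] at h
  have h4 : (2 : ZMod n) * L n r u = 0 := by linear_combination h
  rcases mul_eq_zero.1 h4 with h5 | h5
  · exfalso
    have h6 : ((2 : ℕ) : ZMod n) = 0 := by exact_mod_cast h5
    have h7 := (ZMod.natCast_eq_zero_iff 2 n).1 h6
    have := Nat.le_of_dvd (by norm_num) h7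
    omega
  · exact h5

end Pool.Agent.Helper38.REG
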