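import Pool.Agent.Helper38.REG.Primes
import Pool.Agent.Helper38.REG.Factor
import Pool.Agent.Helper38.REG.Units

/-! Project REG, module FI: the factorisation of `x^n + y^n` for rational integers, `n ∤ z`.
BLUEPRINT. ok_sum: `x + y ≡ x^n + y^n = p^(n-3) c^n`, not divisible by `n` (Fermat), `ok_int`.
ff_coprime: as in `coprime_ff` of Pool/Agent/Helper38/F5/CaseTwo.lean: `λ` is a combination of
`ff i` and `ff j`, and `ff i ≡ x + y (mod λ)` is prime to `λ`.
fac_int: `∏_i ff i = x^n + y^n`; `(∏_{P ∈ PP} pi)^3 (x^n + y^n) = ε^3 p^(3 HH + n - 3) c^n`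
(`prod_pi`) and `3 HH + n - 3` is a multiple of `n` (`HH_mod`), so this is `ε^3 (p^t c)^n`; apply
`factor` (`mem_PP`: the `P` are primes `≠ ⊥` because `p ≠ 0`).
kummer_cong: `u = s z^j σ(u)` (`unit_conj`), `T (r^n) = T (σ r^n)` is the constant `c0 (T r)`
(a power series `g` over `ZMod n` has `g^n = ` its constant term in degrees `< n`), so
`T (x + z y) = s T(z)^j T (x + z^(-1) y)`. Constant terms: `x + y = s (x + y)`, so `s = 1`.
Coefficients of `u` and `u^3` of `x + y E = E^j (x + y E^(-1))` (`coeff_E_pow`; multiply by `E`):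
`y = j x + (j - 1) y`, `y = j^3 x + (j-1)^3 y`, so `x = 0` or `y = 0` or `x = y` in `ZMod n`.
If `y = 0` in `ZMod n`: `T (x + z y) = x` is constant, so all `L r (x + z y) = 0`, so all
`L r u = 0` (`L_mul`, `L_pown`), and `u` is an `n`-th power by `KL`. If `x = 0` the same for
`y + z^(-1) x`, if `x = y` compare with the unit `1 + z`: `T (x + z y) = T x * T (1 + z)`. -/

namespace Pool.Agent.Helper38.REG

open NumberField Finset

variable (n : ℕ) [hn : Fact n.Prime]

/-- the linear factors -/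
noncomputable def ff (x y : ℤ) (i : ZMod n) : O n := x + z n ^ i.val * y

theorem ok_sum (h5 : 5 ≤ n) {p : ℕ} (hp : p.Prime) (hpn : p ≠ n) {x y c : ℤ}
    (hc : ¬ (n : ℤ) ∣ c) (h : x ^ n + y ^ n = (p : ℤ) ^ (n - 3) * c ^ n) :
    ¬ (n : ℤ) ∣ x + y := by
  intro hd
  have h1 : ((x + y : ℤ) : ZMod n) = 0 := (ZMod.intCast_zmod_eq_zero_iff_dvd _ _).2 hd
  have h2 := congrArg (Int.cast : ℤ → ZMod n) h
  push_cast at h1 h2
  rw [ZMod.pow_card, ZMod.pow_card, ZMod.pow_card, h1] at h2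
  have h3 : (p : ZMod n) ≠ 0 := by
    intro h0
    have h4 := (ZMod.natCast_eq_zero_iff p n).1 h0
    rcases (Nat.dvd_prime hp).1 h4 with h5' | h5'
    · exact hn.out.one_lt.ne' h5'
    · exact hpn h5'.symm
  have h4 : (c : ZMod n) ≠ 0 := fun h0 => hc ((ZMod.intCast_zmod_eq_zero_iff_dvd _ _).1 h0)
  exact mul_ne_zero (pow_ne_zero _ h3) h4 h2.symm

theorem prod_ff (h5 : 5 ≤ n) (x y : ℤ) : ∏ i, ff n x y i = (x : O n) ^ n + (y : O n) ^ n := by
  exact prod_lin n h5 (x : O n) (y : O n)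

theorem ff_coprime (h5 : 5 ≤ n) {x y : ℤ} (hxy : IsCoprime x y) (hs : ¬ (n : ℤ) ∣ x + y)
    {i j : ZMod n} (hij : i ≠ j) : IsCoprime (ff n x y i) (ff n x y j) := by
  obtain ⟨w, hw, hwe⟩ := diff_unit n hij
  obtain ⟨w', rfl⟩ := hw
  have hwi : (w' : O n) * ((w'⁻¹ : (𝓞 (K n))ˣ) : O n) = 1 := by simp
  obtain ⟨r, s, hrs⟩ := hxy
  have hrs' : (r : O n) * x + s * y = 1 := by exact_mod_cast congrArg (Int.cast : ℤ → O n) hrs
  have hli : IsCoprime (ff n x y i) (lam n) := by
    rw [isCoprime_comm]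
    have hirr : Irreducible (lam n) := (lam_prime n).irreducible
    have hok : ¬ lam n ∣ ff n x y i := by
      rw [lam_dvd_cc]
      unfold ff
      rw [map_add, map_mul, cc_zpow, one_mul, map_intCast, map_intCast]
      intro h0
      apply hs
      rw [← ZMod.intCast_zmod_eq_zero_iff_dvd]
      push_cast
      exact h0
    have hprime : (Ideal.span {lam n}).IsPrime :=
      (Ideal.span_singleton_prime (lam_prime n).ne_zero).2 (lam_prime n)
    have hmax : (Ideal.span {lam n}).IsMaximal :=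
      hprime.isMaximal (by
        rw [Ne, Ideal.span_singleton_eq_bot]
        exact (lam_prime n).ne_zero)
    obtain ⟨b, hb⟩ := hmax.exists_inv (x := ff n x y i) (by
      rw [Ideal.mem_span_singleton]
      exact hok)
    obtain ⟨a, ha, hab⟩ := hb
    obtain ⟨a', rfl⟩ := Ideal.mem_span_singleton'.1 ha
    exact ⟨a', b, by rw [add_comm]; exact hab⟩
  obtain ⟨a, b, hab⟩ := hli
  have e1 : ff n x y i - ff n x y j = lam n * w' * y := by
    unfold ff
    linear_combination (y : O n) * hwe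
  have e2 : z n ^ j.val * ff n x y i - z n ^ i.val * ff n x y j = - (lam n * w' * x) := by
    unfold ff
    linear_combination -(x : O n) * hwe
  set iw : O n := ((w'⁻¹ : (𝓞 (K n))ˣ) : O n) with hiw
  refine ⟨a + b * iw * (s - r * z n ^ j.val), b * iw * (- s + r * z n ^ i.val), ?_⟩
  linear_combination hab + b * iw * s * e1 - b * iw * r * e2 + b * lam n * (w' : O n) * iw * hrs' +
    b * lam n * hwi

open Classical in
theorem fac_int (h5 : 5 ≤ n) (h1 : Reg1 n) {p : ℕ} (hp : p.Prime) (hpn : p ≠ n) {x y c : ℤ}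
    (hxy : IsCoprime x y) (hc : ¬ (n : ℤ) ∣ c)
    (h : x ^ n + y ^ n = (p : ℤ) ^ (n - 3) * c ^ n) :
    ∃ d : Ideal (O n) → ZMod n, (∀ P ∈ PP n p, ∀ i, ff n x y i ∈ P ↔ i = d P) ∧
      ∀ i, ∃ u r : O n, IsUnit u ∧
        (∏ P ∈ (PP n p).filter (fun P => d P = i), pi n P) ^ 3 * ff n x y i = u * r ^ n := by
  have hs := ok_sum n h5 hp hpn hc h
  obtain ⟨ε, hε, hpi⟩ := prod_pi n hp hpn
  have hHH := Nat.div_add_mod (HH n) n
  rw [HH_mod n h1] at hHH
  generalize HH n / n = q at hHH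
  have h2 : (x : O n) ^ n + (y : O n) ^ n = (p : O n) ^ (n - 3) * (c : O n) ^ n := by
    exact_mod_cast congrArg (Int.cast : ℤ → O n) h
  have hp0 : (p : O n) ≠ 0 := by
    rw [Nat.cast_ne_zero]
    exact hp.ne_zero
  have hc0 : (c : O n) ≠ 0 := by
    rw [Int.cast_ne_zero]
    rintro rfl
    exact hc (dvd_zero _)
  obtain ⟨d, hd1, hd2⟩ := factor n h5 h1 (ff n x y) (fun i j hij => ff_coprime n h5 hxy hs hij)
    (PP n p) (fun P hP => ⟨(PP_good n hp hpn P hP).1, (PP_good n hp hpn P hP).2.1⟩) (ε := ε ^ 3)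
    (Z := (p : O n) ^ (3 * q + 1) * c) (hε.pow 3) (mul_ne_zero (pow_ne_zero _ hp0) hc0) (by
      rw [prod_ff n h5, hpi, h2, ← hHH]
      have h3 : n * (3 * q + 1) = (n * q + 1) * 3 + (n - 3) := by
        have : 3 ≤ n := by omega
        zify [this]
        ring
      rw [mul_pow, mul_pow, ← pow_mul, ← pow_mul, mul_comm (3 * q + 1) n, h3, pow_add]
      ring)
  refine ⟨d, hd1, fun i => ?_⟩
  obtain ⟨u, r, hu, h⟩ := hd2 i
  refine ⟨u, r, hu, ?_⟩
  rw [← h]
  congr!

/-- `n`-th powers in `Q n` are constants. -/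
lemma Q_pown (q : Q n) : q ^ n = Ideal.Quotient.mk (I n) (PowerSeries.C (c0 n q)) := by
  obtain ⟨g, rfl⟩ := Ideal.Quotient.mk_surjective q
  rw [c0_mk, ← map_pow]
  have h1 : PowerSeries.X ∣ g - PowerSeries.C (PowerSeries.constantCoeff g) := by
    rw [PowerSeries.X_dvd_iff, map_sub, PowerSeries.constantCoeff_C, sub_self]
  obtain ⟨h, hh⟩ := h1
  have h2 : g = PowerSeries.C (PowerSeries.constantCoeff g) + PowerSeries.X * h := by
    rw [← hh]
    ring
  have : CharP (PowerSeries (ZMod n)) n :=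
    charP_of_injective_ringHom (f := PowerSeries.C (R := ZMod n)) PowerSeries.C_injective n
  conv_lhs => rw [h2]
  rw [add_pow_char, ← map_pow, ZMod.pow_card, mul_pow, Ideal.Quotient.eq, mem_I]
  intro k hk
  rw [add_sub_cancel_left, PowerSeries.coeff_X_pow_mul', if_neg (by omega)]

lemma c0_sg (a : (ZMod n)ˣ) (x : O n) : c0 n (T n (sg n a x)) = c0 n (T n x) := by
  obtain ⟨g, hg⟩ := exists_Rp n x
  rw [← Rp.sg n hg a, ← hg, c0_mk, c0_mk, ← PowerSeries.coeff_zero_eq_constantCoeff_apply,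
    PowerSeries.coeff_rescale, pow_zero, one_mul, PowerSeries.coeff_zero_eq_constantCoeff_apply]

/-- the final step of `kummer_cong` -/
lemma KL_case (hKL : KL n) {u r X w w' : O n} (hu : IsUnit u) (hX : X = u * r ^ n)
    (hw : w * w' = 1) {m : ℤ} (hm : ¬ (n : ℤ) ∣ m) (hT : T n X = T n (w * m)) :
    ∃ v, X = w * v ^ n := by
  have hwu : IsUnit w := IsUnit.of_mul_eq_one _ hw
  have hwu' : IsUnit w' := IsUnit.of_mul_eq_one _ (by rw [mul_comm]; exact hw)
  have hokm := (ok_int n).2 hm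
  have hokX : ok n X := by
    rw [ok_iff, hT, ← ok_iff, ok_mul]
    exact ⟨ok_unit n hwu, hokm⟩
  have hokr : ok n (r ^ n) := by
    rw [hX, ok_mul] at hokX
    exact hokX.2
  have hokr' : ok n r := by
    intro hd
    exact hokr (dvd_pow hd hn.out.ne_zero)
  have hT2 : T n (w' * X) = T n (m : O n) := by
    rw [map_mul, hT, ← map_mul, ← mul_assoc, mul_comm w' w, hw, one_mul]
  obtain ⟨v, hv, hvn⟩ := hKL (w' * u) (hwu'.mul hu) (by
    intro k hk1 hk2
    have h1 := L_T n (r := k) hT2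
    rw [hX, ← mul_assoc, L_mul n hk1 hk2 (ok_unit n (hwu'.mul hu)) hokr, L_pown n hk1 hk2 hokr',
      add_zero, L_int n hk1 hk2 hm] at h1
    exact h1)
  refine ⟨v * r, ?_⟩
  rw [mul_pow, ← hvn, hX]
  linear_combination (-u * r ^ n) * hw

/-- the congruence between `x + z y` and its conjugate -/
lemma conj_cong (h5 : 5 ≤ n) {x y : ℤ} {u r : O n}
    (hu : IsUnit u) (h : (x : O n) + z n * y = u * r ^ n) :
    ∃ (s : O n) (j : ℕ), (s = 1 ∨ s = -1) ∧
      T n (z n * x + z n ^ 2 * y) = T n (s * z n ^ j * (z n * x + y)) := by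
  obtain ⟨s, j, hs, hj⟩ := unit_conj n h5 hu
  refine ⟨s, j, hs, ?_⟩
  have hz1 : z n * z n ^ (-1 : ZMod n).val = 1 := by
    have h1 : z n * z n ^ (-1 : ZMod n).val = z n ^ (1 + (-1 : ZMod n).val) := by
      rw [pow_add, pow_one]
    rw [h1, ← pow_zero (z n)]
    apply z_pow_val
    push_cast
    rw [ZMod.natCast_zmod_val]
    ring
  have h2 : (x : O n) + z n ^ (-1 : ZMod n).val * y = sg n (-1) u * (sg n (-1) r) ^ n := by
    have h3 := congrArg (sg n (-1)) h
    rw [map_add, map_mul, map_mul, map_pow, map_intCast, map_intCast, sg_z] at h3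
    exact h3
  have h3 : T n (r ^ n) = T n ((sg n (-1) r) ^ n) := by
    rw [map_pow, map_pow, Q_pown, Q_pown, c0_sg]
  have h4 : T n ((x : O n) + z n * y) =
      T n (s * z n ^ j * ((x : O n) + z n ^ (-1 : ZMod n).val * y)) := by
    rw [h, h2, map_mul, h3, ← map_mul]
    congr 1
    conv_lhs => rw [hj]
    ring
  have e1 : z n * x + z n ^ 2 * y = z n * ((x : O n) + z n * y) := by ring
  have e2 : s * z n ^ j * (z n * x + y) =
      z n * (s * z n ^ j * ((x : O n) + z n ^ (-1 : ZMod n).val * y)) := by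
    linear_combination (-(s * z n ^ j * y)) * hz1
  rw [e1, e2, map_mul, h4, ← map_mul]

theorem kummer_cong (h5 : 5 ≤ n) (hKL : KL n) {x y : ℤ} (hs : ¬ (n : ℤ) ∣ x + y) {u r : O n}
    (hu : IsUnit u) (h : (x : O n) + z n * y = u * r ^ n) :
    ((n : ℤ) ∣ y ∧ ∃ v, (x : O n) + z n * y = v ^ n) ∨
    ((n : ℤ) ∣ x ∧ ∃ v, (x : O n) + z n * y = z n * v ^ n) ∨
    ((n : ℤ) ∣ x - y ∧ ∃ v, (x : O n) + z n * y = (1 + z n) * v ^ n) := by
  obtain ⟨s, j, hs1, hj⟩ := conj_cong n h5 hu h
  have hab : (x : ZMod n) + y ≠ 0 := by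
    intro h0
    apply hs
    rw [← ZMod.intCast_zmod_eq_zero_iff_dvd]
    push_cast
    exact h0
  have h2n : (2 : ZMod n) ≠ 0 := by
    have := fac_ne n (k := 2) (by omega)
    simpa using this
  have hs2 : s = 1 := by
    rcases hs1 with h1 | h1
    · exact h1
    · exfalso
      have h2 := congrArg (c0 n) hj
      rw [h1] at h2
      simp only [map_add, map_mul, map_pow, c0_z, map_neg, map_one, map_intCast] at h2
      have h3 : (2 : ZMod n) * ((x : ZMod n) + y) = 0 := by
        linear_combination h2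
      rcases mul_eq_zero.1 h3 with h4 | h4
      · exact h2n h4
      · exact hab h4
  subst hs2
  have hc : ∀ k < n - 1, (x : ZMod n) + y * 2 ^ k =
      x * ((j : ZMod n) + 1) ^ k + y * (j : ZMod n) ^ k := by
    intro k hk
    have r1 : Rp n (E n ^ 1 * PowerSeries.C (x : ZMod n) + E n ^ 2 * PowerSeries.C (y : ZMod n))
        (z n ^ 1 * x + z n ^ 2 * y) :=
      ((Rp.zpow 1).mul (Rp.int x)).add ((Rp.zpow 2).mul (Rp.int y))
    have r2 : Rp n (E n ^ (j + 1) * PowerSeries.C (x : ZMod n) +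
        E n ^ j * PowerSeries.C (y : ZMod n)) (z n ^ (j + 1) * x + z n ^ j * y) :=
      ((Rp.zpow (j + 1)).mul (Rp.int x)).add ((Rp.zpow j).mul (Rp.int y))
    have e1 : z n ^ 1 * (x : O n) + z n ^ 2 * y = z n * x + z n ^ 2 * y := by ring
    have e2 : z n ^ (j + 1) * (x : O n) + z n ^ j * y = 1 * z n ^ j * (z n * x + y) := by ring
    unfold Rp at r1 r2
    rw [e1, hj, ← e2, ← r2, mk_eq] at r1
    have h3 := r1 k hk
    rw [map_add, map_add, PowerSeries.coeff_mul_C, PowerSeries.coeff_mul_C,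
      PowerSeries.coeff_mul_C, PowerSeries.coeff_mul_C, coeff_E_pow n _ k (by omega),
      coeff_E_pow n _ k (by omega), coeff_E_pow n _ k (by omega),
      coeff_E_pow n _ k (by omega)] at h3
    have hf := fac_ne n (k := k) (by omega)
    push_cast at h3
    have hf' := mul_inv_cancel₀ hf
    generalize ((k.factorial : ℕ) : ZMod n)⁻¹ = fi at h3 hf'
    generalize ((k.factorial : ℕ) : ZMod n) = f at hf hf'
    rw [one_pow] at h3
    linear_combination f * h3 + (x * ((j : ZMod n) + 1) ^ k + y * (j : ZMod n) ^ k -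
      (x : ZMod n) - y * 2 ^ k) * hf'
  have hk1 := hc 1 (by omega)
  have hk3 := hc 3 (by omega)
  set a : ZMod n := (x : ZMod n) with ha
  set b : ZMod n := (y : ZMod n) with hb
  have hkey : (a + b) * (2 * (a * (b * (a - b)))) = 0 := by
    generalize (j : ZMod n) = J at hk1 hk3
    have ht : (a + b) * J = 2 * b := by linear_combination -hk1
    have h3 : (a + b) ^ 3 * (a + b * 2 ^ 3) =
        a * ((a + b) * J + (a + b)) ^ 3 + b * ((a + b) * J) ^ 3 := by
      linear_combination (a + b) ^ 3 * hk3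
    rw [ht] at h3
    linear_combination h3
  have hkey2 : a * (b * (a - b)) = 0 := by
    rcases mul_eq_zero.1 hkey with h4 | h4
    · exact absurd h4 hab
    · rcases mul_eq_zero.1 h4 with h4 | h4
      · exact absurd h4 h2n
      · exact h4
  rcases mul_eq_zero.1 hkey2 with h4 | h4
  · -- x = 0
    right; left
    have hd : (n : ℤ) ∣ x := (ZMod.intCast_zmod_eq_zero_iff_dvd _ _).1 h4
    refine ⟨hd, ?_⟩
    have hm : ¬ (n : ℤ) ∣ y := fun h0 => hs (dvd_add hd h0)
    refine KL_case n hKL hu h (w := z n) (w' := z n ^ (n - 1)) ?_ hm ?_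
    · rw [← pow_succ', Nat.sub_add_cancel hn.out.one_le, zn]
    · rw [map_add, T_int, ← ha, h4, map_zero, map_zero, zero_add]
  · rcases mul_eq_zero.1 h4 with h4 | h4
    · left
      have hd : (n : ℤ) ∣ y := (ZMod.intCast_zmod_eq_zero_iff_dvd _ _).1 h4
      refine ⟨hd, ?_⟩
      have hm : ¬ (n : ℤ) ∣ x := fun h0 => hs (dvd_add h0 hd)
      obtain ⟨v, hv⟩ := KL_case n hKL hu h (w := 1) (w' := 1) (one_mul 1) hm (by
        rw [map_add, map_mul (T n) (z n), T_int n y, ← hb, h4, map_zero, map_zero, mul_zero,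
          add_zero, one_mul])
      exact ⟨v, by rw [hv, one_mul]⟩
    · right; right
      have h5' : a = b := sub_eq_zero.1 h4
      have hd : (n : ℤ) ∣ x - y := by
        rw [← ZMod.intCast_zmod_eq_zero_iff_dvd]
        push_cast
        exact h4
      refine ⟨hd, ?_⟩
      have hm : ¬ (n : ℤ) ∣ x := by
        intro h0
        apply hs
        have : x + y = 2 * x - (x - y) := by ring
        rw [this]
        exact dvd_sub (Dvd.dvd.mul_left h0 2) hd
      obtain ⟨w1, hw1⟩ := (lam_eps n 2 (by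
        intro h0
        have := Nat.le_of_dvd (by norm_num) h0
        omega)).2
      have hw2 : (w1 : O n) = 1 + z n := by
        rw [hw1]
        simp [Finset.sum_range_succ]
      refine KL_case n hKL hu h (w := 1 + z n) (w' := ((w1⁻¹ : (𝓞 (K n))ˣ) : O n)) ?_ hm ?_
      · rw [← hw2]; simp
      · have : T n (y : O n) = T n (x : O n) := by rw [T_int, T_int, ← hb, ← h5']
        rw [map_add, map_mul, map_mul, this, map_add, map_one]
        ring

end Pool.Agent.Helper38.REG
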