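import Pool.Agent.Helper38.REG.Split

/-! Project REG, module J: the Jacobi sums `J(χ, χ^b)` (adapt Pool/Agent/Helper38/F5/Jacobi.lean). -/

namespace Pool.Agent.Helper38.REG

open NumberField Finset

section
variable {n : ℕ} [hn : Fact n.Prime] {p : ℕ} [Fact p.Prime] {m : ℕ} {w : ZMod p}

/-- the character of order `n` -/
noncomputable def chi (h : QD n p m w) : MulChar (ZMod p) (O n) where
  toFun x := if x = 0 then 0 else z n ^ (ind n w m x).val
  map_one' := by
    rw [if_neg one_ne_zero, h.ind_one]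
    simp
  map_mul' x y := by
    by_cases hx : x = 0
    · simp [hx]
    by_cases hy : y = 0
    · simp [hy]
    rw [if_neg hx, if_neg hy, if_neg (mul_ne_zero hx hy), ← pow_add]
    apply z_pow_val
    rw [h.ind_mul hx hy]
    push_cast
    rw [ZMod.natCast_zmod_val, ZMod.natCast_zmod_val, ZMod.natCast_zmod_val]
  map_nonunit' x hx := by
    have : x = 0 := by
      by_contra h0
      exact hx (isUnit_iff_ne_zero.2 h0)
    simp [this]

lemma chi_apply (h : QD n p m w) {x : ZMod p} (hx : x ≠ 0) :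
    chi h x = z n ^ (ind n w m x).val := by
  show (if x = 0 then 0 else z n ^ (ind n w m x).val) = _
  rw [if_neg hx]

lemma chi_zero (h : QD n p m w) : chi h 0 = 0 := by
  show (if (0 : ZMod p) = 0 then (0 : O n) else z n ^ (ind n w m 0).val) = _
  rw [if_pos rfl]

/-- the Jacobi sum `J(χ, χ^b)` -/
noncomputable def J (h : QD n p m w) (b : ℕ) : O n := jacobiSum (chi h) (chi h ^ b)

/-- power sums of `ind x + b ind (1 - x)` -/
noncomputable def M (_h : QD n p m w) (b : ZMod n) (k : ℕ) : ZMod n :=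
  ∑ x : ZMod p, (ind n w m x + b * ind n w m (1 - x)) ^ k

theorem Rp_J (h : QD n p m w) {b : ℕ} (hb : 1 ≤ b) :
    Rp n (PowerSeries.mk fun k => if k = 0 then -1 else
      M h b k * (((k.factorial : ℕ) : ZMod n))⁻¹) (J h b) := by
  classical
  have hb0 : b ≠ 0 := by omega
  have hn2 : 2 ≤ n := hn.out.two_le
  let ex : ZMod p → ℕ := fun x => (ind n w m x).val + (ind n w m (1 - x)).val * b
  let g : ZMod p → PowerSeries (ZMod n) := fun x => if x = 0 ∨ x = 1 then 0 else E n ^ ex x
  have hg : Rp n (∑ x : ZMod p, g x) (J h b) := by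
    unfold J jacobiSum
    refine Rp.sum univ g _ ?_
    intro x _
    by_cases h0 : x = 0
    · have e1 : g x = 0 := if_pos (Or.inl h0)
      rw [e1, h0, chi_zero, zero_mul]
      unfold Rp
      rw [map_zero, map_zero]
    by_cases h1 : x = 1
    · have e1 : g x = 0 := if_pos (Or.inr h1)
      rw [e1, h1, sub_self, MulChar.pow_apply' _ hb0, chi_zero, zero_pow hb0, mul_zero]
      unfold Rp
      rw [map_zero, map_zero]
    have h1' : 1 - x ≠ 0 := fun h2 => h1 (sub_eq_zero.1 h2).symm
    have e1 : g x = E n ^ ex x := if_neg (by tauto)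
    rw [e1, MulChar.pow_apply' _ hb0, chi_apply h h0, chi_apply h h1', ← pow_mul, ← pow_add]
    exact Rp.zpow _
  unfold Rp at hg ⊢
  rw [← hg, mk_eq]
  intro k hk
  have hcast : ∀ x : ZMod p, ((ex x : ℕ) : ZMod n) = ind n w m x + b * ind n w m (1 - x) := by
    intro x
    show (((ind n w m x).val + (ind n w m (1 - x)).val * b : ℕ) : ZMod n) = _
    push_cast
    rw [ZMod.natCast_zmod_val, ZMod.natCast_zmod_val]
    ring
  have hcoef : ∀ x : ZMod p, PowerSeries.coeff k (g x) = if x = 0 ∨ x = 1 then 0 else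
      (ind n w m x + b * ind n w m (1 - x)) ^ k * (((k.factorial : ℕ) : ZMod n))⁻¹ := by
    intro x
    by_cases h0 : x = 0 ∨ x = 1
    · have e1 : g x = 0 := if_pos h0
      rw [e1, if_pos h0, map_zero]
    · have e1 : g x = E n ^ ex x := if_neg h0
      rw [e1, if_neg h0, coeff_E_pow n _ k (by omega), hcast]
  rw [PowerSeries.coeff_mk, map_sum]
  simp_rw [hcoef]
  by_cases hk0 : k = 0
  · subst hk0
    rw [if_pos rfl]
    have hp : ((p : ℕ) : ZMod n) = 1 := by
      have h1 := h.hm
      have h2 := (Fact.out : p.Prime).one_lt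
      have h3 : p = n * m + 1 := by omega
      rw [h3]
      push_cast
      rw [ZMod.natCast_self, zero_mul, zero_add]
    have e2 : ∀ x : ZMod p, (if x = 0 ∨ x = 1 then (0 : ZMod n) else
        (ind n w m x + b * ind n w m (1 - x)) ^ 0 * (((Nat.factorial 0 : ℕ) : ZMod n))⁻¹) =
        1 - (if x = 0 then 1 else 0) - (if x = 1 then 1 else 0) := by
      intro x
      by_cases h0 : x = 0
      · subst h0
        have h01 : (0 : ZMod p) ≠ 1 := zero_ne_one
        simp
      · by_cases h1 : x = 1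
        · subst h1
          simp
        · simp [h0, h1]
    simp_rw [e2]
    rw [sum_sub_distrib, sum_sub_distrib, sum_const, card_univ, ZMod.card, nsmul_eq_mul, mul_one,
      hp]
    simp
  · rw [if_neg hk0, M, sum_mul]
    refine sum_congr rfl fun x _ => ?_
    by_cases h0 : x = 0
    · subst h0
      rw [if_pos (Or.inl rfl), h.ind_zero, sub_zero, h.ind_one, mul_zero, add_zero,
        zero_pow hk0, zero_mul]
    by_cases h1 : x = 1
    · subst h1
      rw [if_pos (Or.inr rfl), h.ind_one, sub_self, h.ind_zero, mul_zero, add_zero,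
        zero_pow hk0, zero_mul]
    rw [if_neg (by tauto)]

lemma ok_J (h : QD n p m w) {b : ℕ} (hb : 1 ≤ b) : ok n (J h b) := by
  rw [ok_Rp n (Rp_J h hb), ← PowerSeries.coeff_zero_eq_constantCoeff_apply, PowerSeries.coeff_mk,
    if_pos rfl]
  exact neg_ne_zero.2 one_ne_zero

lemma chi_pow_ne_one (h : QD n p m w) {k : ℕ} (hk : ¬ n ∣ k) : chi h ^ k ≠ 1 := by
  intro h1
  have hk0 : k ≠ 0 := by
    rintro rfl
    exact hk (dvd_zero n)
  obtain ⟨g, hg, hg1⟩ := h.exists_ind_eq 1
  have h2 : (chi h ^ k) g = (1 : MulChar (ZMod p) (O n)) g := by rw [h1]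
  rw [MulChar.pow_apply' _ hk0, chi_apply h hg, hg1,
    MulChar.one_apply (isUnit_iff_ne_zero.2 hg), ← pow_mul] at h2
  have h3 : z n ^ ((1 : ZMod n).val * k) = z n ^ 0 := by rw [h2, pow_zero]
  rw [z_pow_eq_iff] at h3
  apply hk
  rw [← ZMod.natCast_eq_zero_iff]
  push_cast at h3
  rwa [ZMod.natCast_zmod_val, one_mul] at h3

lemma chi_conj (h : QD n p m w) : (chi h).ringHomComp (sg n (-1)) = (chi h)⁻¹ := by
  rw [eq_comm, inv_eq_iff_mul_eq_one]
  refine MulChar.ext fun x => ?_
  rw [MulChar.mul_apply, MulChar.ringHomComp_apply, MulChar.one_apply_coe,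
    chi_apply h x.ne_zero, map_pow, sg_z, ← pow_mul, ← pow_add]
  rw [← pow_zero (z n)]
  apply z_pow_val
  push_cast
  rw [ZMod.natCast_zmod_val, ZMod.natCast_zmod_val]
  ring

theorem J_mul (h : QD n p m w) {b : ℕ} (hb : 1 ≤ b) (hb2 : b ≤ n - 2) :
    J h b * sg n (-1) (J h b) = p := by
  apply RingOfIntegers.coe_injective (K := K n)
  set i : O n →+* K n := algebraMap (O n) (K n)
  show i (J h b * sg n (-1) (J h b)) = i p
  have hinj : Function.Injective i := RingOfIntegers.coe_injective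
  have hn2 := hn.out.two_le
  have nd : ∀ k : ℕ, 1 ≤ k → k ≤ n - 1 → ¬ n ∣ k := by
    intro k hk1 hk2 hd
    have := Nat.le_of_dvd (by omega) hd
    omega
  have hchi : chi h ≠ 1 := by
    have := chi_pow_ne_one h (nd 1 le_rfl (by omega))
    rwa [pow_one] at this
  have hchib : chi h ^ b ≠ 1 := chi_pow_ne_one h (nd b hb (by omega))
  have hchi2 : chi h * chi h ^ b ≠ 1 := by
    rw [← pow_succ']
    exact chi_pow_ne_one h (nd (b + 1) (by omega) (by omega))
  have h1 : sg n (-1) (J h b) = jacobiSum (chi h)⁻¹ (chi h ^ b)⁻¹ := by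
    have e1 : (chi h ^ b)⁻¹ = (chi h ^ b).ringHomComp (sg n (-1)) := by
      rw [← MulChar.ringHomComp_pow, chi_conj, inv_pow]
    rw [e1, ← chi_conj, jacobiSum_ringHomComp]
    rfl
  rw [h1, map_mul, map_natCast]
  unfold J
  rw [← jacobiSum_ringHomComp, ← jacobiSum_ringHomComp, ← MulChar.ringHomComp_inv,
    ← MulChar.ringHomComp_inv]
  have hr : ringChar (K n) ≠ ringChar (ZMod p) := by
    rw [ringChar.eq_zero, ZMod.ringChar_zmod_n]
    exact (Fact.out : p.Prime).ne_zero.symm
  rw [jacobiSum_mul_jacobiSum_inv hr, ZMod.card]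
  · exact (MulChar.ringHomComp_ne_one_iff hinj).2 hchi
  · exact (MulChar.ringHomComp_ne_one_iff hinj).2 hchib
  · rw [← MulChar.ringHomComp_mul]
    exact (MulChar.ringHomComp_ne_one_iff hinj).2 hchi2

/-- `tk` of the Jacobi sum -/
theorem tk_J (h : QD n p m w) {b : ℕ} (hb : 1 ≤ b) (a : (ZMod n)ˣ) :
    tk h a (J h b) = ∑ x : ZMod p, x ^ (m * (a : ZMod n).val) *
      (1 - x) ^ (m * (a : ZMod n).val * b) := by
  have hb0 : b ≠ 0 := by omega
  have ha0 : (a : ZMod n).val ≠ 0 := by
    intro h0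
    exact unit_nd n a (h0 ▸ dvd_zero n)
  have hma : m * (a : ZMod n).val ≠ 0 := mul_ne_zero h.mpos.ne' ha0
  have key : ∀ x : ZMod p, tk h a (chi h x) = x ^ (m * (a : ZMod n).val) := by
    intro x
    by_cases h0 : x = 0
    · rw [h0, chi_zero, map_zero, zero_pow hma]
    · rw [chi_apply h h0, map_pow, tk_z, ← pow_mul, mul_comm, pow_mul, h.ind_spec h0, ← pow_mul]
  unfold J jacobiSum
  rw [map_sum]
  refine sum_congr rfl fun x _ => ?_
  rw [map_mul, MulChar.pow_apply' _ hb0, map_pow, key, key, ← pow_mul]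

end

end Pool.Agent.Helper38.REG
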