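import Pool.Agent.Helper38.REG.Jac

namespace Pool.Agent.Helper38.REG

open NumberField Finset

variable {n : ℕ} [hn : Fact n.Prime] {p : ℕ} [Fact p.Prime] {m : ℕ} {w : ZMod p}

theorem coeffs_of_L {x : O n} {g : PowerSeries (ZMod n)} (hg : Rp n g x) (hx : ok n x)
    (h : ∀ r, 1 ≤ r → r ≤ n - 2 → L n r x = 0) :
    ∀ k, 1 ≤ k → k ≤ n - 2 → PowerSeries.coeff k g = 0 := by
  intro k h1 h2
  have hg0 := (ok_Rp n hg).1 hx
  have hld : ∀ j, j < n - 2 → PowerSeries.coeff j (ld n g) = 0 := by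
    intro j hj
    have h3 := h (j + 1) (by omega) (by omega)
    rw [L_eq n (by omega) (by omega) hg hg0, Nat.add_sub_cancel] at h3
    rcases mul_eq_zero.1 h3 with h4 | h4
    · exact absurd h4 (fac_ne n (by omega))
    · exact h4
  have e : ld n g * g = PowerSeries.derivative (ZMod n) g := by
    unfold ld
    rw [mul_assoc, PowerSeries.inv_mul_cancel g hg0, mul_one]
  obtain ⟨j, rfl⟩ : ∃ j, k = j + 1 := ⟨k - 1, by omega⟩
  have h3 := congrArg (PowerSeries.coeff j) e
  rw [PowerSeries.coeff_derivative, PowerSeries.coeff_mul, sum_eq_zero (by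
    intro ij hij
    have := Finset.HasAntidiagonal.mem_antidiagonal.1 hij
    rw [hld ij.1 (by omega), zero_mul])] at h3
  rcases mul_eq_zero.1 h3.symm with h4 | h4
  · exact h4
  · exfalso
    have h5 := (ZMod.natCast_eq_zero_iff (j + 1) n).1 (by exact_mod_cast h4)
    have := Nat.le_of_dvd (by omega) h5
    omega

/-- power sums of the index -/
lemma sum_ind_pow (h : QD n p m w) {k : ℕ} (h1 : 1 ≤ k) (h2 : k ≤ n - 2) :
    ∑ x : ZMod p, ind n w m x ^ k = 0 := by
  classical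
  obtain ⟨g, hg, hg1⟩ := h.exists_ind_eq 1
  -- number of elements with index `c`
  have hcard : ∀ c : ZMod n, (univ.filter (fun x : ZMod p => x ≠ 0 ∧ ind n w m x = c)).card =
      (univ.filter (fun x : ZMod p => x ≠ 0 ∧ ind n w m x = 0)).card := by
    intro c
    obtain ⟨t, ht, htc⟩ := h.exists_ind_eq c
    refine (card_bij (fun x _ => t * x) ?_ ?_ ?_).symm
    · intro x hx
      rw [mem_filter] at hx ⊢
      refine ⟨mem_univ _, mul_ne_zero ht hx.2.1, ?_⟩
      rw [h.ind_mul ht hx.2.1, htc, hx.2.2, add_zero]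
    · intro x _ y _ hxy
      exact mul_left_cancel₀ ht hxy
    · intro y hy
      rw [mem_filter] at hy
      refine ⟨t⁻¹ * y, ?_, ?_⟩
      · rw [mem_filter]
        refine ⟨mem_univ _, mul_ne_zero (inv_ne_zero ht) hy.2.1, ?_⟩
        rw [h.ind_mul (inv_ne_zero ht) hy.2.1, h.ind_inv, htc, hy.2.2]
        ring
      · show t * (t⁻¹ * y) = y
        rw [← mul_assoc, mul_inv_cancel₀ ht, one_mul]
  have h0 : ∑ x : ZMod p, ind n w m x ^ k =
      ∑ x ∈ univ.filter (fun x : ZMod p => x ≠ 0), ind n w m x ^ k := by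
    refine (sum_subset (filter_subset _ _) ?_).symm
    intro x _ hx
    have : x = 0 := by simpa using hx
    rw [this, h.ind_zero, zero_pow (by omega)]
  have h3 : ∑ x ∈ univ.filter (fun x : ZMod p => x ≠ 0), ind n w m x ^ k =
      ∑ c : ZMod n, ∑ x ∈ univ.filter (fun x : ZMod p => x ≠ 0 ∧ ind n w m x = c),
        ind n w m x ^ k := by
    rw [← sum_fiberwise (univ.filter (fun x : ZMod p => x ≠ 0)) (fun x => ind n w m x)]
    refine sum_congr rfl fun c _ => ?_
    rw [filter_filter]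
  have h4 : ∀ c : ZMod n, ∑ x ∈ univ.filter (fun x : ZMod p => x ≠ 0 ∧ ind n w m x = c),
      ind n w m x ^ k =
        ((univ.filter (fun x : ZMod p => x ≠ 0 ∧ ind n w m x = 0)).card : ZMod n) * c ^ k := by
    intro c
    rw [← hcard c, ← nsmul_eq_mul, ← sum_const]
    refine sum_congr rfl fun x hx => ?_
    rw [mem_filter] at hx
    rw [hx.2.2]
  rw [h0, h3]
  simp_rw [h4]
  rw [← mul_sum, FiniteField.sum_pow_lt_card_sub_one (K := ZMod n) k (by rw [ZMod.card]; omega),
    mul_zero]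

/-- the case `b = -1` -/
lemma M_neg_one (h : QD n p m w) {k : ℕ} (h1 : 1 ≤ k) (h2 : k ≤ n - 2) : M h (-1) k = 0 := by
  classical
  unfold M
  have hs := sum_ind_pow h h1 h2
  rw [← sum_erase_add univ _ (mem_univ (-1 : ZMod p)), h.ind_neg_one, zero_pow (by omega),
    add_zero] at hs
  rw [← sum_erase_add univ _ (mem_univ (1 : ZMod p)), sub_self, h.ind_one, h.ind_zero]
  rw [mul_zero, add_zero, zero_pow (by omega), add_zero, ← hs]
  refine sum_bij (fun x _ => x / (1 - x)) ?_ ?_ ?_ ?_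
  · intro x hx
    rw [mem_erase] at hx ⊢
    refine ⟨?_, mem_univ _⟩
    have hx1 : 1 - x ≠ 0 := sub_ne_zero.2 (Ne.symm hx.1)
    intro h0
    rw [div_eq_iff hx1] at h0
    have : (1 : ZMod p) = 0 := by linear_combination h0
    exact one_ne_zero this
  · intro x hx y hy hxy
    rw [mem_erase] at hx hy
    have hx1 : 1 - x ≠ 0 := sub_ne_zero.2 (Ne.symm hx.1)
    have hy1 : 1 - y ≠ 0 := sub_ne_zero.2 (Ne.symm hy.1)
    have := (div_eq_div_iff hx1 hy1).1 hxy
    linear_combination this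
  · intro y hy
    rw [mem_erase] at hy
    have hy1 : 1 + y ≠ 0 := by
      intro h0
      exact hy.1 (eq_neg_of_add_eq_zero_right h0)
    refine ⟨y / (1 + y), ?_, ?_⟩
    · rw [mem_erase]
      refine ⟨?_, mem_univ _⟩
      intro h0
      rw [div_eq_iff hy1] at h0
      have : (1 : ZMod p) = 0 := by linear_combination -h0
      exact one_ne_zero this
    · have e : 1 - y / (1 + y) = 1 / (1 + y) := by
        field_simp
        ring
      show y / (1 + y) / (1 - y / (1 + y)) = y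
      rw [e]
      field_simp
  · intro x hx
    rw [mem_erase] at hx
    have hx1 : 1 - x ≠ 0 := sub_ne_zero.2 (Ne.symm hx.1)
    by_cases hx0 : x = 0
    · rw [hx0, zero_div, sub_zero, h.ind_one, mul_zero, add_zero]
    · rw [div_eq_mul_inv, h.ind_mul hx0 (inv_ne_zero hx1), h.ind_inv]
      congr 1
      ring

lemma M_zero' (h : QD n p m w) {k : ℕ} (h1 : 1 ≤ k) (h2 : k ≤ n - 2) : M h 0 k = 0 := by
  unfold M
  simp_rw [zero_mul, add_zero]
  exact sum_ind_pow h h1 h2

private lemma ld_self {g : PowerSeries (ZMod n)} (hg : PowerSeries.constantCoeff g ≠ 0) :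
    ld n g * g = PowerSeries.derivative (ZMod n) g := by
  unfold ld
  rw [mul_assoc, PowerSeries.inv_mul_cancel g hg, mul_one]

theorem L_J_one (h5 : 5 ≤ n) (h : QD n p m w) {b : ℕ} (hb : 1 ≤ b) : L n 1 (J h b) = 0 := by
  have hg := Rp_J h hb
  have hg0 := (ok_Rp n hg).1 (ok_J h hb)
  rw [L_eq n le_rfl (by omega) hg hg0]
  have h3 := congrArg (PowerSeries.coeff 0) (ld_self hg0)
  have hM : M h (b : ZMod n) 1 = 0 := by
    unfold M
    simp_rw [pow_one]
    rw [sum_add_distrib, ← mul_sum]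
    have e1 := sum_ind_pow h (k := 1) le_rfl (by omega)
    simp_rw [pow_one] at e1
    have e2 : ∑ x : ZMod p, ind n w m (1 - x) = ∑ x : ZMod p, ind n w m x :=
      Fintype.sum_equiv (Equiv.subLeft 1) _ _ (fun x => rfl)
    rw [e2, e1, mul_zero, add_zero]
  rw [PowerSeries.coeff_derivative, PowerSeries.coeff_mk, if_neg (by norm_num), zero_add, hM,
    zero_mul, zero_mul, PowerSeries.coeff_zero_eq_constantCoeff_apply, map_mul] at h3
  rcases mul_eq_zero.1 h3 with h4 | h4
  · rw [Nat.sub_self, PowerSeries.coeff_zero_eq_constantCoeff_apply, h4, mul_zero]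
  · exact absurd h4 hg0

theorem L_J_even (h5 : 5 ≤ n) (h : QD n p m w) {b : ℕ} (hb : 1 ≤ b) (hb2 : b ≤ n - 2) {r : ℕ}
    (hr : Even r) (h2 : 2 ≤ r) (h3 : r ≤ n - 2) : L n r (J h b) = 0 := by
  have hp : p.Prime := Fact.out
  have hok := ok_J h hb
  have h4 := congrArg (L n r) (J_mul h hb hb2)
  rw [L_mul n (by omega) h3 hok ((ok_sg n _).2 hok), L_sg n (by omega) h3 _ hok] at h4
  have hnp : ¬ (n : ℤ) ∣ (p : ℤ) := by
    intro h0
    have h1 : n ∣ p := by exact_mod_cast h0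
    exact pk_ne h ((Nat.prime_dvd_prime_iff_eq hn.out hp).1 h1).symm
  have h6 := L_int n (r := r) (by omega) h3 hnp
  rw [Int.cast_natCast] at h6
  rw [h6, Units.val_neg, Units.val_one, hr.neg_one_pow, one_mul] at h4
  have h7 : (2 : ZMod n) ≠ 0 := by
    have := fac_ne n (k := 2) (by omega)
    simpa using this
  have h8 : 2 * L n r (J h b) = 0 := by linear_combination h4
  rcases mul_eq_zero.1 h8 with h9 | h9
  · exact absurd h9 h7
  · exact h9

open Classical in
theorem L_J_odd (h5 : 5 ≤ n) (h1 : Reg1 n) (h : QD n p m w) {b : ℕ} (hb : 1 ≤ b)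
    (hb2 : b ≤ n - 2) {r : ℕ} (hr : Odd r) (h3 : 3 ≤ r) (h2 : r ≤ n - 2) :
    L n r (J h b) = ∑ P ∈ (PP n p).filter (fun P => J h b ∈ P), L n r (pi n P) := by
  have hp : p.Prime := Fact.out
  have hok := ok_J h hb
  obtain ⟨ε, hε, he⟩ := dvd_p n hp (pk_ne h) (J_mul h hb hb2)
  have hpi : ∀ P ∈ (PP n p).filter (fun P => J h b ∈ P), ok n (pi n P) := by
    intro P hP
    exact ok_pi n h1 hp (pk_ne h) (mem_filter.1 hP).1
  have h4 := congrArg (L n r) he
  rw [L_pow n (by omega) h2 hok, HH_cast n h1, one_mul,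
    L_mul n (by omega) h2 (ok_unit n hε) (ok_prod n _ _ hpi), unit_odd n hr h3 h2 hε, zero_add,
    L_prod n (by omega) h2 _ _ hpi] at h4
  exact h4

theorem M_zero (h5 : 5 ≤ n) (h1 : Reg1 n) (h : QD n p m w)
    (h0 : ∀ r, Odd r → 3 ≤ r → r ≤ n - 2 → L n r (pi n (pk h 1)) = 0) :
    ∀ (b : ZMod n) (k : ℕ), 1 ≤ k → k ≤ n - 2 → M h b k = 0 := by
  classical
  intro b k hk1 hk2
  by_cases hb0 : b = 0
  · rw [hb0]; exact M_zero' h hk1 hk2
  by_cases hb1 : b = -1
  · rw [hb1]; exact M_neg_one h hk1 hk2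
  have hv : ((b.val : ℕ) : ZMod n) = b := ZMod.natCast_zmod_val b
  have hlt := ZMod.val_lt b
  have hv1 : 1 ≤ b.val := by
    rcases Nat.eq_zero_or_pos b.val with h2 | h2
    · exact absurd ((ZMod.val_eq_zero b).1 h2) hb0
    · exact h2
  have hv2 : b.val ≤ n - 2 := by
    by_contra h2
    apply hb1
    have h3 : b.val = n - 1 := by omega
    rw [← hv, h3, Nat.cast_sub (by omega), ZMod.natCast_self]
    simp
  have hL : ∀ r, 1 ≤ r → r ≤ n - 2 → L n r (J h b.val) = 0 := by
    intro r hr1 hr2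
    rcases Nat.even_or_odd r with hr | hr
    · obtain ⟨s, hs⟩ := hr
      exact L_J_even h5 h hv1 hv2 ⟨s, hs⟩ (by omega) hr2
    · by_cases hr3 : r = 1
      · rw [hr3]; exact L_J_one h5 h hv1
      · have hr4 : 3 ≤ r := by
          obtain ⟨s, hs⟩ := hr
          omega
        rw [L_J_odd h5 h1 h hv1 hv2 hr hr4 hr2]
        refine sum_eq_zero fun P hP => ?_
        obtain ⟨a, rfl⟩ := (mem_PP_iff h).1 (mem_filter.1 hP).1
        rw [L_pi_pk h1 h a hr hr4 hr2, h0 r hr hr4 hr2, mul_zero]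
  have h6 := coeffs_of_L (Rp_J h hv1) (ok_J h hv1) hL k hk1 hk2
  rw [PowerSeries.coeff_mk, if_neg (by omega), hv] at h6
  rcases mul_eq_zero.1 h6 with h7 | h7
  · exact h7
  · exact absurd h7 (inv_ne_zero (fac_ne n (by omega)))

end Pool.Agent.Helper38.REG
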