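import Pool.Agent.Helper38.REG.JacA

/-! Project REG, module JC: the invariants of `J = J(χ, χ)`.
BLUEPRINT. mem_J: `tk_J` with `b = 1`: `tk h a J = ∑_x x^N (1 - x)^N`, `N = m * a.val`, and this is
`0` if `2 N < p - 1`, i.e. `2 a.val < n` (`sum_zero` in Pool/Agent/Helper38/F5/P1.lean). If
`2 a.val > n`, then `J ∈ pk h (-a)`, i.e. `σ J ∈ pk h a` (`tk_sg`); if also `J ∈ pk h a`, then
`p = J * σ J ∈ (pk h a)^2` against `not_sq`.
L_J_hh: `L_J_odd`, `mem_PP_iff`, `pk_inj`, `mem_J`, `L_pi_pk`: the sum over `P ∋ J` is the sum over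
the units `a` with `2 a.val < n` of `a^(-r) * L r (π_1)`.
L3_J, L5_J: let `g` be the series of `Rp_J` (constant term `-1`). `L_J_one` and `L_J_even` for
`r = 2` give `coeff 1 g = coeff 2 g = 0` (so `M 1 = M 2 = 0`), then
`coeff 2 (ld g) = - coeff 2 g' = - 3 coeff 3 g`, so `L 3 = - 6 * coeff 3 g = - M 3`; for `n ≥ 7`
`coeff 4 (ld g) = - coeff 4 g' = - 5 coeff 5 g` because `coeff 1 g = coeff 2 g = 0`, so
`L 5 = - 120 * coeff 5 g = - M 5`. Use `g' = ld g * g` and `PowerSeries.coeff_mul`. -/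

namespace Pool.Agent.Helper38.REG

open NumberField Finset

variable {n : ℕ} [hn : Fact n.Prime] {p : ℕ} [Fact p.Prime] {m : ℕ} {w : ZMod p}

/-- `∑_{1 ≤ c < n / 2} c^(-r)` modulo `n` -/
def hh (n r : ℕ) : ZMod n := ∑ c ∈ Icc 1 ((n - 1) / 2), ((c : ZMod n)⁻¹) ^ r

private lemma binom_sum' (N : ℕ) : ∑ x : ZMod p, x ^ N * (1 - x) ^ N =
    ∑ j ∈ range (N + 1), (-1 : ZMod p) ^ j * (N.choose j : ZMod p) *
      ∑ x : ZMod p, x ^ (N + j) := by
  have h1 : ∀ x : ZMod p, x ^ N * (1 - x) ^ N =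
      ∑ j ∈ range (N + 1), (-1 : ZMod p) ^ j * (N.choose j : ZMod p) * x ^ (N + j) := by
    intro x
    have e : (1 - x) = (-x + 1) := by ring
    rw [e, add_pow, mul_sum]
    refine sum_congr rfl fun j _ => ?_
    rw [one_pow, neg_pow x j, pow_add]
    ring
  simp_rw [h1]
  rw [sum_comm]
  refine sum_congr rfl fun j _ => ?_
  rw [mul_sum]

private lemma sum_zero' {N : ℕ} (hN : 2 * N < p - 1) :
    ∑ x : ZMod p, x ^ N * (1 - x) ^ N = 0 := by
  rw [binom_sum']
  refine sum_eq_zero fun j hj => ?_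
  rw [mem_range] at hj
  rw [FiniteField.sum_pow_lt_card_sub_one (K := ZMod p) (N + j) (by rw [ZMod.card]; omega),
    mul_zero]

private lemma mem_J_of (h : QD n p m w) (a : (ZMod n)ˣ) (ha : 2 * (a : ZMod n).val < n) :
    J h 1 ∈ pk h a := by
  rw [mem_pk, tk_J h le_rfl, mul_one]
  apply sum_zero'
  rw [h.hm]
  have h1 := h.mpos
  calc 2 * (m * (a : ZMod n).val) = m * (2 * (a : ZMod n).val) := by ring
    _ < m * n := Nat.mul_lt_mul_of_pos_left ha h1
    _ = n * m := mul_comm _ _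

theorem mem_J (h5 : 5 ≤ n) (h : QD n p m w) (a : (ZMod n)ˣ) :
    J h 1 ∈ pk h a ↔ 2 * (a : ZMod n).val < n := by
  refine ⟨fun hJ => ?_, mem_J_of h a⟩
  by_contra hlt
  have hodd : n % 2 = 1 := Nat.odd_iff.1 (hn.out.odd_of_ne_two (by omega))
  have ha0 : (a : ZMod n) ≠ 0 := a.ne_zero
  have hv : ((-a : (ZMod n)ˣ) : ZMod n).val = n - (a : ZMod n).val := by
    rw [Units.val_neg, ZMod.neg_val, if_neg ha0]
  have hlt' : (a : ZMod n).val < n := ZMod.val_lt _
  have h1 : J h 1 ∈ pk h (-a) := mem_J_of h (-a) (by rw [hv]; omega)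
  have h2 : sg n (-1) (J h 1) ∈ pk h a := by
    rw [mem_pk, tk_sg, mul_neg, mul_one]
    exact (mem_pk h (-a) _).1 h1
  have h3 : (p : O n) ∈ (pk h a) ^ 2 := by
    rw [← J_mul h (b := 1) le_rfl (by omega), pow_two]
    exact Ideal.mul_mem_mul hJ h2
  exact not_sq n Fact.out (pk_ne h) ((mem_PP_iff h).2 ⟨a, rfl⟩) h3

theorem L_J_hh (h5 : 5 ≤ n) (h1 : Reg1 n) (h : QD n p m w) {r : ℕ} (hr : Odd r) (h3 : 3 ≤ r)
    (h2 : r ≤ n - 2) : L n r (J h 1) = hh n r * L n r (pi n (pk h 1)) := by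
  classical
  have hodd : n % 2 = 1 := Nat.odd_iff.1 (hn.out.odd_of_ne_two (by omega))
  have key : L n r (J h 1) = ∑ P ∈ (PP n p).filter (fun P => J h 1 ∈ P), L n r (pi n P) := by
    convert L_J_odd h5 h1 h (b := 1) le_rfl (by omega) hr h3 h2
  rw [key, hh, sum_mul]
  symm
  have hne : ∀ c ∈ Icc 1 ((n - 1) / 2), (c : ZMod n) ≠ 0 := by
    intro c hc h0
    rw [mem_Icc] at hc
    have := Nat.le_of_dvd (by omega) ((ZMod.natCast_eq_zero_iff c n).1 h0)
    omega
  have hval : ∀ c ∈ Icc 1 ((n - 1) / 2), (c : ZMod n).val = c := by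
    intro c hc
    rw [mem_Icc] at hc
    exact ZMod.val_cast_of_lt (by omega)
  refine Finset.sum_bij (fun c hc => pk h (Units.mk0 (c : ZMod n) (hne c hc))) ?_ ?_ ?_ ?_
  · intro c hc
    rw [mem_filter]
    refine ⟨(mem_PP_iff h).2 ⟨_, rfl⟩, ?_⟩
    rw [mem_J h5, Units.val_mk0, hval c hc]
    rw [mem_Icc] at hc
    omega
  · intro c hc c' hc' e
    have e1 := (pk_inj h).1 e
    have e2 : (c : ZMod n) = c' := by
      have := congrArg (fun u : (ZMod n)ˣ => (u : ZMod n)) e1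
      simpa only [Units.val_mk0] using this
    rw [← hval c hc, ← hval c' hc', e2]
  · intro P hP
    rw [mem_filter] at hP
    obtain ⟨a, rfl⟩ := (mem_PP_iff h).1 hP.1
    have h4 := (mem_J h5 h a).1 hP.2
    have h0 : (a : ZMod n).val ≠ 0 := by
      rw [Ne, ZMod.val_eq_zero]
      exact a.ne_zero
    refine ⟨(a : ZMod n).val, mem_Icc.2 ⟨by omega, by omega⟩, ?_⟩
    congr 1
    apply Units.ext
    rw [Units.val_mk0, ZMod.natCast_zmod_val]
  · intro c hc
    rw [L_pi_pk h1 h (Units.mk0 (c : ZMod n) (hne c hc)) hr h3 h2, Units.val_inv_eq_inv_val,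
      Units.val_mk0]

private lemma J_coeffs (h5 : 5 ≤ n) (h : QD n p m w) :
    ∃ g : PowerSeries (ZMod n), Rp n g (J h 1) ∧ PowerSeries.constantCoeff g ≠ 0 ∧
      PowerSeries.derivative (ZMod n) g = ld n g * g ∧ PowerSeries.coeff 0 g = -1 ∧
      PowerSeries.coeff 1 g = 0 ∧ PowerSeries.coeff 2 g = 0 ∧
      PowerSeries.coeff 0 (ld n g) = 0 ∧ PowerSeries.coeff 1 (ld n g) = 0 ∧
      ∀ k, k ≠ 0 → PowerSeries.coeff k g = M h 1 k * (((k.factorial : ℕ) : ZMod n))⁻¹ := by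
  have hg : Rp n (PowerSeries.mk fun k => if k = 0 then -1 else
      M h ((1 : ℕ) : ZMod n) k * (((k.factorial : ℕ) : ZMod n))⁻¹) (J h 1) := Rp_J h le_rfl
  rw [Nat.cast_one] at hg
  set g : PowerSeries (ZMod n) := PowerSeries.mk fun k => if k = 0 then -1 else
      M h 1 k * (((k.factorial : ℕ) : ZMod n))⁻¹ with hgdef
  have c0 : PowerSeries.coeff 0 g = -1 := by
    rw [hgdef, PowerSeries.coeff_mk, if_pos rfl]
  have hc : PowerSeries.constantCoeff g ≠ 0 := by
    rw [← PowerSeries.coeff_zero_eq_constantCoeff_apply, c0]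
    exact neg_ne_zero.2 one_ne_zero
  have hd : PowerSeries.derivative (ZMod n) g = ld n g * g := by
    unfold ld
    rw [mul_assoc, PowerSeries.inv_mul_cancel g hc, mul_one]
  have l0 : PowerSeries.coeff 0 (ld n g) = 0 := by
    have e := L_J_one h5 h (b := 1) le_rfl
    rw [L_eq n le_rfl (by omega) hg hc] at e
    simpa using e
  have l1 : PowerSeries.coeff 1 (ld n g) = 0 := by
    have e := L_J_even h5 h (b := 1) le_rfl (by omega) (r := 2) even_two le_rfl (by omega)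
    rw [L_eq n (by omega) (by omega) hg hc] at e
    simpa using e
  have c1 : PowerSeries.coeff 1 g = 0 := by
    have e := congrArg (PowerSeries.coeff 0) hd
    rw [PowerSeries.coeff_derivative, PowerSeries.coeff_mul, Finset.Nat.antidiagonal_zero,
      sum_singleton, l0, zero_mul] at e
    simpa using e
  have c2 : PowerSeries.coeff 2 g = 0 := by
    have e := congrArg (PowerSeries.coeff 1) hd
    rw [PowerSeries.coeff_derivative, PowerSeries.coeff_mul,
      Finset.Nat.sum_antidiagonal_eq_sum_range_succ_mk, sum_range_succ, sum_range_one] at e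
    simp only [l0, l1, zero_mul, add_zero] at e
    rcases mul_eq_zero.1 e with e1 | e1
    · exact e1
    · exfalso
      have h2 : ((2 : ℕ) : ZMod n) ≠ 0 := by
        intro h0
        have := Nat.le_of_dvd (by omega) ((ZMod.natCast_eq_zero_iff 2 n).1 h0)
        omega
      apply h2
      push_cast at e1 ⊢
      linear_combination e1
  refine ⟨g, hg, hc, hd, c0, c1, c2, l0, l1, fun k hk => ?_⟩
  rw [hgdef, PowerSeries.coeff_mk, if_neg hk]

theorem L3_J (h5 : 5 ≤ n) (h : QD n p m w) : L n 3 (J h 1) = - M h 1 3 := by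
  obtain ⟨g, hg, hc, hd, c0, c1, c2, l0, l1, hk⟩ := J_coeffs h5 h
  rw [L_eq n (by omega) (by omega) hg hc]
  have e := congrArg (PowerSeries.coeff 2) hd
  rw [PowerSeries.coeff_derivative, PowerSeries.coeff_mul,
    Finset.Nat.sum_antidiagonal_eq_sum_range_succ_mk, sum_range_succ, sum_range_succ,
    sum_range_one, hk 3 (by omega)] at e
  simp only [l0, l1, c0, zero_mul, zero_add, Nat.sub_self] at e
  have h6 := fac_ne n (k := 3) (by omega)
  have f3 : Nat.factorial 3 = 6 := rfl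
  rw [f3] at h6 e
  have i6 := mul_inv_cancel₀ h6
  show ((Nat.factorial 2 : ℕ) : ZMod n) * PowerSeries.coeff 2 (ld n g) = - M h 1 3
  have f2 : Nat.factorial 2 = 2 := rfl
  rw [f2]
  push_cast at e i6 ⊢
  linear_combination 2 * e - M h 1 3 * i6

theorem L5_J (h7 : 7 ≤ n) (h : QD n p m w) : L n 5 (J h 1) = - M h 1 5 := by
  obtain ⟨g, hg, hc, hd, c0, c1, c2, l0, l1, hk⟩ := J_coeffs (by omega) h
  rw [L_eq n (by omega) (by omega) hg hc]
  have e := congrArg (PowerSeries.coeff 4) hd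
  rw [PowerSeries.coeff_derivative, PowerSeries.coeff_mul,
    Finset.Nat.sum_antidiagonal_eq_sum_range_succ_mk, sum_range_succ, sum_range_succ,
    sum_range_succ, sum_range_succ, sum_range_one, hk 5 (by omega)] at e
  simp only [l0, l1, c0, c1, c2, zero_mul, mul_zero, zero_add, Nat.sub_self,
    show 4 - 2 = 2 from rfl, show 4 - 3 = 1 from rfl] at e
  have h6 := fac_ne n (k := 5) (by omega)
  have f5 : Nat.factorial 5 = 120 := rfl
  rw [f5] at h6 e
  have i6 := mul_inv_cancel₀ h6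
  show ((Nat.factorial 4 : ℕ) : ZMod n) * PowerSeries.coeff 4 (ld n g) = - M h 1 5
  have f4 : Nat.factorial 4 = 24 := rfl
  rw [f4]
  push_cast at e i6 ⊢
  linear_combination 24 * e - M h 1 5 * i6

end Pool.Agent.Helper38.REG
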