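import Pool.Agent.Helper38.REG.JacA
import Pool.Agent.Helper38.REG.Aff

/-! Project REG, module JD: existence of a nonzero odd invariant.
BLUEPRINT. pow_sums: for fixed `k` with `1 ≤ k ≤ n - 2`, `b ↦ M h b k = ∑_j C(k, j) b^j S_j`,
`S_j = ∑_x (ind x)^(k-j) (ind (1-x))^j`, is a polynomial of degree `≤ k < n` in `b` with `n` zeros, so
its coefficients vanish; the coefficient of `b` gives `k * ∑_x (ind x)^(k-1) ind (1-x) = 0`.
So `∑_x (ind x)^k ind (1-x) = 0` for `1 ≤ k ≤ n - 3`; sort by the value `c` of `ind x`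
(`c = 0` contributes nothing) and use `QD.sum_fibre`.
exists_odd: otherwise by `M_zero`, `pow_sums`, `aff`: `ind (1 - w^c) = α + β c` for `c ≠ 0`, so
`ind ((1 - v) (1 - v⁻¹)) = 2 α` for every primitive `n`-th root of unity `v = w^c`
(`v⁻¹ = w^(n-c)`), contradiction with `B1` by `QD.ind_eq_iff`. -/

namespace Pool.Agent.Helper38.REG

open NumberField Finset

variable {n : ℕ} [hn : Fact n.Prime] {p : ℕ} [Fact p.Prime] {m : ℕ} {w : ZMod p}

/-- the first condition on `p` -/
def B1 (n p m : ℕ) [Fact p.Prime] : Prop := ∃ v w : ZMod p, IsPrimitiveRoot v n ∧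
  IsPrimitiveRoot w n ∧ ((1 - v) * (1 - v⁻¹)) ^ m ≠ ((1 - w) * (1 - w⁻¹)) ^ m

/-- the coefficient of `b` in the power sums -/
theorem mixed_sum (h : QD n p m w)
    (hM : ∀ (b : ZMod n) (k : ℕ), 1 ≤ k → k ≤ n - 2 → M h b k = 0) :
    ∀ k, 1 ≤ k → k ≤ n - 3 →
      ∑ x : ZMod p, ind n w m x ^ k * ind n w m (1 - x) = 0 := by
  intro k hk1 hk2
  have hcard : Fintype.card (ZMod n) = n := ZMod.card n
  have hP : ∀ b : ZMod n, Polynomial.eval b (∑ j ∈ range (k + 2),
      Polynomial.C (∑ x : ZMod p, ind n w m (1 - x) ^ j * ind n w m x ^ (k + 1 - j) *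
        (((k + 1).choose j : ℕ) : ZMod n)) * Polynomial.X ^ j) = 0 := by
    intro b
    have h1 := hM b (k + 1) (by omega) (by omega)
    unfold M at h1
    rw [← h1, Polynomial.eval_finsetSum]
    simp only [Polynomial.eval_mul, Polynomial.eval_C, Polynomial.eval_pow, Polynomial.eval_X]
    simp_rw [sum_mul]
    rw [sum_comm]
    refine sum_congr rfl fun x _ => ?_
    rw [add_comm (ind n w m x), add_pow]
    refine sum_congr rfl fun j _ => ?_
    rw [mul_pow]
    ring
  have hz := Polynomial.eq_zero_of_natDegree_lt_card_of_eval_eq_zero' _ univ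
    (fun b _ => hP b) (by
      rw [card_univ, hcard]
      refine lt_of_le_of_lt (Polynomial.natDegree_sum_le_of_forall_le _ _ (n := k + 1)
        fun j hj => ?_) (by omega)
      refine le_trans (Polynomial.natDegree_C_mul_X_pow_le _ _) ?_
      rw [mem_range] at hj
      omega)
  have hc := congrArg (fun q => Polynomial.coeff q 1) hz
  simp only [Polynomial.finsetSum_coeff, Polynomial.coeff_C_mul_X_pow, Polynomial.coeff_zero] at hc
  rw [sum_ite_eq, if_pos (mem_range.2 (by omega))] at hc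
  rw [← sum_mul] at hc
  have hk : (((k + 1).choose 1 : ℕ) : ZMod n) ≠ 0 := by
    rw [Nat.choose_one_right]
    intro h0
    have h2 := (ZMod.natCast_eq_zero_iff _ _).1 h0
    have h3 := Nat.le_of_dvd (by omega) h2
    omega
  rcases mul_eq_zero.1 hc with h1 | h1
  · rw [← h1]
    refine sum_congr rfl fun x _ => ?_
    rw [pow_one, Nat.add_sub_cancel, mul_comm]
  · exact absurd h1 hk

theorem pow_sums (h5 : 5 ≤ n) (h : QD n p m w)
    (hM : ∀ (b : ZMod n) (k : ℕ), 1 ≤ k → k ≤ n - 2 → M h b k = 0) :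
    ∀ k, 1 ≤ k → k ≤ n - 3 →
      ∑ c ∈ univ.erase (0 : ZMod n), c ^ k * ind n w m (1 - w ^ c.val) = 0 := by
  intro k hk1 hk2
  have h0 := mixed_sum h hM k hk1 hk2
  rw [← sum_fiberwise_of_maps_to (s := (univ : Finset (ZMod p))) (t := (univ : Finset (ZMod n)))
    (g := fun x => ind n w m x) (fun x _ => mem_univ _),
    ← add_sum_erase univ _ (mem_univ (0 : ZMod n))] at h0
  have h1 : ∑ x ∈ univ.filter (fun x : ZMod p => ind n w m x = 0),
      ind n w m x ^ k * ind n w m (1 - x) = 0 := by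
    refine sum_eq_zero fun x hx => ?_
    rw [mem_filter] at hx
    rw [hx.2, zero_pow (by omega), zero_mul]
  rw [h1, zero_add] at h0
  refine Eq.trans ?_ h0
  refine sum_congr rfl fun c hc => ?_
  rw [← h.sum_fibre (ne_of_mem_erase hc), mul_sum]
  refine sum_congr rfl fun x hx => ?_
  rw [mem_filter] at hx
  rw [hx.2]

theorem exists_odd (h5 : 5 ≤ n) (h1 : Reg1 n) (h : QD n p m w) (hB : B1 n p m) :
    ∃ r, Odd r ∧ 3 ≤ r ∧ r ≤ n - 2 ∧ L n r (pi n (pk h 1)) ≠ 0 := by
  by_contra hcon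
  push Not at hcon
  have hM := M_zero h5 h1 h hcon
  obtain ⟨α, β, hab⟩ := aff h5 (fun c => ind n w m (1 - w ^ c.val)) (pow_sums h5 h hM)
  have key : ∀ v : ZMod p, IsPrimitiveRoot v n → (1 - v) * (1 - v⁻¹) ≠ 0 ∧
      ind n w m ((1 - v) * (1 - v⁻¹)) = 2 * α := by
    intro v hv
    have : NeZero n := ⟨hn.out.ne_zero⟩
    obtain ⟨i, hi, rfl⟩ := h.hw.eq_pow_of_pow_eq_one hv.pow_eq_one
    have hi0 : (i : ZMod n) ≠ 0 := by
      intro h0
      have h2 := (ZMod.natCast_eq_zero_iff _ _).1 h0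
      have h3 : i = 0 := Nat.eq_zero_of_dvd_of_lt h2 hi
      rw [h3, pow_zero] at hv
      have h4 := hv.dvd_of_pow_eq_one 1 (one_pow 1)
      have h6 := Nat.le_of_dvd one_pos h4
      omega
    have e1 : (i : ZMod n).val = i := ZMod.val_cast_of_lt hi
    have e2 : (w ^ i)⁻¹ = w ^ (-(i : ZMod n)).val := by
      apply inv_eq_of_mul_eq_one_right
      rw [← pow_add, ← pow_zero w, h.pow_eq_iff]
      push_cast
      rw [ZMod.natCast_zmod_val]
      ring
    have a1 := hab (i : ZMod n) hi0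
    have a2 := hab (-(i : ZMod n)) (neg_ne_zero.2 hi0)
    beta_reduce at a1 a2
    rw [e1] at a1
    rw [← e2] at a2
    have n1 : 1 - w ^ i ≠ 0 := by
      refine h.one_sub_ne fun hd => hi0 ?_
      exact (ZMod.natCast_eq_zero_iff _ _).2 hd
    have n2 : 1 - (w ^ i)⁻¹ ≠ 0 := by
      rw [e2]
      refine h.one_sub_ne fun hd => hi0 ?_
      have h2 := (ZMod.natCast_eq_zero_iff _ _).2 hd
      rw [ZMod.natCast_zmod_val] at h2
      exact neg_eq_zero.1 h2
    refine ⟨mul_ne_zero n1 n2, ?_⟩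
    rw [h.ind_mul n1 n2, a1, a2]
    ring
  obtain ⟨v, v', hv, hv', hne⟩ := hB
  obtain ⟨k1, k2⟩ := key v hv
  obtain ⟨k3, k4⟩ := key v' hv'
  exact hne ((h.ind_eq_iff k1 k3).1 (k2.trans k4.symm))

end Pool.Agent.Helper38.REG
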