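import Pool.Agent.Helper38.REG.Units
import Pool.Agent.Helper38.REG.Base2

/-! Project REG, module K: Kummer's lemma.
BLUEPRINT. Let `N = (n-1)/2`. (1) rank of the unit group `= (n-3)/2`
(`IsCyclotomicExtension.Rat.nrRealPlaces_eq_zero`, `nrComplexPlaces_eq_totient_div_two`, see
`rank_one` in Pool/Agent/Helper38/F5/Units.lean). Every unit is `± z^j * ∏ fundSystem_i ^ e_i`
(`tors_form` and `exist_unique_eq_mul_prod` there), and `-1 = (-1)^n`: so the map
`(Fin rank → ZMod n) × ZMod n → E / E^n` is onto.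
(2) `Ψ u = (L 1 u, L 2 u, L 4 u, ..., L (n-3) u)`, additive, values in `Fin N → ZMod n`. It is onto:
`L 1 z = 1`, `L r z = 0` for `r ≥ 2`; for `r` even take `u` with `L r u ≠ 0` and the eigenunit
`e = ∏_{a : (ZMod n)ˣ} (sg n a u) ^ ((a⁻¹ : ZMod n)^r).val`: `L s e = ∑_a a^(s-r) * L s u`, which
is `- L r u` for `s = r` and `0` for the other `s ∈ [1, n-2]` (`L_sg`, power sums over `(ZMod n)ˣ`).
(3) source and target of the composite linear map `(Fin rank → ZMod n) × ZMod n → (Fin N → ZMod n)`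
have the same dimension `N = rank + 1`, it is onto, hence injective: a unit killed by `Ψ` (i.e. with
all exponents in the kernel) is an `n`-th power. -/

namespace Pool.Agent.Helper38.REG

open NumberField

variable (n : ℕ) [hn : Fact n.Prime]

open NumberField.Units in
lemma kum_rank (h5 : 5 ≤ n) : rank (K n) + 1 = (n - 1) / 2 := by
  dsimp only [rank]
  rw [InfinitePlace.card_eq_nrRealPlaces_add_nrComplexPlaces,
    IsCyclotomicExtension.Rat.nrRealPlaces_eq_zero (n := n) (K n) (by omega),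
    zero_add, IsCyclotomicExtension.Rat.nrComplexPlaces_eq_totient_div_two (n := n),
    Nat.totient_prime hn.out]
  omega

open NumberField.Units in
lemma kum_tors (h5 : 5 ≤ n) (x : torsion (K n)) : ∃ (s : O n) (r : ℕ), (s = 1 ∨ s = -1) ∧
    (((x : (𝓞 (K n))ˣ) : O n)) = s * z n ^ r := by
  obtain ⟨m, hmpos, hm⟩ := isOfFinOrder_iff_pow_eq_one.1 <| (CommGroup.mem_torsion _).1 x.2
  have hm2 : (((x : (𝓞 (K n))ˣ) : O n) : K n) ^ m = 1 := by
    have hm3 : ((x : (𝓞 (K n))ˣ) : O n) ^ m = 1 := by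
      rw [← Units.val_pow_eq_pow_val, hm, Units.val_one]
    have hm4 := congrArg (algebraMap (𝓞 (K n)) (K n)) hm3
    rw [map_pow, map_one] at hm4
    exact hm4
  obtain ⟨r, -, hru⟩ := (zspec n).exists_pow_or_neg_mul_pow_of_isOfFinOrder (n_odd n h5)
    (isOfFinOrder_iff_pow_eq_one.2 ⟨m, hmpos, hm2⟩)
  rcases hru with h | h
  · refine ⟨1, r, Or.inl rfl, ?_⟩
    rw [one_mul]
    ext; exact h
  · refine ⟨-1, r, Or.inr rfl, ?_⟩
    ext
    rw [h, neg_mul, one_mul]
    rfl

/-- the exponents `1, 2, 4, ..., n - 3` -/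
def evx (i : ℕ) : ℕ := if i = 0 then 1 else 2 * i

lemma evx_pos (i : ℕ) : 1 ≤ evx i := by
  unfold evx
  split_ifs <;> omega

omit hn in
lemma evx_le (h5 : 5 ≤ n) (i : Fin ((n - 1) / 2)) : evx (i : ℕ) ≤ n - 2 := by
  have := i.2
  unfold evx
  split_ifs <;> omega

/-- the vector of the invariants of a unit -/
noncomputable def kPsi (h5 : 5 ≤ n) : Additive (O n)ˣ →+ (Fin ((n - 1) / 2) → ZMod n) where
  toFun u := fun i => L n (evx (i : ℕ)) ((Additive.toMul u : (O n)ˣ) : O n)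
  map_zero' := by
    funext i
    rw [toMul_zero, Units.val_one, L_one n (evx_pos _) (evx_le n h5 i)]
    rfl
  map_add' u v := by
    funext i
    rw [toMul_add, Units.val_mul, L_mul n (evx_pos _) (evx_le n h5 i)
      (ok_unit n (Additive.toMul u).isUnit) (ok_unit n (Additive.toMul v).isUnit)]
    rfl

lemma kPsi_apply (h5 : 5 ≤ n) (u : (O n)ˣ) (i : Fin ((n - 1) / 2)) :
    kPsi n h5 (Additive.ofMul u) i = L n (evx (i : ℕ)) (u : O n) := rfl

lemma kum_sum {r s : ℕ} (hr1 : 1 ≤ r) (hr2 : r ≤ n - 2) (hs1 : 1 ≤ s) (hs2 : s ≤ n - 2) :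
    ∑ a : (ZMod n)ˣ, ((a : ZMod n)⁻¹) ^ r * (a : ZMod n) ^ s = if s = r then -1 else 0 := by
  have h2 := hn.out.two_le
  have e : ∀ a : (ZMod n)ˣ, ((a : ZMod n)⁻¹) ^ r * (a : ZMod n) ^ s =
      (a : ZMod n) ^ (n - 1 - r + s) := by
    intro a
    have ha : (a : ZMod n) ≠ 0 := a.ne_zero
    have h1 : (a : ZMod n) ^ (n - 1) = 1 := ZMod.pow_card_sub_one_eq_one ha
    have h3 : (a : ZMod n) ^ (n - 1 - r) * (a : ZMod n) ^ r = 1 := by
      rw [← pow_add, Nat.sub_add_cancel (by omega), h1]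
    have h4 : ((a : ZMod n)⁻¹) ^ r = (a : ZMod n) ^ (n - 1 - r) := by
      rw [inv_pow]
      exact (eq_inv_of_mul_eq_one_left h3).symm
    rw [h4, pow_add]
  have hs := FiniteField.sum_pow_units (ZMod n) (n - 1 - r + s)
  rw [ZMod.card] at hs
  have h5 : ∑ a : (ZMod n)ˣ, ((a : ZMod n)⁻¹) ^ r * (a : ZMod n) ^ s =
      ∑ a : (ZMod n)ˣ, ((a ^ (n - 1 - r + s) : (ZMod n)ˣ) : ZMod n) := by
    refine Finset.sum_congr rfl fun a _ => ?_
    rw [e a, Units.val_pow_eq_pow_val]
  have h6 : ∑ a : (ZMod n)ˣ, ((a ^ (n - 1 - r + s) : (ZMod n)ˣ) : ZMod n) =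
      if n - 1 ∣ n - 1 - r + s then -1 else 0 := by
    exact hs
  rw [h5, h6]
  have h7 : (n - 1 ∣ n - 1 - r + s) ↔ s = r := by
    constructor
    · rintro ⟨k, hk⟩
      have hk1 : k = 1 := by
        rcases Nat.lt_trichotomy k 1 with h | h | h
        · have : k = 0 := by omega
          subst this
          rw [mul_zero] at hk
          omega
        · exact h
        · exfalso
          have h9 : (n - 1) * 2 ≤ (n - 1) * k := Nat.mul_le_mul_left _ h
          rw [← hk] at h9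
          omega
      subst hk1
      omega
    · rintro rfl
      exact ⟨1, by omega⟩
  simp only [h7]

/-- the product of the conjugates of `u` with exponents `a ^ (- r)` -/
noncomputable def eigU (r : ℕ) (u : (O n)ˣ) : (O n)ˣ :=
  ∏ a : (ZMod n)ˣ, (Units.map (sg n a : O n →* O n) u) ^ (((a : ZMod n)⁻¹) ^ r).val

lemma L_eigU {r s : ℕ} (hr1 : 1 ≤ r) (hr2 : r ≤ n - 2) (hs1 : 1 ≤ s) (hs2 : s ≤ n - 2)
    (u : (O n)ˣ) : L n s (eigU n r u : O n) = if s = r then - L n s (u : O n) else 0 := by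
  unfold eigU
  rw [Units.coe_prod, L_prod n hs1 hs2]
  · have e : ∀ a : (ZMod n)ˣ, L n s (((Units.map (sg n a : O n →* O n) u) ^
        (((a : ZMod n)⁻¹) ^ r).val : (O n)ˣ) : O n) =
        (((a : ZMod n)⁻¹) ^ r * (a : ZMod n) ^ s) * L n s (u : O n) := by
      intro a
      rw [Units.val_pow_eq_pow_val, L_pow n hs1 hs2 (ok_unit n (Units.isUnit _)),
        ZMod.natCast_zmod_val]
      have h1 : ((Units.map (sg n a : O n →* O n) u : (O n)ˣ) : O n) = sg n a (u : O n) := rfl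
      rw [h1, L_sg n hs1 hs2 a (ok_unit n u.isUnit)]
      ring
    rw [Finset.sum_congr rfl fun a _ => e a, ← Finset.sum_mul, kum_sum n hr1 hr2 hs1 hs2]
    split_ifs
    · ring
    · ring
  · intro a _
    exact ok_unit n (Units.isUnit _)

lemma kum_single (h5 : 5 ≤ n)
    (hB : ∀ r, Even r → 2 ≤ r → r ≤ n - 3 → ∃ u : O n, IsUnit u ∧ L n r u ≠ 0)
    (i : Fin ((n - 1) / 2)) : ∃ (w : (O n)ˣ) (c : ZMod n), c ≠ 0 ∧
      kPsi n h5 (Additive.ofMul w) = Pi.single i c := by
  by_cases hi : (i : ℕ) = 0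
  · refine ⟨(z_unit n).unit, 1, one_ne_zero, ?_⟩
    funext j
    rw [kPsi_apply, IsUnit.unit_spec]
    by_cases hj : j = i
    · subst hj
      rw [Pi.single_eq_same, hi]
      exact L_z_one n (by omega)
    · rw [Pi.single_eq_of_ne hj]
      have hj0 : (j : ℕ) ≠ 0 := by
        intro h
        apply hj
        apply Fin.ext
        rw [h, hi]
      refine L_z n ?_ (evx_le n h5 j)
      unfold evx
      rw [if_neg hj0]
      omega
  · have hlt := i.2
    obtain ⟨u, hu, hLu⟩ := hB (2 * (i : ℕ)) (even_two_mul _) (by omega) (by omega)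
    refine ⟨eigU n (2 * (i : ℕ)) hu.unit, - L n (2 * (i : ℕ)) u, neg_ne_zero.2 hLu, ?_⟩
    funext j
    rw [kPsi_apply, L_eigU n (by omega) (by omega) (evx_pos _) (evx_le n h5 j), IsUnit.unit_spec]
    by_cases hj : j = i
    · subst hj
      have he : evx (j : ℕ) = 2 * (j : ℕ) := by
        unfold evx
        rw [if_neg hi]
      rw [Pi.single_eq_same, he, if_pos rfl]
    · rw [Pi.single_eq_of_ne hj, if_neg]
      intro h
      apply hj
      apply Fin.ext
      unfold evx at h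
      split_ifs at h with h0
      · omega
      · omega

lemma kum_surj (h5 : 5 ≤ n)
    (hB : ∀ r, Even r → 2 ≤ r → r ≤ n - 3 → ∃ u : O n, IsUnit u ∧ L n r u ≠ 0) :
    Function.Surjective (kPsi n h5) := by
  intro v
  choose w c hc h using kum_single n h5 hB
  refine ⟨∑ i, ((v i * (c i)⁻¹).val) • Additive.ofMul (w i), ?_⟩
  rw [map_sum]
  have e : ∀ i, kPsi n h5 (((v i * (c i)⁻¹).val) • Additive.ofMul (w i)) =
      Pi.single i (v i) := by
    intro i
    rw [map_nsmul, h i]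
    funext j
    rw [Pi.smul_apply]
    by_cases hj : j = i
    · subst hj
      rw [Pi.single_eq_same, Pi.single_eq_same, nsmul_eq_mul, ZMod.natCast_zmod_val,
        mul_assoc, inv_mul_cancel₀ (hc j), mul_one]
    · rw [Pi.single_eq_of_ne hj, Pi.single_eq_of_ne hj, nsmul_zero]
  rw [Finset.sum_congr rfl fun i _ => e i, Finset.univ_sum_single]

open NumberField.Units in
/-- the linear map from the exponents modulo `n` -/
noncomputable def kPhi (h5 : 5 ≤ n) :
    ((Fin (rank (K n)) → ZMod n) × ZMod n) →ₗ[ZMod n] (Fin ((n - 1) / 2) → ZMod n) where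
  toFun p := (∑ i, p.1 i • kPsi n h5 (Additive.ofMul (fundSystem (K n) i))) +
    p.2 • kPsi n h5 (Additive.ofMul (z_unit n).unit)
  map_add' p q := by
    simp only [Prod.fst_add, Prod.snd_add, Pi.add_apply, add_smul, Finset.sum_add_distrib]
    abel
  map_smul' a p := by
    simp only [Prod.smul_fst, Prod.smul_snd, Pi.smul_apply, smul_eq_mul, mul_smul,
      RingHom.id_apply, smul_add, Finset.smul_sum]

open NumberField.Units in
lemma kPsi_sign (h5 : 5 ≤ n) {w : (O n)ˣ} (hw : (w : O n) = 1 ∨ (w : O n) = -1) :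
    kPsi n h5 (Additive.ofMul w) = 0 := by
  funext i
  rw [kPsi_apply]
  rcases hw with h | h
  · rw [h, L_one n (evx_pos _) (evx_le n h5 i)]
    rfl
  · rw [h, L_neg_one n (evx_pos _) (evx_le n h5 i)]
    rfl

open NumberField.Units in
/-- the form of all units and their invariants -/
lemma kum_form (h5 : 5 ≤ n) (u : (O n)ˣ) : ∃ (s : (O n)ˣ) (j : ℕ) (f : Fin (rank (K n)) → ℤ),
    ((s : O n) = 1 ∨ (s : O n) = -1) ∧
    u = s * (z_unit n).unit ^ j * ∏ i, (fundSystem (K n) i) ^ (f i) ∧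
    kPsi n h5 (Additive.ofMul u) = kPhi n h5 (fun i => (f i : ZMod n), (j : ZMod n)) := by
  obtain ⟨⟨x, f⟩, hxu, -⟩ := exist_unique_eq_mul_prod _ u
  obtain ⟨s, j, hs, hx⟩ := kum_tors n h5 x
  have hsu : IsUnit s := by
    rcases hs with rfl | rfl
    · exact isUnit_one
    · exact isUnit_one.neg
  have hs' : ((hsu.unit : (O n)ˣ) : O n) = 1 ∨ ((hsu.unit : (O n)ˣ) : O n) = -1 := by
    rw [IsUnit.unit_spec]
    exact hs
  have hxe : (x : (O n)ˣ) = hsu.unit * (z_unit n).unit ^ j := by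
    apply Units.ext
    rw [Units.val_mul, Units.val_pow_eq_pow_val, IsUnit.unit_spec, IsUnit.unit_spec]
    exact hx
  have hu : u = hsu.unit * (z_unit n).unit ^ j * ∏ i, (fundSystem (K n) i) ^ (f i) := by
    rw [← hxe]
    exact hxu
  refine ⟨hsu.unit, j, f, hs', hu, ?_⟩
  rw [hu, ofMul_mul, ofMul_mul, map_add, map_add, kPsi_sign n h5 hs', zero_add, ofMul_pow,
    map_nsmul, ofMul_prod, map_sum]
  have e : ∀ i, kPsi n h5 (Additive.ofMul ((fundSystem (K n) i) ^ (f i))) =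
      (f i : ZMod n) • kPsi n h5 (Additive.ofMul (fundSystem (K n) i)) := by
    intro i
    rw [ofMul_zpow, map_zsmul]
    funext t
    rw [Pi.smul_apply, Pi.smul_apply, zsmul_eq_mul, smul_eq_mul]
  rw [Finset.sum_congr rfl fun i _ => e i]
  have e2 : j • kPsi n h5 (Additive.ofMul (z_unit n).unit) =
      (j : ZMod n) • kPsi n h5 (Additive.ofMul (z_unit n).unit) := by
    funext t
    rw [Pi.smul_apply, Pi.smul_apply, nsmul_eq_mul, smul_eq_mul]
  rw [e2]
  exact add_comm _ _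

open NumberField.Units in
lemma kPhi_inj (h5 : 5 ≤ n)
    (hB : ∀ r, Even r → 2 ≤ r → r ≤ n - 3 → ∃ u : O n, IsUnit u ∧ L n r u ≠ 0) :
    Function.Injective (kPhi n h5) := by
  have hsurj : Function.Surjective (kPhi n h5) := by
    intro v
    obtain ⟨u, hu⟩ := kum_surj n h5 hB v
    obtain ⟨s, j, f, -, -, h⟩ := kum_form n h5 (Additive.toMul u)
    refine ⟨_, h.symm.trans ?_⟩
    rw [ofMul_toMul]
    exact hu
  refine (LinearMap.injective_iff_surjective_of_finrank_eq_finrank ?_).2 hsurj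
  rw [Module.finrank_prod, Module.finrank_fin_fun, Module.finrank_fin_fun, Module.finrank_self]
  exact kum_rank n h5

open NumberField.Units in
theorem kummer (h5 : 5 ≤ n)
    (hB : ∀ r, Even r → 2 ≤ r → r ≤ n - 3 → ∃ u : O n, IsUnit u ∧ L n r u ≠ 0) : KL n := by
  intro u hu hL
  obtain ⟨s, j, f, hs, hform, hval⟩ := kum_form n h5 hu.unit
  have h0 : kPsi n h5 (Additive.ofMul hu.unit) = 0 := by
    funext i
    rw [kPsi_apply, IsUnit.unit_spec]
    exact hL _ (evx_pos _) (evx_le n h5 i)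
  rw [h0] at hval
  have h1 := kPhi_inj n h5 hB (hval.symm.trans (map_zero (kPhi n h5)).symm)
  rw [Prod.mk_eq_zero] at h1
  obtain ⟨hf, hj⟩ := h1
  have hf' : ∀ i, (n : ℤ) ∣ f i := fun i =>
    (ZMod.intCast_zmod_eq_zero_iff_dvd _ _).1 (congrFun hf i)
  have hj' : n ∣ j := (ZMod.natCast_eq_zero_iff _ _).1 hj
  choose g hg using hf'
  obtain ⟨j', hj'⟩ := hj'
  have hsn : s ^ n = s := by
    apply Units.ext
    rw [Units.val_pow_eq_pow_val]
    rcases hs with h | h
    · rw [h, one_pow]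
    · rw [h, (n_odd n h5).neg_one_pow]
  refine ⟨((s * (z_unit n).unit ^ j' * ∏ i, (fundSystem (K n) i) ^ (g i) : (O n)ˣ) : O n),
    Units.isUnit _, ?_⟩
  rw [← Units.val_pow_eq_pow_val, mul_pow, mul_pow, hsn, ← pow_mul, ← Finset.prod_pow]
  have e : ∀ i, ((fundSystem (K n) i) ^ (g i)) ^ n = (fundSystem (K n) i) ^ (f i) := by
    intro i
    rw [hg i, ← zpow_natCast, ← zpow_mul, mul_comm]
  rw [Finset.prod_congr rfl fun i _ => e i, mul_comm j' n, ← hj', ← hform, IsUnit.unit_spec]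

end Pool.Agent.Helper38.REG
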