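import Pool.Agent.Helper38.REG.Base

/-! Project REG: the map `T : O → F_n[u]/u^(n-1)`, `ζ ↦ exp u`, and logarithmic derivatives. -/

namespace Pool.Agent.Helper38.REG

open NumberField

variable (n : ℕ) [hn : Fact n.Prime]

/-- truncated exponential series -/
noncomputable def E : PowerSeries (ZMod n) :=
  PowerSeries.mk fun k => ((k.factorial : ℕ) : ZMod n)⁻¹

lemma fac_ne {k : ℕ} (hk : k < n) : ((k.factorial : ℕ) : ZMod n) ≠ 0 := by
  intro h
  have h1 := (ZMod.natCast_eq_zero_iff (k.factorial) n).1 h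
  have h2 := (Nat.Prime.dvd_factorial hn.out).1 h1
  omega

lemma coeff_E (k : ℕ) : PowerSeries.coeff k (E n) = ((k.factorial : ℕ) : ZMod n)⁻¹ := by
  rw [E, PowerSeries.coeff_mk]

lemma coeff_E_pow (a k : ℕ) (hk : k < n) : PowerSeries.coeff k (E n ^ a) =
    (a : ZMod n) ^ k * ((k.factorial : ℕ) : ZMod n)⁻¹ := by
  induction a generalizing k with
  | zero =>
    rw [pow_zero, PowerSeries.coeff_one]
    by_cases h : k = 0
    · subst h; simp
    · simp [h]
  | succ a ih =>
    rw [pow_succ, PowerSeries.coeff_mul,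
      Finset.Nat.sum_antidiagonal_eq_sum_range_succ_mk]
    push_cast
    rw [add_pow, Finset.sum_mul]
    refine Finset.sum_congr rfl fun i hi => ?_
    have hi' : i ≤ k := Nat.lt_succ_iff.1 (Finset.mem_range.1 hi)
    rw [ih i (by omega), coeff_E]
    have h1 : ((k.choose i : ℕ) : ZMod n) * (i.factorial : ℕ) * ((k - i).factorial : ℕ) =
        (k.factorial : ℕ) := by
      exact_mod_cast congrArg (Nat.cast : ℕ → ZMod n) (Nat.choose_mul_factorial_mul_factorial hi')
    have f1 := fac_ne n (k := i) (by omega)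
    have f2 := fac_ne n (k := k - i) (by omega)
    have f3 := fac_ne n (k := k) hk
    field_simp
    rw [← h1]
    ring

/-- the ideal `(u^(n-1))` -/
noncomputable def I : Ideal (PowerSeries (ZMod n)) := Ideal.span {PowerSeries.X ^ (n - 1)}

abbrev Q : Type := PowerSeries (ZMod n) ⧸ I n

lemma mem_I {g : PowerSeries (ZMod n)} : g ∈ I n ↔ ∀ k < n - 1, PowerSeries.coeff k g = 0 := by
  rw [I, Ideal.mem_span_singleton, PowerSeries.X_pow_dvd_iff]

lemma mk_eq {g h : PowerSeries (ZMod n)} : Ideal.Quotient.mk (I n) g = Ideal.Quotient.mk (I n) h ↔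
    ∀ k < n - 1, PowerSeries.coeff k g = PowerSeries.coeff k h := by
  rw [Ideal.Quotient.eq, mem_I]
  simp only [map_sub, sub_eq_zero]

lemma sum_range_pow {k : ℕ} (hk : k < n - 1) : ∑ i ∈ Finset.range n, (i : ZMod n) ^ k = 0 := by
  have h := FiniteField.sum_pow_lt_card_sub_one (K := ZMod n) k (by rw [ZMod.card]; exact hk)
  rw [← h]
  refine Finset.sum_nbij' (fun i => (i : ZMod n)) (fun x => x.val) ?_ ?_ ?_ ?_ ?_
  · intro i _; exact Finset.mem_univ _
  · intro x _; exact Finset.mem_range.2 (ZMod.val_lt x)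
  · intro i hi; exact ZMod.val_cast_of_lt (Finset.mem_range.1 hi)
  · intro x _; exact ZMod.natCast_zmod_val x
  · intro i _; rfl

lemma geom_E : ∑ i ∈ Finset.range n, (Ideal.Quotient.mk (I n) (E n)) ^ i = 0 := by
  have h1 : ∑ i ∈ Finset.range n, (Ideal.Quotient.mk (I n) (E n)) ^ i =
      Ideal.Quotient.mk (I n) (∑ i ∈ Finset.range n, (E n) ^ i) := by
    rw [map_sum]
    refine Finset.sum_congr rfl fun i _ => (map_pow _ _ _).symm
  rw [h1, Ideal.Quotient.eq_zero_iff_mem, mem_I]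
  intro k hk
  rw [map_sum]
  have h2 : ∀ i ∈ Finset.range n, PowerSeries.coeff k (E n ^ i) =
      (i : ZMod n) ^ k * ((k.factorial : ℕ) : ZMod n)⁻¹ :=
    fun i _ => coeff_E_pow n i k (by omega)
  rw [Finset.sum_congr rfl h2, ← Finset.sum_mul, sum_range_pow n hk, zero_mul]

/-- `T : O → F_n[u]/u^(n-1)`, `ζ ↦ exp u` -/
noncomputable def T : O n →+* Q n := lft n (Ideal.Quotient.mk (I n) (E n)) (geom_E n)

lemma T_z : T n (z n) = Ideal.Quotient.mk (I n) (E n) := lft_z n _ _

lemma T_zpow (a : ℕ) : T n (z n ^ a) = Ideal.Quotient.mk (I n) (E n ^ a) := by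
  rw [map_pow, T_z, map_pow]

lemma T_int (a : ℤ) : T n (a : O n) = Ideal.Quotient.mk (I n) (PowerSeries.C (a : ZMod n)) := by
  rw [map_intCast, map_intCast, map_intCast]

lemma T_n : T n (n : O n) = 0 := by
  have := T_int n n
  rw [Int.cast_natCast, Int.cast_natCast, ZMod.natCast_self, map_zero, map_zero] at this
  exact this

/-- `g` represents `T x` -/
def Rp (g : PowerSeries (ZMod n)) (x : O n) : Prop := Ideal.Quotient.mk (I n) g = T n x

variable {n}

lemma Rp.mul {g h : PowerSeries (ZMod n)} {x y : O n} (hg : Rp n g x) (hh : Rp n h y) :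
    Rp n (g * h) (x * y) := by
  unfold Rp at *; rw [map_mul, map_mul, hg, hh]
lemma Rp.add {g h : PowerSeries (ZMod n)} {x y : O n} (hg : Rp n g x) (hh : Rp n h y) :
    Rp n (g + h) (x + y) := by
  unfold Rp at *; rw [map_add, map_add, hg, hh]
lemma Rp.sub {g h : PowerSeries (ZMod n)} {x y : O n} (hg : Rp n g x) (hh : Rp n h y) :
    Rp n (g - h) (x - y) := by
  unfold Rp at *; rw [map_sub, map_sub, hg, hh]
lemma Rp.neg {g : PowerSeries (ZMod n)} {x : O n} (hg : Rp n g x) : Rp n (-g) (-x) := by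
  unfold Rp at *; rw [map_neg, map_neg, hg]
lemma Rp.pow {g : PowerSeries (ZMod n)} {x : O n} (hg : Rp n g x) (k : ℕ) :
    Rp n (g ^ k) (x ^ k) := by
  unfold Rp at *; rw [map_pow, map_pow, hg]
lemma Rp.z : Rp n (E n) (z n) := (T_z n).symm
lemma Rp.zpow (a : ℕ) : Rp n (E n ^ a) (REG.z n ^ a) := (T_zpow n a).symm
lemma Rp.int (a : ℤ) : Rp n (PowerSeries.C (a : ZMod n)) (a : O n) := (T_int n a).symm
lemma Rp.one : Rp n 1 1 := by unfold Rp; rw [map_one, map_one]
lemma Rp.sum {ι : Type*} (s : Finset ι) (g : ι → PowerSeries (ZMod n)) (x : ι → O n)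
    (h : ∀ i ∈ s, Rp n (g i) (x i)) : Rp n (∑ i ∈ s, g i) (∑ i ∈ s, x i) := by
  unfold Rp at *
  rw [map_sum, map_sum]
  exact Finset.sum_congr rfl h

variable (n)

lemma exists_Rp (x : O n) : ∃ g, Rp n g x := Ideal.Quotient.mk_surjective (T n x)

/-- coefficients of `T x`, `k < n - 1` -/
noncomputable def cf (k : ℕ) (x : O n) : ZMod n :=
  PowerSeries.coeff k (Classical.choose (exists_Rp n x))

lemma cf_eq {k : ℕ} (hk : k < n - 1) {g : PowerSeries (ZMod n)} {x : O n} (h : Rp n g x) :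
    cf n k x = PowerSeries.coeff k g := by
  have h1 := Classical.choose_spec (exists_Rp n x)
  have : Ideal.Quotient.mk (I n) (Classical.choose (exists_Rp n x)) =
      Ideal.Quotient.mk (I n) g := by
    rw [h1, h]
  exact (mk_eq n).1 this k hk

lemma n_sub_pos : 0 < n - 1 := by have := hn.out.two_le; omega

/-- logarithmic derivative -/
noncomputable def ld (g : PowerSeries (ZMod n)) : PowerSeries (ZMod n) :=
  PowerSeries.derivative (ZMod n) g * g⁻¹

lemma ld_mul {g h : PowerSeries (ZMod n)} (hg : PowerSeries.constantCoeff g ≠ 0)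
    (hh : PowerSeries.constantCoeff h ≠ 0) : ld n (g * h) = ld n g + ld n h := by
  unfold ld
  rw [Derivation.leibniz, PowerSeries.mul_inv_rev, smul_eq_mul, smul_eq_mul]
  have h1 := PowerSeries.mul_inv_cancel g hg
  have h2 := PowerSeries.mul_inv_cancel h hh
  linear_combination (PowerSeries.derivative (ZMod n) h * h⁻¹) * h1 +
    (PowerSeries.derivative (ZMod n) g * g⁻¹) * h2

lemma ld_congr {N : ℕ} {g h : PowerSeries (ZMod n)} (hg : PowerSeries.constantCoeff g ≠ 0)
    (hgh : ∀ k < N + 1, PowerSeries.coeff k g = PowerSeries.coeff k h) :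
    ∀ k < N, PowerSeries.coeff k (ld n g) = PowerSeries.coeff k (ld n h) := by
  have hh : PowerSeries.constantCoeff h ≠ 0 := by
    have := hgh 0 (by omega)
    rw [PowerSeries.coeff_zero_eq_constantCoeff] at this
    intro h0
    apply hg
    rw [this, h0]
  have h1 : (PowerSeries.X : PowerSeries (ZMod n)) ^ (N + 1) ∣ g - h := by
    rw [PowerSeries.X_pow_dvd_iff]
    intro m hm
    rw [map_sub, hgh m hm, sub_self]
  obtain ⟨q, hq⟩ := h1
  have h2 : (PowerSeries.X : PowerSeries (ZMod n)) ^ N ∣ ld n g - ld n h := by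
    have i1 := PowerSeries.mul_inv_cancel g hg
    have i2 := PowerSeries.mul_inv_cancel h hh
    have d1 : PowerSeries.derivative (ZMod n) g - PowerSeries.derivative (ZMod n) h =
        PowerSeries.X ^ N * (((N + 1 : ℕ) : PowerSeries (ZMod n)) * q + PowerSeries.X * PowerSeries.derivative (ZMod n) q) := by
      rw [← map_sub, hq, Derivation.leibniz, Derivation.leibniz_pow, smul_eq_mul, smul_eq_mul,
        PowerSeries.derivative_X, Nat.add_sub_cancel]
      simp only [smul_eq_mul, nsmul_eq_mul, mul_one]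
      ring
    refine ⟨(((N + 1 : ℕ) : PowerSeries (ZMod n)) * q + PowerSeries.X * PowerSeries.derivative (ZMod n) q) * g⁻¹ -
      PowerSeries.derivative (ZMod n) h * PowerSeries.X * q * g⁻¹ * h⁻¹, ?_⟩
    unfold ld
    linear_combination (g⁻¹) * d1 - (PowerSeries.derivative (ZMod n) h * g⁻¹ * h⁻¹) * hq +
      (PowerSeries.derivative (ZMod n) h * h⁻¹) * i1 - (PowerSeries.derivative (ZMod n) h * g⁻¹) * i2
  intro k hk
  have := PowerSeries.X_pow_dvd_iff.1 h2 k hk
  rw [map_sub, sub_eq_zero] at this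
  exact this

/-- the logarithmic invariants: `T x = c · exp (∑ L r x · u^r / r!)` -/
noncomputable def L (r : ℕ) (x : O n) : ZMod n :=
  (((r - 1).factorial : ℕ) : ZMod n) *
    PowerSeries.coeff (r - 1) (ld n (Classical.choose (exists_Rp n x)))

lemma L_eq {r : ℕ} (h1 : 1 ≤ r) (h2 : r ≤ n - 2) {g : PowerSeries (ZMod n)} {x : O n}
    (hg : Rp n g x) (h0 : PowerSeries.constantCoeff g ≠ 0) :
    L n r x = (((r - 1).factorial : ℕ) : ZMod n) * PowerSeries.coeff (r - 1) (ld n g) := by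
  unfold L
  congr 1
  have h3 := Classical.choose_spec (exists_Rp n x)
  have h4 : Ideal.Quotient.mk (I n) g =
      Ideal.Quotient.mk (I n) (Classical.choose (exists_Rp n x)) := by
    rw [h3, hg]
  refine (ld_congr n (N := n - 2) h0 ?_ (r - 1) (by omega)).symm
  intro k hk
  exact (mk_eq n).1 h4 k (by omega)

lemma L_T {r : ℕ} {x y : O n} (h : T n x = T n y) : L n r x = L n r y := by
  have e : ∀ (a b : Q n) (hab : a = b) (ha : ∃ g, Ideal.Quotient.mk (I n) g = a)
      (hb : ∃ g, Ideal.Quotient.mk (I n) g = b), Classical.choose ha = Classical.choose hb := by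
    intro a b hab ha hb
    subst hab
    rfl
  unfold L
  congr 3
  exact e (T n x) (T n y) h (exists_Rp n x) (exists_Rp n y)

/-- constant term -/
noncomputable def c0 : Q n →+* ZMod n :=
  Ideal.Quotient.lift (I n) (PowerSeries.constantCoeff (R := ZMod n)) (by
    intro a ha
    have := (mem_I n).1 ha 0 (n_sub_pos n)
    rwa [PowerSeries.coeff_zero_eq_constantCoeff] at this)

lemma c0_mk (g : PowerSeries (ZMod n)) :
    c0 n (Ideal.Quotient.mk (I n) g) = PowerSeries.constantCoeff g :=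
  Ideal.Quotient.lift_mk _ _ _

lemma c0_z : c0 n (T n (z n)) = 1 := by
  rw [T_z, c0_mk, ← PowerSeries.coeff_zero_eq_constantCoeff_apply, coeff_E]
  simp

lemma c0_lam : c0 n (T n (lam n)) = 0 := by
  rw [lam, map_sub, map_sub, c0_z, map_one, map_one, sub_self]

lemma n_mem_lam : lam n ∣ (n : O n) := by
  have := (lam_dvd_int n (a := n)).2 dvd_rfl
  rwa [Int.cast_natCast] at this

open Polynomial in
lemma aeval_sub_eval (f : ℤ[X]) : lam n ∣ aeval (z n) f - ((f.eval 1 : ℤ) : O n) := by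
  have h := sub_dvd_eval_sub (1 : O n) (z n) (f.map (Int.castRingHom (O n)))
  rw [eval_map, eval_map] at h
  have h1 : eval₂ (Int.castRingHom (O n)) 1 f = ((f.eval 1 : ℤ) : O n) := by
    have := Polynomial.hom_eval₂ f (RingHom.id ℤ) (Int.castRingHom (O n)) 1
    rw [map_one] at this
    rw [← RingHom.comp_id (Int.castRingHom (O n)), ← this]
    rfl
  rw [h1] at h
  have h2 : aeval (z n) f = eval₂ (Int.castRingHom (O n)) (z n) f := rfl
  rw [h2, ← neg_sub, dvd_neg]
  exact h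

lemma lam_dvd_iff (x : O n) : lam n ∣ x ↔ c0 n (T n x) = 0 := by
  constructor
  · rintro ⟨y, rfl⟩
    rw [map_mul, map_mul, c0_lam, zero_mul]
  · intro h
    obtain ⟨f, -, rfl⟩ := exists_poly n x
    have h1 := aeval_sub_eval n f
    have h2 : c0 n (T n ((f.eval 1 : ℤ) : O n)) = 0 := by
      obtain ⟨y, hy⟩ := h1
      have : ((Polynomial.eval 1 f : ℤ) : O n) = Polynomial.aeval (z n) f - lam n * y := by
        rw [← hy]; ring
      rw [this, map_sub, map_sub, h, map_mul, map_mul, c0_lam, zero_mul, sub_zero]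
    rw [map_intCast, map_intCast, ZMod.intCast_zmod_eq_zero_iff_dvd] at h2
    have h3 := (lam_dvd_int n).2 h2
    have h4 := dvd_add h1 h3
    rwa [sub_add_cancel] at h4

/-- nonvanishing modulo `λ` -/
def ok (x : O n) : Prop := ¬ lam n ∣ x

lemma ok_iff (x : O n) : ok n x ↔ c0 n (T n x) ≠ 0 := by
  unfold ok; rw [lam_dvd_iff]

lemma ok_Rp {x : O n} {g : PowerSeries (ZMod n)} (h : Rp n g x) :
    ok n x ↔ PowerSeries.constantCoeff g ≠ 0 := by
  rw [ok_iff, ← h, c0_mk]

lemma ok_mul {x y : O n} : ok n (x * y) ↔ ok n x ∧ ok n y := by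
  rw [ok_iff, ok_iff, ok_iff, map_mul, map_mul, mul_ne_zero_iff]

lemma ok_unit {x : O n} (hx : IsUnit x) : ok n x := by
  rw [ok_iff]
  exact ((hx.map (T n)).map (c0 n)).ne_zero

lemma ok_pow {x : O n} (hx : ok n x) (k : ℕ) : ok n (x ^ k) := by
  rw [ok_iff] at *
  rw [map_pow, map_pow]
  exact pow_ne_zero _ hx

lemma ok_one : ok n 1 := ok_unit n isUnit_one

lemma ok_neg {x : O n} : ok n (-x) ↔ ok n x := by
  unfold ok; rw [dvd_neg]

lemma ok_prod {ι : Type*} (s : Finset ι) (f : ι → O n) (h : ∀ i ∈ s, ok n (f i)) :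
    ok n (∏ i ∈ s, f i) := by
  rw [ok_iff, map_prod, map_prod, Finset.prod_ne_zero_iff]
  intro i hi
  rw [← ok_iff]
  exact h i hi

lemma L_mul {r : ℕ} (h1 : 1 ≤ r) (h2 : r ≤ n - 2) {x y : O n} (hx : ok n x) (hy : ok n y) :
    L n r (x * y) = L n r x + L n r y := by
  obtain ⟨g, hg⟩ := exists_Rp n x
  obtain ⟨h, hh⟩ := exists_Rp n y
  have gx := (ok_Rp n hg).1 hx
  have gy := (ok_Rp n hh).1 hy
  rw [L_eq n h1 h2 (hg.mul hh) (by rw [map_mul]; exact mul_ne_zero gx gy), L_eq n h1 h2 hg gx,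
    L_eq n h1 h2 hh gy, ld_mul n gx gy, map_add, mul_add]

lemma L_one {r : ℕ} (h1 : 1 ≤ r) (h2 : r ≤ n - 2) : L n r 1 = 0 := by
  have := L_mul n h1 h2 (ok_one n) (ok_one n)
  rw [mul_one] at this
  exact left_eq_add.1 this

lemma L_pow {r : ℕ} (h1 : 1 ≤ r) (h2 : r ≤ n - 2) {x : O n} (hx : ok n x) (k : ℕ) :
    L n r (x ^ k) = k * L n r x := by
  induction k with
  | zero => rw [pow_zero, L_one n h1 h2]; simp
  | succ k ih => rw [pow_succ, L_mul n h1 h2 (ok_pow n hx k) hx, ih]; push_cast; ring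

lemma L_pown {r : ℕ} (h1 : 1 ≤ r) (h2 : r ≤ n - 2) {x : O n} (hx : ok n x) :
    L n r (x ^ n) = 0 := by
  rw [L_pow n h1 h2 hx, ZMod.natCast_self, zero_mul]

lemma L_prod {r : ℕ} (h1 : 1 ≤ r) (h2 : r ≤ n - 2) {ι : Type*} (s : Finset ι) (f : ι → O n)
    (h : ∀ i ∈ s, ok n (f i)) : L n r (∏ i ∈ s, f i) = ∑ i ∈ s, L n r (f i) := by
  classical
  induction s using Finset.induction_on with
  | empty => rw [Finset.prod_empty, Finset.sum_empty, L_one n h1 h2]
  | insert a s ha ih =>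
    rw [Finset.prod_insert ha, Finset.sum_insert ha, L_mul n h1 h2
      (h a (Finset.mem_insert_self a s)) (ok_prod n s f fun i hi => h i
      (Finset.mem_insert_of_mem hi)), ih fun i hi => h i (Finset.mem_insert_of_mem hi)]

lemma ok_int {a : ℤ} : ok n (a : O n) ↔ ¬ (n : ℤ) ∣ a := by
  unfold ok; rw [lam_dvd_int]

lemma L_int {r : ℕ} (h1 : 1 ≤ r) (h2 : r ≤ n - 2) {a : ℤ} (ha : ¬ (n : ℤ) ∣ a) :
    L n r (a : O n) = 0 := by
  have h := Rp.int (n := n) a
  rw [L_eq n h1 h2 h ((ok_Rp n h).1 ((ok_int n).2 ha))]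
  unfold ld
  rw [PowerSeries.derivative_C, zero_mul, map_zero, mul_zero]

lemma L_neg_one {r : ℕ} (h1 : 1 ≤ r) (h2 : r ≤ n - 2) : L n r (-1) = 0 := by
  have h := L_int n h1 h2 (a := -1) (by
    rw [dvd_neg]
    intro h
    have h3 := Int.le_of_dvd one_pos h
    have := hn.out.two_le
    omega)
  rwa [Int.cast_neg, Int.cast_one] at h

lemma L_neg {r : ℕ} (h1 : 1 ≤ r) (h2 : r ≤ n - 2) {x : O n} (hx : ok n x) :
    L n r (-x) = L n r x := by
  rw [← neg_one_mul, L_mul n h1 h2 ((ok_neg n).2 (ok_one n)) hx, L_neg_one n h1 h2, zero_add]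

end Pool.Agent.Helper38.REG
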