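import Pool.Agent.Helper38.REG.Log

/-! Project REG: further properties of `T` and `L`. -/

namespace Pool.Agent.Helper38.REG

open NumberField

variable (n : ℕ) [hn : Fact n.Prime]

lemma constantCoeff_E : PowerSeries.constantCoeff (E n) = 1 := by
  rw [← PowerSeries.coeff_zero_eq_constantCoeff_apply, coeff_E]
  simp

lemma deriv_E : ∀ k < n - 1, PowerSeries.coeff k (PowerSeries.derivative (ZMod n) (E n)) =
    PowerSeries.coeff k (E n) := by
  intro k hk
  rw [PowerSeries.coeff_derivative, coeff_E, coeff_E, Nat.factorial_succ]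
  have h1 := fac_ne n (k := k + 1) (by omega)
  rw [Nat.factorial_succ] at h1
  have h2 := fac_ne n (k := k) (by omega)
  push_cast at h1 ⊢
  have h3 : (k : ZMod n) + 1 ≠ 0 := fun h => h1 (by rw [h, zero_mul])
  field_simp

lemma coeff_mul_congr {g g' h : PowerSeries (ZMod n)} {N : ℕ}
    (hg : ∀ k < N, PowerSeries.coeff k g = PowerSeries.coeff k g') :
    ∀ k < N, PowerSeries.coeff k (g * h) = PowerSeries.coeff k (g' * h) := by
  intro k hk
  rw [PowerSeries.coeff_mul, PowerSeries.coeff_mul]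
  refine Finset.sum_congr rfl fun p hp => ?_
  have := Finset.HasAntidiagonal.mem_antidiagonal.1 hp
  rw [hg p.1 (by omega)]

lemma ld_E : ∀ k < n - 1, PowerSeries.coeff k (ld n (E n)) =
    PowerSeries.coeff k (1 : PowerSeries (ZMod n)) := by
  intro k hk
  unfold ld
  rw [coeff_mul_congr n (deriv_E n) k hk, PowerSeries.mul_inv_cancel]
  rw [constantCoeff_E]
  exact one_ne_zero

lemma ok_z : ok n (z n) := ok_unit n (z_unit n)

lemma L_z_one (h : 3 ≤ n) : L n 1 (z n) = 1 := by
  rw [L_eq n le_rfl (by omega) Rp.z (by rw [constantCoeff_E]; exact one_ne_zero),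
    ld_E n _ (by omega)]
  simp

lemma L_z {r : ℕ} (h1 : 2 ≤ r) (h2 : r ≤ n - 2) : L n r (z n) = 0 := by
  rw [L_eq n (by omega) h2 Rp.z (by rw [constantCoeff_E]; exact one_ne_zero),
    ld_E n _ (by omega), PowerSeries.coeff_one, if_neg (by omega), mul_zero]

/-- rescaling `u ↦ a u` on `Q` -/
noncomputable def rs (a : ZMod n) : Q n →+* Q n :=
  Ideal.quotientMap (I n) (PowerSeries.rescale a) (by
    intro g hg
    rw [Ideal.mem_comap, mem_I]
    intro k hk
    rw [PowerSeries.coeff_rescale, (mem_I n).1 hg k hk, mul_zero])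

lemma rs_mk (a : ZMod n) (g : PowerSeries (ZMod n)) :
    rs n a (Ideal.Quotient.mk (I n) g) = Ideal.Quotient.mk (I n) (PowerSeries.rescale a g) :=
  Ideal.quotientMap_mk

lemma T_sg (a : (ZMod n)ˣ) (x : O n) : T n (sg n a x) = rs n (a : ZMod n) (T n x) := by
  have : (T n).comp (sg n a) = (rs n (a : ZMod n)).comp (T n) := by
    apply hom_ext
    rw [RingHom.comp_apply, sg_z, T_zpow, RingHom.comp_apply, T_z, rs_mk, mk_eq]
    intro k hk
    rw [coeff_E_pow n _ k (by omega), ZMod.natCast_zmod_val, PowerSeries.coeff_rescale, coeff_E]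
  exact congrArg (fun g => g x) this

lemma Rp.sg {g : PowerSeries (ZMod n)} {x : O n} (h : Rp n g x) (a : (ZMod n)ˣ) :
    Rp n (PowerSeries.rescale (a : ZMod n) g) (REG.sg n a x) := by
  unfold Rp at *
  rw [T_sg, ← h, rs_mk]

lemma deriv_rescale (a : ZMod n) (g : PowerSeries (ZMod n)) :
    PowerSeries.derivative (ZMod n) (PowerSeries.rescale a g) =
      PowerSeries.C a * PowerSeries.rescale a (PowerSeries.derivative (ZMod n) g) := by
  ext k
  rw [PowerSeries.coeff_derivative, PowerSeries.coeff_rescale, PowerSeries.coeff_C_mul,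
    PowerSeries.coeff_rescale, PowerSeries.coeff_derivative]
  ring

lemma ld_rescale (a : ZMod n) {g : PowerSeries (ZMod n)} (hg : PowerSeries.constantCoeff g ≠ 0) :
    ld n (PowerSeries.rescale a g) = PowerSeries.C a * PowerSeries.rescale a (ld n g) := by
  unfold ld
  have h1 : PowerSeries.rescale a g * PowerSeries.rescale a g⁻¹ = 1 := by
    rw [← map_mul, PowerSeries.mul_inv_cancel g hg, map_one]
  have hg' : PowerSeries.constantCoeff (PowerSeries.rescale a g) ≠ 0 := by
    rw [← PowerSeries.coeff_zero_eq_constantCoeff_apply, PowerSeries.coeff_rescale, pow_zero,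
      one_mul, PowerSeries.coeff_zero_eq_constantCoeff_apply]
    exact hg
  have h2 : (PowerSeries.rescale a g)⁻¹ = PowerSeries.rescale a g⁻¹ := by
    rw [PowerSeries.inv_eq_iff_mul_eq_one hg']
    rw [mul_comm]
    exact h1
  rw [h2, deriv_rescale, map_mul, mul_assoc]

lemma ok_sg (a : (ZMod n)ˣ) {x : O n} : ok n (sg n a x) ↔ ok n x := by
  obtain ⟨g, hg⟩ := exists_Rp n x
  rw [ok_Rp n (Rp.sg n hg a), ok_Rp n hg, ← PowerSeries.coeff_zero_eq_constantCoeff_apply,
    PowerSeries.coeff_rescale, pow_zero, one_mul, PowerSeries.coeff_zero_eq_constantCoeff_apply]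

lemma L_sg {r : ℕ} (h1 : 1 ≤ r) (h2 : r ≤ n - 2) (a : (ZMod n)ˣ) {x : O n} (hx : ok n x) :
    L n r (sg n a x) = (a : ZMod n) ^ r * L n r x := by
  obtain ⟨g, hg⟩ := exists_Rp n x
  have g0 := (ok_Rp n hg).1 hx
  have g1 := (ok_Rp n (Rp.sg n hg a)).1 ((ok_sg n a).2 hx)
  rw [L_eq n h1 h2 (Rp.sg n hg a) g1, L_eq n h1 h2 hg g0, ld_rescale n _ g0,
    PowerSeries.coeff_C_mul, PowerSeries.coeff_rescale]
  obtain ⟨s, rfl⟩ : ∃ s, r = s + 1 := ⟨r - 1, by omega⟩
  rw [Nat.add_sub_cancel, pow_succ]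
  ring

open Polynomial in
/-- `T x = 0` iff `n ∣ x` -/
lemma T_zero_iff (x : O n) : T n x = 0 ↔ (n : O n) ∣ x := by
  constructor
  · intro h
    obtain ⟨f, hf, rfl⟩ := exists_poly n x
    have hdeg : f.natDegree < n - 1 ∨ f = 0 := by
      by_cases h0 : f = 0
      · exact Or.inr h0
      · left
        rw [degree_eq_natDegree h0] at hf
        exact_mod_cast hf
    have hsum : f = ∑ i ∈ Finset.range (n - 1), C (f.coeff i) * X ^ i := by
      rcases hdeg with hd | hd
      · exact f.as_sum_range_C_mul_X_pow' hd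
      · simp [hd]
    have hx : aeval (z n) f = ∑ i ∈ Finset.range (n - 1), ((f.coeff i : ℤ) : O n) * z n ^ i := by
      conv_lhs => rw [hsum]
      rw [map_sum]
      refine Finset.sum_congr rfl fun i _ => ?_
      rw [map_mul, map_pow, aeval_X, aeval_C]
      rfl
    have hrep : Rp n (∑ i ∈ Finset.range (n - 1), PowerSeries.C ((f.coeff i : ℤ) : ZMod n) *
        E n ^ i) (aeval (z n) f) := by
      rw [hx]
      exact Rp.sum _ _ _ fun i _ => (Rp.int _).mul (Rp.zpow i)
    have hmem : (∑ i ∈ Finset.range (n - 1), PowerSeries.C ((f.coeff i : ℤ) : ZMod n) *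
        E n ^ i) ∈ I n := by
      rw [← Ideal.Quotient.eq_zero_iff_mem]
      rw [← h]
      exact hrep
    have hv : ∀ k < n - 1, ∑ i ∈ Finset.range (n - 1), ((f.coeff i : ℤ) : ZMod n) *
        (i : ZMod n) ^ k = 0 := by
      intro k hk
      have h1 := (mem_I n).1 hmem k hk
      rw [map_sum] at h1
      have h2 : ∀ i ∈ Finset.range (n - 1), PowerSeries.coeff k
          (PowerSeries.C ((f.coeff i : ℤ) : ZMod n) * E n ^ i) =
          (((f.coeff i : ℤ) : ZMod n) * (i : ZMod n) ^ k) *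
            ((k.factorial : ℕ) : ZMod n)⁻¹ := by
        intro i _
        rw [PowerSeries.coeff_C_mul, coeff_E_pow n i k (by omega), mul_assoc]
      rw [Finset.sum_congr rfl h2, ← Finset.sum_mul] at h1
      rcases mul_eq_zero.1 h1 with h3 | h3
      · exact h3
      · exact absurd h3 (inv_ne_zero (fac_ne n (by omega)))
    have hz := Matrix.eq_zero_of_forall_pow_sum_mul_pow_eq_zero (R := ZMod n) (n := n - 1)
      (f := fun i => ((i : ℕ) : ZMod n)) (v := fun i => ((f.coeff (i : ℕ) : ℤ) : ZMod n)) (by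
        intro i j hij
        have := (ZMod.natCast_eq_natCast_iff' _ _ n).1 hij
        rw [Nat.mod_eq_of_lt (by omega), Nat.mod_eq_of_lt (by omega)] at this
        exact Fin.ext this) (by
        intro k
        rw [← Finset.sum_range (fun i => ((f.coeff i : ℤ) : ZMod n) * (i : ZMod n) ^ (k : ℕ))]
        exact hv k k.2)
    have hc : ∀ i < n - 1, (n : ℤ) ∣ f.coeff i := by
      intro i hi
      have := congrFun hz ⟨i, hi⟩
      exact (ZMod.intCast_zmod_eq_zero_iff_dvd _ _).1 this
    rw [hx]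
    refine Finset.dvd_sum fun i hi => ?_
    refine Dvd.dvd.mul_right ?_ _
    have := Int.cast_dvd_cast (α := O n) (n : ℤ) (f.coeff i) (hc i (Finset.mem_range.1 hi))
    rwa [Int.cast_natCast] at this
  · rintro ⟨y, rfl⟩
    rw [map_mul, T_n, zero_mul]

lemma T_eq_iff (x y : O n) : T n x = T n y ↔ (n : O n) ∣ x - y := by
  rw [← T_zero_iff, map_sub, sub_eq_zero]

/-- `n` divides `λ ^ k` for `k ≥ n - 1` -/
lemma n_dvd_lam_pow {k : ℕ} (hk : n - 1 ≤ k) : (n : O n) ∣ lam n ^ k := by
  rw [← T_zero_iff, map_pow]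
  have h1 : ∃ g, Rp n (PowerSeries.X * g) (lam n) := by
    obtain ⟨g, hg⟩ := exists_Rp n (lam n)
    have h2 : PowerSeries.constantCoeff g = 0 := by
      have := c0_lam n
      rw [← hg, c0_mk] at this
      exact this
    obtain ⟨g', rfl⟩ := PowerSeries.X_dvd_iff.2 h2
    exact ⟨g', hg⟩
  obtain ⟨g, hg⟩ := h1
  rw [← hg, ← map_pow, Ideal.Quotient.eq_zero_iff_mem, mem_I]
  intro m hm
  rw [mul_pow]
  exact PowerSeries.X_pow_dvd_iff.1 (Dvd.intro _ rfl) m (by omega)

end Pool.Agent.Helper38.REG
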