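import Mathlib

/-! Project REG, module R: reduction to `x^n + y^n = p^(n-3) z^n`
(general `n`, adapt Pool/Agent/Helper87/F5/Red.lean, which is the case `n = 5`). -/

namespace Pool.Agent.Helper38.REG

private theorem pow_split (n p d : ℕ) (h5 : 5 ≤ n) :
    (p * d) ^ n = p ^ 3 * (p ^ (n - 3) * d ^ n) := by
  rw [mul_pow, ← mul_assoc, ← pow_add, Nat.add_sub_cancel' (le_trans (by norm_num) h5)]

private theorem key (n p : ℕ) (h5 : 5 ≤ n) (hp : p.Prime) (u v w d : ℕ) (huv : Nat.Coprime u v)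
    (huw : Nat.Coprime u w) (hvw : Nat.Coprime v w) (h : u * v * w = p ^ (n - 3) * d ^ n)
    (hpw : p ∣ w) : ∃ x y z : ℕ, u = x ^ n ∧ v = y ^ n ∧ w = p ^ (n - 3) * z ^ n := by
  have hup : Nat.Coprime u p := Nat.Coprime.coprime_dvd_right hpw huw
  have hvp : Nat.Coprime v p := Nat.Coprime.coprime_dvd_right hpw hvw
  have hup3 : Nat.Coprime u (p ^ 3 * w) := (hup.pow_right 3).mul_right huw
  have hvp3 : Nat.Coprime v (p ^ 3 * w) := (hvp.pow_right 3).mul_right hvw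
  have hu : ∃ x, u = x ^ n := by
    refine exists_eq_pow_of_mul_eq_pow (a := u) (b := v * (p ^ 3 * w)) (c := p * d) (k := n) ?_ ?_
    · exact Nat.isUnit_iff.2 (huv.mul_right hup3)
    · calc u * (v * (p ^ 3 * w)) = p ^ 3 * (u * v * w) := by ring
        _ = p ^ 3 * (p ^ (n - 3) * d ^ n) := by rw [h]
        _ = (p * d) ^ n := (pow_split n p d h5).symm
  have hv : ∃ y, v = y ^ n := by
    refine exists_eq_pow_of_mul_eq_pow (a := v) (b := u * (p ^ 3 * w)) (c := p * d) (k := n) ?_ ?_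
    · exact Nat.isUnit_iff.2 (huv.symm.mul_right hvp3)
    · calc v * (u * (p ^ 3 * w)) = p ^ 3 * (u * v * w) := by ring
        _ = p ^ 3 * (p ^ (n - 3) * d ^ n) := by rw [h]
        _ = (p * d) ^ n := (pow_split n p d h5).symm
  have hw : ∃ t, p ^ 3 * w = t ^ n := by
    refine exists_eq_pow_of_mul_eq_pow (a := p ^ 3 * w) (b := u * v) (c := p * d) (k := n) ?_ ?_
    · exact Nat.isUnit_iff.2 (hup3.symm.mul_right hvp3.symm)
    · calc p ^ 3 * w * (u * v) = p ^ 3 * (u * v * w) := by ring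
        _ = p ^ 3 * (p ^ (n - 3) * d ^ n) := by rw [h]
        _ = (p * d) ^ n := (pow_split n p d h5).symm
  obtain ⟨x, hx⟩ := hu
  obtain ⟨y, hy⟩ := hv
  obtain ⟨t, ht⟩ := hw
  have hpt : p ∣ t := by
    refine hp.dvd_of_dvd_pow (n := n) ?_
    rw [← ht]
    exact Dvd.dvd.mul_left hpw _
  obtain ⟨z, rfl⟩ := hpt
  refine ⟨x, y, z, hx, hy, ?_⟩
  have h3 : 0 < p ^ 3 := pow_pos hp.pos 3
  refine Nat.eq_of_mul_eq_mul_left h3 ?_
  rw [ht, pow_split n p z h5]

theorem reduce (n p : ℕ) (hn : n.Prime) (h5 : 5 ≤ n) (hp : p.Prime) (A B C D : ℕ) (hA : 0 < A)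
    (hB : 0 < B) (hD : 0 < D) (h1 : A + B = C) (h2 : A * B * C = D ^ n)
    (hg : Nat.gcd (Nat.gcd A B) C = p) :
    ∃ x y z : ℤ, IsCoprime x y ∧ x ≠ 0 ∧ y ≠ 0 ∧ z ≠ 0 ∧
      x ^ n + y ^ n = (p : ℤ) ^ (n - 3) * z ^ n := by
  have hn0 : n ≠ 0 := hn.ne_zero
  have hnpos : 0 < n := hn.pos
  have hodd : Odd n := hn.odd_of_ne_two (by omega)
  have hgAB : Nat.gcd A B = p := by
    rw [← hg]
    refine (Nat.gcd_eq_left ?_).symm
    rw [← h1]
    exact Nat.dvd_add (Nat.gcd_dvd_left A B) (Nat.gcd_dvd_right A B)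
  have hpA : p ∣ A := hgAB ▸ Nat.gcd_dvd_left A B
  have hpB : p ∣ B := hgAB ▸ Nat.gcd_dvd_right A B
  obtain ⟨a, rfl⟩ := hpA
  obtain ⟨b, rfl⟩ := hpB
  have hp0 : 0 < p := hp.pos
  have ha : 0 < a := by
    rcases Nat.eq_zero_or_pos a with h0 | h0
    · subst h0; simp at hA
    · exact h0
  have hb : 0 < b := by
    rcases Nat.eq_zero_or_pos b with h0 | h0
    · subst h0; simp at hB
    · exact h0
  have hab : Nat.Coprime a b := by
    rw [Nat.gcd_mul_left] at hgAB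
    have : p * Nat.gcd a b = p * 1 := by rw [hgAB, mul_one]
    exact Nat.eq_of_mul_eq_mul_left hp0 this
  obtain rfl : C = p * (a + b) := by rw [← h1]; ring
  have hac : Nat.Coprime a (a + b) := by
    simpa using hab
  have hbc : Nat.Coprime b (a + b) := by
    simpa using hab.symm
  have hpD : p ∣ D := by
    refine hp.dvd_of_dvd_pow (n := n) ?_
    rw [← h2]
    exact Dvd.dvd.mul_left (Dvd.intro _ rfl) _
  obtain ⟨d, rfl⟩ := hpD
  have hmain : a * b * (a + b) = p ^ (n - 3) * d ^ n := by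
    have h3 : 0 < p ^ 3 := pow_pos hp0 3
    refine Nat.eq_of_mul_eq_mul_left h3 ?_
    calc p ^ 3 * (a * b * (a + b)) = p * a * (p * b) * (p * (a + b)) := by ring
      _ = (p * d) ^ n := h2
      _ = p ^ 3 * (p ^ (n - 3) * d ^ n) := pow_split n p d h5
  have hdiv : p ∣ a * b * (a + b) := by
    rw [hmain]
    exact Dvd.dvd.mul_right (dvd_pow_self p (by omega)) _
  have hz : ∀ u x : ℕ, 0 < u → u = x ^ n → x ≠ 0 := by
    intro u x hu hx h0
    rw [hx, h0, zero_pow hn0] at hu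
    exact lt_irrefl _ hu
  have hz' : ∀ u x : ℕ, 0 < u → u = p ^ (n - 3) * x ^ n → x ≠ 0 := by
    intro u x hu hx h0
    rw [hx, h0, zero_pow hn0, mul_zero] at hu
    exact lt_irrefl _ hu
  have hcopr : ∀ x y : ℕ, Nat.Coprime (x ^ n) (y ^ n) → Nat.Coprime x y := by
    intro x y h
    exact (Nat.coprime_pow_left_iff hnpos _ _).1 ((Nat.coprime_pow_right_iff hnpos _ _).1 h)
  rcases (Nat.Prime.dvd_mul hp).1 hdiv with h | h
  · rcases (Nat.Prime.dvd_mul hp).1 h with h | h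
    · -- `p ∣ a`
      obtain ⟨x, y, z, hx, hy, hz1⟩ := key n p h5 hp b (a + b) a d hbc hab.symm hac.symm
        (by rw [← hmain]; ring) h
      have hx0 : x ≠ 0 := hz _ _ hb hx
      have hy0 : y ≠ 0 := hz _ _ (by omega) hy
      have hz0 : z ≠ 0 := hz' _ _ ha hz1
      have hcop : Nat.Coprime y x := by
        refine hcopr _ _ ?_
        rw [← hx, ← hy]
        exact hbc.symm
      refine ⟨(y : ℤ), -(x : ℤ), (z : ℤ), ?_, by exact_mod_cast hy0, ?_, by exact_mod_cast hz0, ?_⟩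
      · exact (Nat.isCoprime_iff_coprime.2 hcop).neg_right
      · exact neg_ne_zero.2 (by exact_mod_cast hx0)
      · have e1 : (b : ℤ) = (x : ℤ) ^ n := by exact_mod_cast hx
        have e2 : (a : ℤ) + b = (y : ℤ) ^ n := by exact_mod_cast hy
        have e3 : (a : ℤ) = (p : ℤ) ^ (n - 3) * (z : ℤ) ^ n := by exact_mod_cast hz1
        rw [← e3, hodd.neg_pow, ← e1, ← e2]
        ring
    · -- `p ∣ b`
      obtain ⟨x, y, z, hx, hy, hz1⟩ := key n p h5 hp a (a + b) b d hac hab hbc.symm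
        (by rw [← hmain]; ring) h
      have hx0 : x ≠ 0 := hz _ _ ha hx
      have hy0 : y ≠ 0 := hz _ _ (by omega) hy
      have hz0 : z ≠ 0 := hz' _ _ hb hz1
      have hcop : Nat.Coprime y x := by
        refine hcopr _ _ ?_
        rw [← hx, ← hy]
        exact hac.symm
      refine ⟨(y : ℤ), -(x : ℤ), (z : ℤ), ?_, by exact_mod_cast hy0, ?_, by exact_mod_cast hz0, ?_⟩
      · exact (Nat.isCoprime_iff_coprime.2 hcop).neg_right
      · exact neg_ne_zero.2 (by exact_mod_cast hx0)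
      · have e1 : (a : ℤ) = (x : ℤ) ^ n := by exact_mod_cast hx
        have e2 : (a : ℤ) + b = (y : ℤ) ^ n := by exact_mod_cast hy
        have e3 : (b : ℤ) = (p : ℤ) ^ (n - 3) * (z : ℤ) ^ n := by exact_mod_cast hz1
        rw [← e3, hodd.neg_pow, ← e1, ← e2]
        ring
  · -- `p ∣ c`
    obtain ⟨x, y, z, hx, hy, hz1⟩ := key n p h5 hp a b (a + b) d hab hac hbc hmain h
    have hx0 : x ≠ 0 := hz _ _ ha hx
    have hy0 : y ≠ 0 := hz _ _ hb hy
    have hz0 : z ≠ 0 := hz' _ _ (by omega) hz1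
    have hcop : Nat.Coprime x y := by
      refine hcopr _ _ ?_
      rw [← hx, ← hy]
      exact hab
    refine ⟨(x : ℤ), (y : ℤ), (z : ℤ), Nat.isCoprime_iff_coprime.2 hcop, by exact_mod_cast hx0,
      by exact_mod_cast hy0, by exact_mod_cast hz0, ?_⟩
    have e1 : (a : ℤ) = (x : ℤ) ^ n := by exact_mod_cast hx
    have e2 : (b : ℤ) = (y : ℤ) ^ n := by exact_mod_cast hy
    have e3 : (a : ℤ) + b = (p : ℤ) ^ (n - 3) * (z : ℤ) ^ n := by exact_mod_cast hz1
    rw [← e3, e1, e2]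

end Pool.Agent.Helper38.REG
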