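import Mathlib

/-! Project REG, module SQ: congruences modulo `n^2`.
BLUEPRINT. `u ≡ v (mod n)` implies `u^n ≡ v^n (mod n^2)` (`Int.ModEq`, `Nat.ModEq.pow_card_sub_one`,
`dvd_sub_pow_of_dvd_sub`), and `u^(n(n-1)) ≡ 1 (mod n^2)` for `u` prime to `n` (Euler).
sq_y: `x^n ≡ p^(n-3) c^n (mod n^2)`; the `(n-1)`-st power gives `p^((n-1)(n-3)) ≡ 1`; also
`p^((n-1) n) ≡ 1`, so `p^(3(n-1)) ≡ 1`, and `p^(n (n-1)) ≡ 1`, `gcd(3, n) = 1`: `p^(n-1) ≡ 1`.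
sq_xy: `2 x^n ≡ p^(n-3) c^n`, the `(n-1)`-st power times `p^(3(n-1))`.
local_q: `x + y ≡ p^(n-3) c ≡ c (mod n)` (`p ≡ 1`), `q ≡ y / (x + y)`, `n + 1 - q ≡ x / (x + y)`,
and `c^n ≡ (x + y)^n (mod n^2)`: divide the equation by `(x + y)^n`. -/

namespace Pool.Agent.Helper38.REG

theorem sq_lift {n : ℕ} {a b : ℤ} (h : a ≡ b [ZMOD (n : ℤ)]) :
    a ^ n ≡ b ^ n [ZMOD (n : ℤ) ^ 2] := by
  have h1 : (n : ℤ) ∣ b - a := h.dvd
  have h2 := dvd_sub_pow_of_dvd_sub h1 1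
  rw [pow_one] at h2
  exact Int.modEq_iff_dvd.2 h2

theorem sq_euler {n : ℕ} [Fact n.Prime] {a : ℤ} (h : ¬ (n : ℤ) ∣ a) :
    a ^ ((n - 1) * n) ≡ 1 [ZMOD (n : ℤ) ^ 2] := by
  have hn : n.Prime := Fact.out
  have hcop : IsCoprime a (n : ℤ) :=
    (((Nat.prime_iff_prime_int.1 hn).coprime_iff_not_dvd).2 h).symm
  have h1 : a ^ (n - 1) ≡ 1 [ZMOD (n : ℤ)] := Int.ModEq.pow_card_sub_one_eq_one hn hcop
  have h2 := sq_lift h1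
  rw [pow_mul]
  simpa using h2

theorem sq_ndvd {n p : ℕ} [Fact n.Prime] (hp : ¬ n ∣ p) {c : ℤ}
    (hc : ¬ (n : ℤ) ∣ c) : ¬ (n : ℤ) ∣ (p : ℤ) ^ (n - 3) * c ^ n := by
  have hn : n.Prime := Fact.out
  have hq := Nat.prime_iff_prime_int.1 hn
  intro hd
  rcases hq.dvd_or_dvd hd with h1 | h1
  · exact hp (Int.natCast_dvd_natCast.1 (hq.dvd_of_dvd_pow h1))
  · exact hc (hq.dvd_of_dvd_pow h1)

theorem sq_y {n p : ℕ} [Fact n.Prime] (h5 : 5 ≤ n) (hp : ¬ n ∣ p) {x y c : ℤ}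
    (hc : ¬ (n : ℤ) ∣ c) (h : x ^ n + y ^ n = (p : ℤ) ^ (n - 3) * c ^ n) (hy : (n : ℤ) ∣ y) :
    p ^ (n - 1) ≡ 1 [MOD n ^ 2] := by
  have hn : n.Prime := Fact.out
  have hpz : ¬ (n : ℤ) ∣ (p : ℤ) := fun hd => hp (Int.natCast_dvd_natCast.1 hd)
  have hx : ¬ (n : ℤ) ∣ x := by
    intro hx
    apply sq_ndvd (n := n) hp hc
    rw [← h]
    exact dvd_add (dvd_pow hx (by omega)) (dvd_pow hy (by omega))
  have hy2 : y ^ n ≡ 0 [ZMOD (n : ℤ) ^ 2] := by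
    have h1 : y ≡ 0 [ZMOD (n : ℤ)] := (Int.modEq_zero_iff_dvd).2 hy
    have h2 := sq_lift h1
    rwa [zero_pow (by omega)] at h2
  have h1 : x ^ n ≡ (p : ℤ) ^ (n - 3) * c ^ n [ZMOD (n : ℤ) ^ 2] := by
    rw [← h]
    have h3 : x ^ n + y ^ n ≡ x ^ n + 0 [ZMOD (n : ℤ) ^ 2] := Int.ModEq.add_left _ hy2
    rw [add_zero] at h3
    exact h3.symm
  have h2 : ((p : ℤ) ^ (n - 1)) ^ (n - 3) ≡ 1 [ZMOD (n : ℤ) ^ 2] := by
    have h3 := h1.pow (n - 1)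
    have h4 : (x ^ n) ^ (n - 1) ≡ 1 [ZMOD (n : ℤ) ^ 2] := by
      have h5' := sq_euler (n := n) hx
      rwa [mul_comm, pow_mul] at h5'
    have h5' : (c ^ n) ^ (n - 1) ≡ 1 [ZMOD (n : ℤ) ^ 2] := by
      have h6 := sq_euler (n := n) hc
      rwa [mul_comm, pow_mul] at h6
    have h6 : ((p : ℤ) ^ (n - 3) * c ^ n) ^ (n - 1) ≡ ((p : ℤ) ^ (n - 1)) ^ (n - 3) * 1
        [ZMOD (n : ℤ) ^ 2] := by
      rw [mul_pow, ← pow_mul, mul_comm (n - 3) (n - 1), pow_mul]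
      exact Int.ModEq.mul_left _ h5'
    rw [mul_one] at h6
    exact (h6.symm.trans h3.symm).trans h4
  have h3 : ((p : ℤ) ^ (n - 1)) ^ n ≡ 1 [ZMOD (n : ℤ) ^ 2] := by
    rw [← pow_mul]
    exact sq_euler (n := n) hpz
  generalize hQ : (p : ℤ) ^ (n - 1) = Q at h2 h3
  have h4 : Q ^ 3 ≡ 1 [ZMOD (n : ℤ) ^ 2] := by
    have h6 : Q ^ n = Q ^ (n - 3) * Q ^ 3 := by
      rw [← pow_add]
      congr 1
      omega
    rw [h6] at h3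
    have h7 : Q ^ (n - 3) * Q ^ 3 ≡ 1 * Q ^ 3 [ZMOD (n : ℤ) ^ 2] := Int.ModEq.mul_right _ h2
    rw [one_mul] at h7
    exact h7.symm.trans h3
  have hmod : n % 3 = 1 ∨ n % 3 = 2 := by
    have h6 : n % 3 ≠ 0 := by
      intro h0
      have h7 : 3 ∣ n := Nat.dvd_of_mod_eq_zero h0
      rcases (Nat.dvd_prime hn).1 h7 with h8 | h8 <;> omega
    omega
  have hdiv : n = 3 * (n / 3) + n % 3 := (Nat.div_add_mod n 3).symm
  have h6 : Q ^ (n % 3) ≡ 1 [ZMOD (n : ℤ) ^ 2] := by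
    have h7 : Q ^ n = (Q ^ 3) ^ (n / 3) * Q ^ (n % 3) := by
      rw [← pow_mul, ← pow_add, ← hdiv]
    have h8 : (Q ^ 3) ^ (n / 3) * Q ^ (n % 3) ≡ 1 ^ (n / 3) * Q ^ (n % 3) [ZMOD (n : ℤ) ^ 2] :=
      Int.ModEq.mul_right _ (h4.pow _)
    rw [one_pow, one_mul] at h8
    rw [h7] at h3
    exact h8.symm.trans h3
  have h7 : Q ≡ 1 [ZMOD (n : ℤ) ^ 2] := by
    rcases hmod with h8 | h8
    · rw [h8, pow_one] at h6
      exact h6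
    · rw [h8] at h6
      have h9 : Q ^ 3 = Q ^ 2 * Q := by ring
      have h10 : Q ^ 2 * Q ≡ 1 * Q [ZMOD (n : ℤ) ^ 2] := Int.ModEq.mul_right _ h6
      rw [one_mul] at h10
      rw [h9] at h4
      exact h10.symm.trans h4
  rw [← hQ] at h7
  have h8 : ((p ^ (n - 1) : ℕ) : ℤ) ≡ ((1 : ℕ) : ℤ) [ZMOD ((n ^ 2 : ℕ) : ℤ)] := by
    push_cast
    exact h7
  exact (Int.natCast_modEq_iff).1 h8

theorem sq_xy {n p : ℕ} [Fact n.Prime] (h5 : 5 ≤ n) (hp : ¬ n ∣ p) {x y c : ℤ}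
    (hc : ¬ (n : ℤ) ∣ c) (h : x ^ n + y ^ n = (p : ℤ) ^ (n - 3) * c ^ n) (hy : (n : ℤ) ∣ x - y) :
    (2 * p ^ 3) ^ (n - 1) ≡ 1 [MOD n ^ 2] := by
  have hn : n.Prime := Fact.out
  have hpz : ¬ (n : ℤ) ∣ (p : ℤ) := fun hd => hp (Int.natCast_dvd_natCast.1 hd)
  have hx : ¬ (n : ℤ) ∣ x := by
    intro hx
    apply sq_ndvd (n := n) hp hc
    rw [← h]
    have hy' : (n : ℤ) ∣ y := by
      have h1 := dvd_sub hx hy
      simpa using h1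
    exact dvd_add (dvd_pow hx (by omega)) (dvd_pow hy' (by omega))
  have hxy : y ^ n ≡ x ^ n [ZMOD (n : ℤ) ^ 2] := sq_lift (Int.modEq_iff_dvd.2 hy)
  have h1 : 2 * x ^ n ≡ (p : ℤ) ^ (n - 3) * c ^ n [ZMOD (n : ℤ) ^ 2] := by
    rw [← h]
    have h3 : x ^ n + y ^ n ≡ x ^ n + x ^ n [ZMOD (n : ℤ) ^ 2] := Int.ModEq.add_left _ hxy
    rw [← two_mul] at h3
    exact h3.symm
  have h4 : (x ^ n) ^ (n - 1) ≡ 1 [ZMOD (n : ℤ) ^ 2] := by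
    have h5' := sq_euler (n := n) hx
    rwa [mul_comm, pow_mul] at h5'
  have h5' : (c ^ n) ^ (n - 1) ≡ 1 [ZMOD (n : ℤ) ^ 2] := by
    have h6 := sq_euler (n := n) hc
    rwa [mul_comm, pow_mul] at h6
  have h2 : (2 : ℤ) ^ (n - 1) ≡ ((p : ℤ) ^ (n - 3)) ^ (n - 1) [ZMOD (n : ℤ) ^ 2] := by
    have h3 := h1.pow (n - 1)
    rw [mul_pow, mul_pow] at h3
    have h6 : (2 : ℤ) ^ (n - 1) * (x ^ n) ^ (n - 1) ≡ 2 ^ (n - 1) * 1 [ZMOD (n : ℤ) ^ 2] :=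
      Int.ModEq.mul_left _ h4
    have h7 : ((p : ℤ) ^ (n - 3)) ^ (n - 1) * (c ^ n) ^ (n - 1) ≡
        ((p : ℤ) ^ (n - 3)) ^ (n - 1) * 1 [ZMOD (n : ℤ) ^ 2] := Int.ModEq.mul_left _ h5'
    rw [mul_one] at h6 h7
    exact (h6.symm.trans h3).trans h7
  have h3 : (2 * (p : ℤ) ^ 3) ^ (n - 1) ≡ 1 [ZMOD (n : ℤ) ^ 2] := by
    rw [mul_pow]
    have h6 : (2 : ℤ) ^ (n - 1) * ((p : ℤ) ^ 3) ^ (n - 1) ≡
        ((p : ℤ) ^ (n - 3)) ^ (n - 1) * ((p : ℤ) ^ 3) ^ (n - 1) [ZMOD (n : ℤ) ^ 2] :=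
      Int.ModEq.mul_right _ h2
    have h7 : ((p : ℤ) ^ (n - 3)) ^ (n - 1) * ((p : ℤ) ^ 3) ^ (n - 1) =
        (p : ℤ) ^ ((n - 1) * n) := by
      rw [← mul_pow, ← pow_add, ← pow_mul]
      congr 1
      rw [Nat.sub_add_cancel (by omega), mul_comm]
    rw [h7] at h6
    exact h6.trans (sq_euler (n := n) hpz)
  have h8 : (((2 * p ^ 3) ^ (n - 1) : ℕ) : ℤ) ≡ ((1 : ℕ) : ℤ) [ZMOD ((n ^ 2 : ℕ) : ℤ)] := by
    push_cast
    exact h3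
  exact (Int.natCast_modEq_iff).1 h8

theorem local_q {n p : ℕ} [Fact n.Prime] (h5 : 5 ≤ n) (hp : p % n = 1) {x y c : ℤ}
    (hc : ¬ (n : ℤ) ∣ c) (h : x ^ n + y ^ n = (p : ℤ) ^ (n - 3) * c ^ n) :
    ((x : ZMod n) + y ≠ 0) ∧ ∃ q : ℕ, q < n ∧ (q : ZMod n) * ((x : ZMod n) + y) = y ∧
      q ^ n + (n + 1 - q) ^ n ≡ p ^ (n - 3) [MOD n ^ 2] := by
  have hn : n.Prime := Fact.out
  have hpz : (p : ZMod n) = 1 := by
    have h1 : (p : ZMod n) = ((p % n : ℕ) : ZMod n) := (ZMod.natCast_mod p n).symm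
    rw [h1, hp, Nat.cast_one]
  have hsum : (x : ZMod n) + y = c := by
    have h1 := congrArg (fun z : ℤ => (z : ZMod n)) h
    simp only [Int.cast_add, Int.cast_pow, Int.cast_mul, Int.cast_natCast, hpz, one_pow,
      one_mul, ZMod.pow_card] at h1
    exact h1
  have hc0 : (c : ZMod n) ≠ 0 := by
    intro h0
    exact hc ((ZMod.intCast_zmod_eq_zero_iff_dvd c n).1 h0)
  have hne : (x : ZMod n) + y ≠ 0 := by rw [hsum]; exact hc0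
  refine ⟨hne, ((y : ZMod n) / ((x : ZMod n) + y)).val, ZMod.val_lt _, ?_, ?_⟩
  · rw [ZMod.natCast_zmod_val, div_mul_cancel₀ _ hne]
  · set q : ℕ := ((y : ZMod n) / ((x : ZMod n) + y)).val with hq
    have hqlt : q < n := ZMod.val_lt _
    have hqz : (q : ZMod n) * ((x : ZMod n) + y) = y := by
      rw [hq, ZMod.natCast_zmod_val, div_mul_cancel₀ _ hne]
    have e1 : (q : ℤ) * (x + y) ≡ y [ZMOD (n : ℤ)] := by
      rw [← ZMod.intCast_eq_intCast_iff]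
      push_cast
      exact hqz
    have e2 : ((n + 1 - q : ℕ) : ℤ) * (x + y) ≡ x [ZMOD (n : ℤ)] := by
      rw [← ZMod.intCast_eq_intCast_iff]
      have h1 : ((n + 1 - q : ℕ) : ℤ) = (n : ℤ) + 1 - q := by
        rw [Nat.cast_sub (by omega)]
        push_cast
        ring
      rw [h1]
      push_cast
      rw [ZMod.natCast_self, zero_add, sub_mul, hqz]
      ring
    have e3 : x + y ≡ c [ZMOD (n : ℤ)] := by
      rw [← ZMod.intCast_eq_intCast_iff]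
      push_cast
      exact hsum
    have f1 := sq_lift e1
    have f2 := sq_lift e2
    have f3 := sq_lift e3
    rw [mul_pow] at f1 f2
    have g1 : ((q : ℤ) ^ n + ((n + 1 - q : ℕ) : ℤ) ^ n) * (x + y) ^ n ≡
        (p : ℤ) ^ (n - 3) * c ^ n [ZMOD (n : ℤ) ^ 2] := by
      rw [← h, add_mul, add_comm (x ^ n) (y ^ n)]
      exact f1.add f2
    have g2 : ((q : ℤ) ^ n + ((n + 1 - q : ℕ) : ℤ) ^ n) * c ^ n ≡
        (p : ℤ) ^ (n - 3) * c ^ n [ZMOD (n : ℤ) ^ 2] :=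
      (Int.ModEq.mul_left _ f3.symm).trans g1
    have hcop : IsCoprime ((n : ℤ) ^ 2) (c ^ n) := by
      apply IsCoprime.pow
      exact ((Nat.prime_iff_prime_int.1 hn).coprime_iff_not_dvd).2 hc
    have g3 : (q : ℤ) ^ n + ((n + 1 - q : ℕ) : ℤ) ^ n ≡ (p : ℤ) ^ (n - 3) [ZMOD (n : ℤ) ^ 2] := by
      apply Int.modEq_iff_dvd.2
      have h1 := g2.dvd
      rw [← sub_mul] at h1
      exact hcop.dvd_of_dvd_mul_right h1
    have h8 : ((q ^ n + (n + 1 - q) ^ n : ℕ) : ℤ) ≡ ((p ^ (n - 3) : ℕ) : ℤ)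
        [ZMOD ((n ^ 2 : ℕ) : ℤ)] := by
      rw [Nat.cast_add, Nat.cast_pow, Nat.cast_pow, Nat.cast_pow, Nat.cast_pow]
      exact g3
    exact (Int.natCast_modEq_iff).1 h8

end Pool.Agent.Helper38.REG
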