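import Pool.Agent.Helper38.REG.Fac
import Pool.Agent.Helper38.REG.JacD
import Pool.Agent.Helper38.REG.JacC
import Pool.Agent.Helper38.REG.Sq

/-! Project REG, module S1, general form (supersedes `s_one` of SOne.lean): the case `p ∤ x + y` for
`p ≡ 1 (mod n)`, with all odd invariants. Here `w = - x / y` in `ZMod p` is a primitive `n`-th root
of unity.
BLUEPRINT. L_J_Gs: `L_eq` with `Rp_J` (`b = 1`). L_lin: `x + z y` is represented by
`C x + C y * E = C (x + y) * Hs q` (compare coefficients, `q (x + y) = y`), `ld (C a * H) = ld H`.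
s_one_gen: `tk h a (ff i) = x + w^(a i) y = y (w^(a i) - w)`, so `ff 1 ∈ pk h a` iff `a = 1`; hence in
`fac_int` the set `{P | d P = 1}` is `{pk h 1}` and `π^3 (x + z y) = u r^n`; for odd `r ≥ 3`
`3 L r π + L r (x + z y) = 0` (`unit_odd`, `L_pown`; the `r` of `r^n` is ok since the left side is).
Multiply by `hh n r`: `3 L r J + hh n r * L r (x + z y) = 0` (`L_J_hh`), and cancel `(r-1)!`
(`fac_ne`). `q` comes from `local_q`. `q = 0` or `q = 1` would give
`L r (x + z y) = 0` for all odd `r` (`T (x + z y)` is `x`, resp. `y T(z)`), so `L r π = 0` for all odd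
`r ≥ 3`, against `exists_odd`. -/

namespace Pool.Agent.Helper38.REG

open NumberField Finset

variable {n : ℕ} [hn : Fact n.Prime] {p : ℕ} [Fact p.Prime] {m : ℕ} {w : ZMod p}

/-- the series of the Jacobi sum -/
noncomputable def Gs (h : QD n p m w) : PowerSeries (ZMod n) :=
  PowerSeries.mk fun k => if k = 0 then -1 else M h 1 k * (((k.factorial : ℕ) : ZMod n))⁻¹

/-- the series `1 + q (E - 1)` -/
noncomputable def Hs (q : ZMod n) : PowerSeries (ZMod n) :=
  PowerSeries.mk fun k => if k = 0 then 1 else q * (((k.factorial : ℕ) : ZMod n))⁻¹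

private lemma Rp_lin (x y : ℤ) :
    Rp n (PowerSeries.C (x : ZMod n) + E n * PowerSeries.C (y : ZMod n)) ((x : O n) + z n * y) :=
  (Rp.int x).add (Rp.z.mul (Rp.int y))

private lemma cc_lin (x y : ℤ) : PowerSeries.constantCoeff
    (PowerSeries.C (x : ZMod n) + E n * PowerSeries.C (y : ZMod n)) = (x : ZMod n) + y := by
  rw [map_add, map_mul, constantCoeff_E, PowerSeries.constantCoeff_C, PowerSeries.constantCoeff_C,
    one_mul]

private lemma ok_lin {x y : ℤ} (hs : (x : ZMod n) + y ≠ 0) : ok n ((x : O n) + z n * y) :=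
  (ok_Rp n (Rp_lin x y)).2 (by rw [cc_lin]; exact hs)

private lemma three_ne (h5 : 5 ≤ n) : (3 : ZMod n) ≠ 0 := by
  have := fac_ne n (k := 3) (by omega)
  intro h
  apply this
  have e : ((Nat.factorial 3 : ℕ) : ZMod n) = 2 * 3 := by
    rw [show Nat.factorial 3 = 6 from rfl]; norm_num
  rw [e, h, mul_zero]

theorem L_J_Gs (h : QD n p m w) {r : ℕ} (h1 : 1 ≤ r) (h2 : r ≤ n - 2) :
    L n r (J h 1) = (((r - 1).factorial : ℕ) : ZMod n) *
      PowerSeries.coeff (r - 1) (ld n (Gs h)) := by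
  rw [L_eq n h1 h2 (Rp_J h le_rfl) ((ok_Rp n (Rp_J h le_rfl)).1 (ok_J h le_rfl))]
  rw [Gs]
  congr! 6
  rw [Nat.cast_one]

theorem L_lin {x y : ℤ} {q : ZMod n} (hs : (x : ZMod n) + y ≠ 0)
    (hq : q * ((x : ZMod n) + y) = y) {r : ℕ} (h1 : 1 ≤ r) (h2 : r ≤ n - 2) :
    L n r ((x : O n) + z n * y) = (((r - 1).factorial : ℕ) : ZMod n) *
      PowerSeries.coeff (r - 1) (ld n (Hs q)) := by
  have e : PowerSeries.C (x : ZMod n) + E n * PowerSeries.C (y : ZMod n) =
      PowerSeries.C ((x : ZMod n) + y) * Hs q := by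
    ext k
    rw [map_add, PowerSeries.coeff_mul_C, coeff_E, PowerSeries.coeff_C, PowerSeries.coeff_C_mul,
      Hs, PowerSeries.coeff_mk]
    by_cases hk : k = 0
    · subst hk
      simp
    · rw [if_neg hk, if_neg hk, zero_add, ← mul_assoc, mul_comm _ q, hq, mul_comm]
  have hH : PowerSeries.constantCoeff (Hs q : PowerSeries (ZMod n)) ≠ 0 := by
    rw [← PowerSeries.coeff_zero_eq_constantCoeff_apply, Hs, PowerSeries.coeff_mk, if_pos rfl]
    exact one_ne_zero
  have hC : PowerSeries.constantCoeff (PowerSeries.C ((x : ZMod n) + y)) ≠ 0 := by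
    rw [PowerSeries.constantCoeff_C]; exact hs
  have hldC : ld n (PowerSeries.C ((x : ZMod n) + y)) = 0 := by
    unfold ld
    rw [PowerSeries.derivative_C, zero_mul]
  rw [L_eq n h1 h2 (Rp_lin x y) (by rw [cc_lin]; exact hs), e, ld_mul n hC hH, hldC, zero_add]

theorem s_one_gen (h5 : 5 ≤ n) (h1 : Reg1 n) (h : QD n p m w) (hB1 : B1 n p m)
    {x y c : ℤ} (hxy : IsCoprime x y) (hc : ¬ (n : ℤ) ∣ c)
    (he : x ^ n + y ^ n = (p : ℤ) ^ (n - 3) * c ^ n) (hs : (x : ZMod p) + w * y = 0) :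
    ∃ q : ℕ, 2 ≤ q ∧ q < n ∧ q ^ n + (n + 1 - q) ^ n ≡ p ^ (n - 3) [MOD n ^ 2] ∧
      ∀ r, Odd r → 3 ≤ r → r ≤ n - 2 →
        3 * PowerSeries.coeff (r - 1) (ld n (Gs h)) +
          hh n r * PowerSeries.coeff (r - 1) (ld n (Hs (q : ZMod n))) = 0 := by
  have hp := (Fact.out : p.Prime)
  have hpn := pk_ne h
  have hp1 : p % n = 1 := by
    have h2 := h.hm
    have h3 := hp.two_le
    have h4 : p = 1 + n * m := by omega
    rw [h4, Nat.add_mul_mod_self_left, Nat.mod_eq_of_lt (by omega)]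
  obtain ⟨hxyn, q, hqn, hq, hcong⟩ := local_q h5 hp1 hc he
  obtain ⟨d, hd, hfac⟩ := fac_int n h5 h1 hp hpn hxy hc he
  -- `y` is not divisible by `p`
  have hy0 : (y : ZMod p) ≠ 0 := by
    intro h0
    rw [h0, mul_zero, add_zero] at hs
    have d1 := (ZMod.intCast_zmod_eq_zero_iff_dvd _ _).1 hs
    have d2 := (ZMod.intCast_zmod_eq_zero_iff_dvd _ _).1 h0
    have d3 := hxy.isUnit_of_dvd' d1 d2
    rw [Int.isUnit_iff] at d3
    have := hp.two_le
    omega
  have hmem1 : pk h 1 ∈ PP n p := (mem_PP_iff h).2 ⟨1, rfl⟩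
  have hone : (1 : ZMod n).val = 1 := by
    rw [ZMod.val_one_eq_one_mod, Nat.mod_eq_of_lt (by omega)]
  have hff : ff n x y 1 = (x : O n) + z n * y := by
    unfold ff
    rw [hone, pow_one]
  have hfil : (PP n p).filter (fun P => d P = 1) = {pk h 1} := by
    ext P
    rw [mem_filter, mem_singleton]
    constructor
    · rintro ⟨hP, hdP⟩
      obtain ⟨a, rfl⟩ := (mem_PP_iff h).1 hP
      have h2 := (hd _ hP 1).2 hdP.symm
      rw [hff, mem_pk, map_add, map_mul, tk_z, map_intCast, map_intCast] at h2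
      have h3 : w ^ (a : ZMod n).val = w ^ 1 := by
        rw [pow_one]
        apply mul_right_cancel₀ hy0
        linear_combination h2 - hs
      rw [h.pow_eq_iff, ZMod.natCast_zmod_val, Nat.cast_one] at h3
      have h4 : a = 1 := Units.ext h3
      rw [h4]
    · rintro rfl
      refine ⟨hmem1, ?_⟩
      symm
      rw [← hd _ hmem1 1, hff, mem_pk, map_add, map_mul, tk_z, map_intCast, map_intCast,
        Units.val_one, hone, pow_one]
      exact hs
  obtain ⟨u, r, hu, hur⟩ := hfac 1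
  rw [hfil, prod_singleton, hff] at hur
  have okπ := ok_pi n h1 hp hpn hmem1
  have okl := ok_lin (n := n) hxyn
  have okr : ok n r := by
    have h2 : ok n (u * r ^ n) := by
      rw [← hur, ok_mul]
      exact ⟨ok_pow n okπ 3, okl⟩
    rw [ok_mul] at h2
    intro h3
    exact h2.2 (dvd_pow h3 hn.out.ne_zero)
  have key : ∀ s, Odd s → 3 ≤ s → s ≤ n - 2 →
      3 * L n s (pi n (pk h 1)) + L n s ((x : O n) + z n * y) = 0 := by
    intro s hs1 hs2 hs3
    have h2 := congrArg (L n s) hur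
    rw [L_mul n (by omega) hs3 (ok_pow n okπ 3) okl, L_pow n (by omega) hs3 okπ,
      L_mul n (by omega) hs3 (ok_unit n hu) (ok_pow n okr n), L_pown n (by omega) hs3 okr,
      unit_odd n hs1 hs2 hs3 hu, add_zero] at h2
    simpa using h2
  -- the exceptional values of `q`
  have hexc : ¬ ∀ s, Odd s → 3 ≤ s → s ≤ n - 2 → L n s ((x : O n) + z n * y) = 0 := by
    intro h0
    obtain ⟨s, hs1, hs2, hs3, hs4⟩ := exists_odd h5 h1 h hB1
    have h2 := key s hs1 hs2 hs3
    rw [h0 s hs1 hs2 hs3, add_zero] at h2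
    rcases mul_eq_zero.1 h2 with h3 | h3
    · exact three_ne h5 h3
    · exact hs4 h3
  have hq2 : 2 ≤ q := by
    by_contra hlt
    apply hexc
    intro s hs1 hs2 hs3
    have hcases : q = 0 ∨ q = 1 := by omega
    rcases hcases with rfl | rfl
    · rw [Nat.cast_zero, zero_mul] at hq
      have hx : ¬ (n : ℤ) ∣ x := by
        intro h2
        apply hxyn
        rw [← hq, add_zero]
        exact (ZMod.intCast_zmod_eq_zero_iff_dvd _ _).2 h2
      have h2 : T n ((x : O n) + z n * y) = T n (x : O n) := by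
        rw [map_add, map_mul, T_int n y, ← hq, map_zero, map_zero, mul_zero, add_zero]
      rw [L_T n h2]
      exact L_int n (by omega) hs3 hx
    · rw [Nat.cast_one, one_mul] at hq
      have hx : (x : ZMod n) = 0 := by linear_combination hq
      have hy : ¬ (n : ℤ) ∣ y := by
        intro h2
        apply hxyn
        rw [hx, zero_add]
        exact (ZMod.intCast_zmod_eq_zero_iff_dvd _ _).2 h2
      have h2 : T n ((x : O n) + z n * y) = T n (z n * y) := by
        rw [map_add, T_int n x, hx, map_zero, map_zero, zero_add]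
      rw [L_T n h2, L_mul n (by omega) hs3 (ok_z n) ((ok_int n).2 hy), L_z n (by omega) hs3,
        L_int n (by omega) hs3 hy, add_zero]
  refine ⟨q, hq2, hqn, hcong, ?_⟩
  intro r hr1 hr3 hr2
  have h2 := key r hr1 hr3 hr2
  have h3 := L_J_hh h5 h1 h hr1 hr3 hr2
  rw [L_lin hxyn hq (by omega) hr2] at h2
  rw [L_J_Gs h (by omega) hr2] at h3
  have h4 := fac_ne n (k := r - 1) (by omega)
  apply mul_left_cancel₀ h4
  linear_combination (3 : ZMod n) * h3 + hh n r * h2

end Pool.Agent.Helper38.REG
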