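import Pool.Agent.Helper38.REG.Fac
import Pool.Agent.Helper38.REG.JacD
import Pool.Agent.Helper38.REG.Sq

/-! Project REG, module S0: the case `p ∣ x + y` for `p ≡ 1 (mod n)`.
BLUEPRINT. By `fac_int`, `mem_PP_iff` and `tk h a (x + y) = 0` all `d P = 0`, so
`x + z y = u r^n` (empty product), and `kummer_cong` applies. Apply `tk h a` for a unit `a`
(`v = w^a` runs through all primitive `n`-th roots of unity): `x + v y = - y (1 - v)` because
`x = - y` in `ZMod p` (and `y ≠ 0` in `ZMod p` because `x`, `y` are coprime).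
In the first case `ind y + ind (1 - v) = 0` (`ind_pown`), so `ind ((1-v)(1-v⁻¹)) = -2 ind y` for all
`v`, contradiction to `B1` (`QD.ind_eq_iff`). In the second case
`ind y + ind (1 - v) = ind v`, again `ind ((1-v)(1-v⁻¹)) = -2 ind y`. In the third case
`ind y + ind (1 - v) = ind (1 + v)`, so `ind ((1+v)/(1-v)) = ind y` for all `v`, i.e. `B2` fails,
and `sq_xy` gives the congruence. -/

namespace Pool.Agent.Helper38.REG

open NumberField Finset

variable {n : ℕ} [hn : Fact n.Prime] {p : ℕ} [Fact p.Prime] {m : ℕ} {w : ZMod p}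

/-- the second condition on `p` -/
def B2 (n p m : ℕ) [Fact p.Prime] : Prop := ∃ v w : ZMod p, IsPrimitiveRoot v n ∧
  IsPrimitiveRoot w n ∧ ((1 + v) / (1 - v)) ^ m ≠ ((1 + w) / (1 - w)) ^ m

/-- every primitive root is a power `w ^ a` -/
lemma s0_root (h : QD n p m w) {v : ZMod p} (hv : IsPrimitiveRoot v n) :
    ∃ a : (ZMod n)ˣ, v = w ^ (a : ZMod n).val := by
  have hne : NeZero n := ⟨hn.out.ne_zero⟩
  obtain ⟨i, hi, hie⟩ := h.hw.eq_pow_of_pow_eq_one hv.pow_eq_one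
  have hi0 : (i : ZMod n) ≠ 0 := by
    intro h0
    have h1 : n ∣ i := (ZMod.natCast_eq_zero_iff i n).1 h0
    have h2 : i = 0 := Nat.eq_zero_of_dvd_of_lt h1 hi
    rw [h2, pow_zero] at hie
    exact hv.ne_one hn.out.one_lt hie.symm
  refine ⟨Units.mk0 (i : ZMod n) hi0, ?_⟩
  rw [Units.val_mk0, ZMod.val_cast_of_lt hi, hie]

lemma s0_one_sub {v : ZMod p} (hv : IsPrimitiveRoot v n) : 1 - v ≠ 0 := by
  intro h0
  exact hv.ne_one hn.out.one_lt (sub_eq_zero.1 h0).symm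

/-- the value of `x + z y` under `tk h a` when `x + y = 0` in `ZMod p` -/
lemma s0_tk (h : QD n p m w) {x y : ℤ} (hs : (x : ZMod p) + y = 0) (a : (ZMod n)ˣ) :
    tk h a ((x : O n) + z n * y) = - ((y : ZMod p) * (1 - w ^ (a : ZMod n).val)) := by
  rw [map_add, map_mul, tk_z, map_intCast, map_intCast]
  linear_combination hs

lemma s0_y_ne {x y : ℤ} (hxy : IsCoprime x y) (hs : (x : ZMod p) + y = 0) :
    (y : ZMod p) ≠ 0 := by
  intro hy
  rw [hy, add_zero] at hs
  obtain ⟨a, b, hab⟩ := hxy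
  have h1 := congrArg (Int.cast : ℤ → ZMod p) hab
  push_cast at h1
  rw [hs, hy, mul_zero, mul_zero, add_zero] at h1
  exact zero_ne_one h1

/-- the comparison of indices -/
lemma s0_ind (h : QD n p m w) {x y : ℤ} (hxy : IsCoprime x y) (hs : (x : ZMod p) + y = 0)
    {e v0 : O n} (he : (x : O n) + z n * y = e * v0 ^ n) (a : (ZMod n)ˣ) :
    tk h a e ≠ 0 ∧
    ind n w m (y : ZMod p) + ind n w m (1 - w ^ (a : ZMod n).val) = ind n w m (tk h a e) := by
  have hy := s0_y_ne hxy hs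
  have ha : ¬ n ∣ (a : ZMod n).val := by
    intro h0
    have hne : NeZero n := ⟨hn.out.ne_zero⟩
    have h1 : (a : ZMod n).val = 0 := Nat.eq_zero_of_dvd_of_lt h0 (ZMod.val_lt _)
    exact a.ne_zero ((ZMod.val_eq_zero _).1 h1)
  have h1 := h.one_sub_ne ha
  have h2 := congrArg (tk h a) he
  rw [s0_tk h hs, map_mul, map_pow] at h2
  have h3 : tk h a e * tk h a v0 ^ n ≠ 0 := by
    rw [← h2]
    exact neg_ne_zero.2 (mul_ne_zero hy h1)
  have h4 := left_ne_zero_of_mul h3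
  have h5 := right_ne_zero_of_mul h3
  refine ⟨h4, ?_⟩
  rw [← h.ind_mul hy h1, ← h.ind_neg, h2, h.ind_mul h4 h5, h.ind_pown, add_zero]

/-- the product `(1 - v) (1 - v⁻¹)` has constant index: contradiction to `B1` -/
lemma s0_no_B1 (h : QD n p m w) (hB1 : B1 n p m) {c κ : ZMod n}
    (hk : ∀ v : ZMod p, IsPrimitiveRoot v n →
      c + ind n w m (1 - v) = κ * ind n w m v) : False := by
  obtain ⟨v, v', hv, hv', hne⟩ := hB1
  have key : ∀ v : ZMod p, IsPrimitiveRoot v n →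
      (1 - v) * (1 - v⁻¹) ≠ 0 ∧ ind n w m ((1 - v) * (1 - v⁻¹)) = - (2 * c) := by
    intro v hv
    have e1 := s0_one_sub hv
    have e2 := s0_one_sub hv.inv
    refine ⟨mul_ne_zero e1 e2, ?_⟩
    rw [h.ind_mul e1 e2]
    have h1 := hk v hv
    have h2 := hk v⁻¹ hv.inv
    rw [h.ind_inv] at h2
    linear_combination h1 + h2
  obtain ⟨k1, k2⟩ := key v hv
  obtain ⟨k3, k4⟩ := key v' hv'
  exact hne ((h.ind_eq_iff k1 k3).1 (k2.trans k4.symm))

theorem s_zero (h5 : 5 ≤ n) (h1 : Reg1 n) (hKL : KL n) (h : QD n p m w) (hB1 : B1 n p m)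
    {x y c : ℤ} (hxy : IsCoprime x y) (hc : ¬ (n : ℤ) ∣ c)
    (he : x ^ n + y ^ n = (p : ℤ) ^ (n - 3) * c ^ n) (hs : (p : ℤ) ∣ x + y) :
    ¬ B2 n p m ∧ (2 * p ^ 3) ^ (n - 1) ≡ 1 [MOD n ^ 2] := by
  have hp : p.Prime := Fact.out
  have hpn : p ≠ n := pk_ne h
  have hs0 : (x : ZMod p) + y = 0 := by
    have h0 := (ZMod.intCast_zmod_eq_zero_iff_dvd (x + y) p).2 hs
    push_cast at h0
    exact h0
  obtain ⟨d, hd, hfac⟩ := fac_int n h5 h1 hp hpn hxy hc he
  have hd0 : ∀ P ∈ PP n p, d P = 0 := by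
    intro P hP
    obtain ⟨a, rfl⟩ := (mem_PP_iff h).1 hP
    refine ((hd _ hP 0).1 ?_).symm
    rw [mem_pk]
    unfold ff
    rw [ZMod.val_zero, pow_zero, one_mul, map_add, map_intCast, map_intCast]
    exact hs0
  have hone : (1 : ZMod n).val = 1 := by
    have : Fact (1 < n) := ⟨hn.out.one_lt⟩
    exact ZMod.val_one n
  obtain ⟨u, r, hu, hur⟩ := hfac 1
  have hempty : (PP n p).filter (fun P => d P = 1) = ∅ := by
    rw [Finset.filter_eq_empty_iff]
    intro P hP h0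
    rw [hd0 P hP] at h0
    exact zero_ne_one h0
  rw [hempty, Finset.prod_empty, one_pow, one_mul] at hur
  unfold ff at hur
  rw [hone, pow_one] at hur
  have hsn := ok_sum n h5 hp hpn hc he
  rcases kummer_cong n h5 hKL hsn hu hur with ⟨_, v0, hv0⟩ | ⟨_, v0, hv0⟩ | ⟨hxy', v0, hv0⟩
  · exfalso
    refine s0_no_B1 h hB1 (c := ind n w m (y : ZMod p)) (κ := 0) ?_
    intro v hv
    obtain ⟨a, rfl⟩ := s0_root h hv
    have h2 := (s0_ind h hxy hs0 (e := 1) (v0 := v0) (by rw [one_mul]; exact hv0) a).2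
    rw [map_one, h.ind_one] at h2
    rw [h2, zero_mul]
  · exfalso
    refine s0_no_B1 h hB1 (c := ind n w m (y : ZMod p)) (κ := 1) ?_
    intro v hv
    obtain ⟨a, rfl⟩ := s0_root h hv
    have h2 := (s0_ind h hxy hs0 hv0 a).2
    rw [tk_z] at h2
    rw [h2, one_mul]
  · constructor
    · rintro ⟨v, v', hv, hv', hne⟩
      have key : ∀ v : ZMod p, IsPrimitiveRoot v n →
          (1 + v) / (1 - v) ≠ 0 ∧ ind n w m ((1 + v) / (1 - v)) = ind n w m (y : ZMod p) := by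
        intro v hv
        have e1 := s0_one_sub hv
        obtain ⟨a, rfl⟩ := s0_root h hv
        obtain ⟨e2, e3⟩ := s0_ind h hxy hs0 hv0 a
        rw [map_add, map_one, tk_z] at e2 e3
        refine ⟨div_ne_zero e2 e1, ?_⟩
        rw [div_eq_mul_inv, h.ind_mul e2 (inv_ne_zero e1), h.ind_inv, ← e3]
        ring
      obtain ⟨k1, k2⟩ := key v hv
      obtain ⟨k3, k4⟩ := key v' hv'
      exact hne ((h.ind_eq_iff k1 k3).1 (k2.trans k4.symm))
    · refine sq_xy h5 ?_ hc he hxy'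
      intro h0
      exact hpn ((Nat.prime_dvd_prime_iff_eq hn.out hp).1 h0).symm

end Pool.Agent.Helper38.REG
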