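import Pool.Agent.Helper38.REG.CaseOne
import Pool.Agent.Helper38.REG.SZero
import Pool.Agent.Helper38.REG.SGen
import Pool.Agent.Helper38.REG.Bern
import Pool.Agent.Helper38.REG.Kummer
import Pool.Agent.Helper38.REG.Red

/-! Project REG: main theorem (helper38). -/

namespace Pool.Agent.Helper38.REG

open NumberField Finset

section
variable (n : ℕ) [hn : Fact n.Prime]

theorem KL_of (h5 : 5 ≤ n) (h2 : Reg2 n) : KL n :=
  kummer n h5 (fun _ hr h2r h3r => exists_unit n h2 hr h2r h3r)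

/-- some `1 - v`, `v` of order `n`, is not an `n`-th power in some finite field of
characteristic `p` -/
def E1 (n p : ℕ) : Prop := ∃ (F : Type) (_ : Field F) (_ : Finite F) (_ : CharP F p) (v : F),
  IsPrimitiveRoot v n ∧ ∀ a : F, a ^ n ≠ 1 - v

/-- some `(1 + v) / (1 - v)`, `v` of order `n`, is not an `n`-th power in some finite field of
characteristic `p` -/
def E2 (n p : ℕ) : Prop := ∃ (F : Type) (_ : Field F) (_ : Finite F) (_ : CharP F p) (v : F),
  IsPrimitiveRoot v n ∧ ∀ a : F, a ^ n ≠ (1 + v) / (1 - v)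

/-- integers are `n`-th powers in a field of characteristic `p`, `p ≢ 1 (mod n)` -/
lemma int_pow {p : ℕ} (hp : p.Prime) (hp1 : p % n ≠ 1) {F : Type} [Field F] [CharP F p]
    {y : ℤ} (hy : ¬ (p : ℤ) ∣ y) : ∃ c : F, c ≠ 0 ∧ c ^ n = (y : F) := by
  have hf : Fact p.Prime := ⟨hp⟩
  have hyz : (y : ZMod p) ≠ 0 := by
    rwa [Ne, ZMod.intCast_zmod_eq_zero_iff_dvd]
  have h7 : Nat.Coprime n (p - 1) := by
    rw [Nat.Prime.coprime_iff_not_dvd hn.out]
    rintro ⟨q, hq⟩
    apply hp1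
    have : p = 1 + n * q := by have := hp.two_le; omega
    rw [this, Nat.add_mul_mod_self_left, Nat.mod_eq_of_lt hn.out.one_lt]
  obtain ⟨a, b, hab⟩ := Nat.isCoprime_iff_coprime.2 h7
  have h1 : ((y : ZMod p) ^ a) ^ n = (y : ZMod p) := by
    have h2 : ((y : ZMod p) ^ (p - 1)) = 1 := ZMod.pow_card_sub_one_eq_one hyz
    have h3 : (y : ZMod p) ^ ((a * n + b * ((p - 1 : ℕ) : ℤ))) = y := by
      rw [hab, zpow_one]
    rw [zpow_add₀ hyz, zpow_mul, mul_comm b, zpow_mul, zpow_natCast, zpow_natCast, h2, one_zpow,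
      mul_one] at h3
    exact h3
  refine ⟨ZMod.castHom dvd_rfl F ((y : ZMod p) ^ a), ?_, ?_⟩
  · exact (map_ne_zero _).2 (zpow_ne_zero _ hyz)
  · rw [← map_pow, h1, map_intCast]

/-- the case `p ≢ 1 (mod n)` -/
theorem case_b (h5 : 5 ≤ n) (h1 : Reg1 n) (h2 : Reg2 n) {p : ℕ} (hp : p.Prime) (hpn : p ≠ n)
    (hp1 : p % n ≠ 1) (hA : ¬ p ^ (n - 1) ≡ 1 [MOD n ^ 2] ∨ E1 n p)
    (hB : ¬ (2 * p ^ 3) ^ (n - 1) ≡ 1 [MOD n ^ 2] ∨ E2 n p) {x y c : ℤ} (hxy : IsCoprime x y)
    (hc0 : c ≠ 0) (h : x ^ n + y ^ n = (p : ℤ) ^ (n - 3) * c ^ n) : False := by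
  classical
  have : Fact p.Prime := ⟨hp⟩
  have hKL := KL_of n h5 h2
  by_cases hc : (n : ℤ) ∣ c
  · refine case_one n h5 h1 hKL hp hpn ?_ hxy hc0 hc h
    intro S hS
    exact noObs_small h5 ((card_le_card hS).trans (card_PP' n h5 hp hpn hp1))
  -- `p ∣ x + y`
  have hnp : ¬ n ∣ p := by
    intro h0
    exact hpn ((Nat.prime_dvd_prime_iff_eq hn.out hp).1 h0).symm
  have hyp : (y : ZMod p) ≠ 0 := by
    intro h0
    have h3 := congrArg (Int.cast : ℤ → ZMod p) h
    push_cast at h3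
    rw [h0, zero_pow hn.out.ne_zero, add_zero, ZMod.natCast_self, zero_pow (by omega),
      zero_mul] at h3
    have h4 := eq_zero_of_pow_eq_zero h3
    rw [ZMod.intCast_zmod_eq_zero_iff_dvd] at h0 h4
    have := hxy.isUnit_of_dvd' h4 h0
    rw [Int.isUnit_iff] at this
    have h2 := hp.two_le
    omega
  have hxy0 : (x : ZMod p) + y = 0 := by
    have h3 := congrArg (Int.cast : ℤ → ZMod p) h
    push_cast at h3
    rw [ZMod.natCast_self, zero_pow (by omega), zero_mul] at h3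
    have h4 : (-(x : ZMod p) / y) ^ n = 1 := by
      rw [div_pow, (n_odd n h5).neg_pow, div_eq_one_iff_eq (pow_ne_zero _ hyp)]
      linear_combination -h3
    have h5' : (-(x : ZMod p) / y) ≠ 0 := by
      intro h0
      rw [h0, zero_pow hn.out.ne_zero] at h4
      exact zero_ne_one h4
    have h6 := ZMod.pow_card_sub_one_eq_one h5'
    have h7 : Nat.Coprime n (p - 1) := by
      rw [Nat.Prime.coprime_iff_not_dvd hn.out]
      rintro ⟨q, hq⟩
      apply hp1
      have : p = 1 + n * q := by have := hp.two_le; omega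
      rw [this, Nat.add_mul_mod_self_left, Nat.mod_eq_of_lt hn.out.one_lt]
    have h8 : (-(x : ZMod p) / y) ^ (Nat.gcd n (p - 1)) = 1 := pow_gcd_eq_one.2 ⟨h4, h6⟩
    rw [h7, pow_one, div_eq_one_iff_eq hyp] at h8
    linear_combination -h8
  obtain ⟨d, hd, hsp⟩ := fac_int n h5 h1 hp hpn hxy hc h
  have hd0 : ∀ P ∈ PP n p, d P = 0 := by
    intro P hP
    refine ((hd P hP 0).1 ?_).symm
    have hpP := ((mem_PP n hp).1 hP).2
    rw [← Int.cast_add, ZMod.intCast_zmod_eq_zero_iff_dvd] at hxy0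
    obtain ⟨q, hq⟩ := hxy0
    have : ff n x y 0 = (p : O n) * (q : O n) := by
      unfold ff
      rw [ZMod.val_zero, pow_zero, one_mul]
      exact_mod_cast congrArg (Int.cast : ℤ → O n) hq
    rw [this]
    exact P.mul_mem_right _ hpP
  obtain ⟨u, r, hu, hur⟩ := hsp 1
  have hem : (PP n p).filter (fun P => d P = 1) = ∅ := by
    apply filter_eq_empty_iff.2
    intro P hP
    rw [hd0 P hP]
    exact zero_ne_one
  rw [hem, prod_empty, one_pow, one_mul] at hur
  have h1v : ((1 : ZMod n)).val = 1 := by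
    have : Fact (1 < n) := ⟨hn.out.one_lt⟩
    exact ZMod.val_one n
  have hff : ff n x y 1 = (x : O n) + z n * y := by
    unfold ff
    rw [h1v, pow_one]
  rw [hff] at hur
  -- reduction to a finite field of characteristic `p`
  have hpxy : (p : ℤ) ∣ x + y := by
    rw [← ZMod.intCast_zmod_eq_zero_iff_dvd]
    push_cast
    exact hxy0
  have hpy : ¬ (p : ℤ) ∣ y := by
    rwa [← ZMod.intCast_zmod_eq_zero_iff_dvd]
  have hxF : ∀ (F : Type) [Field F] [CharP F p], (x : F) = - (y : F) := by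
    intro F _ _
    have h3 : ((x + y : ℤ) : F) = 0 := (CharP.intCast_eq_zero_iff F p _).2 hpxy
    push_cast at h3
    linear_combination h3
  rcases kummer_cong n h5 hKL (ok_sum n h5 hp hpn hc h) hu hur with
    ⟨h3, v, hv⟩ | ⟨h3, v, hv⟩ | ⟨h3, v, hv⟩
  · rcases hA with hA | ⟨F, _, _, _, t, ht, hta⟩
    · exact hA (sq_y h5 hnp hc h h3)
    · obtain ⟨s, hs0, hs⟩ := int_pow n hp hp1 (F := F) hpy
      have e := congrArg (lft n t (ht.geom_sum_eq_zero hn.out.one_lt)) hv
      rw [map_add, map_mul, lft_z, map_intCast, map_intCast, map_pow, hxF F, ← hs] at e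
      apply hta (-(lft n t (ht.geom_sum_eq_zero hn.out.one_lt) v) / s)
      rw [div_pow, (n_odd n h5).neg_pow, ← e]
      have := pow_ne_zero n hs0
      field_simp
      ring
  · rcases hA with hA | ⟨F, _, _, _, t, ht, hta⟩
    · exact hA (sq_y h5 hnp hc (by rw [add_comm]; exact h) h3)
    · obtain ⟨s, hs0, hs⟩ := int_pow n hp hp1 (F := F) hpy
      have ht0 : t ≠ 0 := ht.ne_zero hn.out.ne_zero
      have ht' := ht.inv
      have e := congrArg (lft n t⁻¹ (ht'.geom_sum_eq_zero hn.out.one_lt)) hv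
      rw [map_add, map_mul, map_mul, lft_z, map_intCast, map_intCast, map_pow, hxF F, ← hs] at e
      apply hta ((lft n t⁻¹ (ht'.geom_sum_eq_zero hn.out.one_lt) v) / s)
      have e2 : (lft n t⁻¹ (ht'.geom_sum_eq_zero hn.out.one_lt) v) ^ n = (1 - t) * s ^ n := by
        generalize (lft n t⁻¹ (ht'.geom_sum_eq_zero hn.out.one_lt) v) ^ n = B at e
        have h8 : t * t⁻¹ = 1 := mul_inv_cancel₀ ht0
        linear_combination (-t) * e + (s ^ n - B) * h8
      rw [div_pow, e2]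
      have := pow_ne_zero n hs0
      field_simp
  · rcases hB with hB | ⟨F, _, _, _, t, ht, hta⟩
    · exact hB (sq_xy h5 hnp hc h h3)
    · obtain ⟨s, hs0, hs⟩ := int_pow n hp hp1 (F := F) hpy
      have e := congrArg (lft n t (ht.geom_sum_eq_zero hn.out.one_lt)) hv
      rw [map_add, map_mul, map_mul, map_add, map_one, lft_z, map_intCast, map_intCast, map_pow,
        hxF F, ← hs] at e
      have h1t : 1 - t ≠ 0 := by
        intro h0
        have : t = 1 := (sub_eq_zero.1 h0).symm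
        exact ht.ne_one hn.out.one_lt this
      have hs' := pow_ne_zero n hs0
      have hb : (lft n t (ht.geom_sum_eq_zero hn.out.one_lt) v) ^ n ≠ 0 := by
        intro h0
        rw [h0, mul_zero] at e
        have : (1 - t) * s ^ n = 0 := by linear_combination -e
        rcases mul_eq_zero.1 this with h6 | h6
        · exact h1t h6
        · exact hs' h6
      apply hta (-s / (lft n t (ht.geom_sum_eq_zero hn.out.one_lt) v))
      rw [div_pow, (n_odd n h5).neg_pow, div_eq_div_iff hb h1t]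
      linear_combination e

/-- logarithmic derivative `g' / g` -/
noncomputable def logd (g : PowerSeries (ZMod n)) : PowerSeries (ZMod n) :=
  PowerSeries.derivative (ZMod n) g * g⁻¹

/-- the third condition on `p`, in elementary terms -/
def B3 (n p m : ℕ) [Fact n.Prime] [Fact p.Prime] : Prop :=
  ∀ (w : ZMod p) (f : ZMod p → ZMod n), IsPrimitiveRoot w n →
    (∀ x, x ≠ 0 → w ^ (f x).val = x ^ m) → ∀ q : ℕ, 2 ≤ q → q < n →
      q ^ n + (n + 1 - q) ^ n ≡ p ^ (n - 3) [MOD n ^ 2] →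
      ∃ r, Odd r ∧ 3 ≤ r ∧ r ≤ n - 2 ∧
        3 * PowerSeries.coeff (r - 1) (logd n (PowerSeries.mk fun k => if k = 0 then -1 else
            (∑ x ∈ (univ.erase (0 : ZMod p)).erase 1, f (x * (1 - x)) ^ k) *
              ((k.factorial : ℕ) : ZMod n)⁻¹)) +
          (∑ c ∈ Icc 1 ((n - 1) / 2), ((c : ZMod n)⁻¹) ^ r) *
            PowerSeries.coeff (r - 1) (logd n (PowerSeries.mk fun k => if k = 0 then 1 else
              (q : ZMod n) * ((k.factorial : ℕ) : ZMod n)⁻¹)) ≠ 0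

variable {p : ℕ} [Fact p.Prime] {m : ℕ} {w : ZMod p}

lemma M_eq (h : QD n p m w) {k : ℕ} (hk : 1 ≤ k) : M h 1 k =
    ∑ x ∈ (univ.erase (0 : ZMod p)).erase 1, ind n w m (x * (1 - x)) ^ k := by
  classical
  unfold M
  rw [← add_sum_erase univ _ (mem_univ 0),
    ← add_sum_erase (univ.erase (0 : ZMod p)) _ (mem_erase.2 ⟨one_ne_zero, mem_univ _⟩)]
  have e0 : (ind n w m 0 + 1 * ind n w m (1 - 0)) ^ k = 0 := by
    rw [h.ind_zero, sub_zero, h.ind_one, mul_zero, add_zero, zero_pow (by omega)]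
  have e1 : (ind n w m 1 + 1 * ind n w m (1 - 1)) ^ k = 0 := by
    rw [sub_self, h.ind_zero, h.ind_one, mul_zero, add_zero, zero_pow (by omega)]
  rw [e0, e1, zero_add, zero_add]
  refine sum_congr rfl fun x hx => ?_
  rw [mem_erase, mem_erase] at hx
  rw [h.ind_mul hx.2.1 (sub_ne_zero.2 (Ne.symm hx.1)), one_mul]

/-- the case `p ≡ 1 (mod n)` -/
theorem case_c (h5 : 5 ≤ n) (h1 : Reg1 n) (h2 : Reg2 n) (hpm : p = n * m + 1)
    (hB1 : B1 n p m) (hB2 : B2 n p m ∨ ¬ (2 * p ^ 3) ^ (n - 1) ≡ 1 [MOD n ^ 2])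
    (hB3 : B3 n p m) {x y c : ℤ} (hxy : IsCoprime x y)
    (hc0 : c ≠ 0) (h : x ^ n + y ^ n = (p : ℤ) ^ (n - 3) * c ^ n) : False := by
  classical
  have hp : p.Prime := Fact.out
  have hKL := KL_of n h5 h2
  have hm1 : p - 1 = n * m := by omega
  have hp1 : p % n = 1 := by
    rw [hpm, Nat.mul_add_mod, Nat.mod_eq_of_lt hn.out.one_lt]
  have hpn : p ≠ n := by
    rintro rfl
    rw [Nat.mod_self] at hp1
    omega
  have hm0 : 0 < m := by
    rcases Nat.eq_zero_or_pos m with h0 | h0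
    · rw [h0, mul_zero] at hm1
      have := hp.two_le
      omega
    · exact h0
  have hm2 : Even m := by
    have hodd : Odd p := hp.odd_of_ne_two (by
      intro h0
      have : n * 1 ≤ n * m := Nat.mul_le_mul_left n hm0
      omega)
    have hev : Even (n * m) := by
      rw [← hm1]
      exact Nat.Odd.sub_odd hodd odd_one
    rcases Nat.even_mul.1 hev with h0 | h0
    · exact absurd (n_odd n h5) (Nat.not_odd_iff_even.2 h0)
    · exact h0
  have hqd : ∀ w : ZMod p, IsPrimitiveRoot w n → QD n p m w := fun w hw => ⟨hm1, hm2, hw⟩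
  obtain ⟨v0, w0, hv0, hw0, -⟩ := id hB1
  by_cases hc : (n : ℤ) ∣ c
  · refine case_one n h5 h1 hKL hp hpn ?_ hxy hc0 hc h
    intro S hS
    exact noObs_one h5 h1 (hqd w0 hw0) (exists_odd h5 h1 (hqd w0 hw0) hB1) hS
  have hyp : (y : ZMod p) ≠ 0 := by
    intro h0
    have h3 := congrArg (Int.cast : ℤ → ZMod p) h
    push_cast at h3
    rw [h0, zero_pow hn.out.ne_zero, add_zero, ZMod.natCast_self, zero_pow (by omega),
      zero_mul] at h3
    have h4 := eq_zero_of_pow_eq_zero h3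
    rw [ZMod.intCast_zmod_eq_zero_iff_dvd] at h0 h4
    have := hxy.isUnit_of_dvd' h4 h0
    rw [Int.isUnit_iff] at this
    have h2 := hp.two_le
    omega
  have h4 : (-(x : ZMod p) / y) ^ n = 1 := by
    have h3 := congrArg (Int.cast : ℤ → ZMod p) h
    push_cast at h3
    rw [ZMod.natCast_self, zero_pow (by omega), zero_mul] at h3
    rw [div_pow, (n_odd n h5).neg_pow, div_eq_one_iff_eq (pow_ne_zero _ hyp)]
    linear_combination -h3
  by_cases hs : -(x : ZMod p) / y = 1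
  · rw [div_eq_one_iff_eq hyp] at hs
    have hs' : (p : ℤ) ∣ x + y := by
      rw [← ZMod.intCast_zmod_eq_zero_iff_dvd]
      push_cast
      linear_combination -hs
    obtain ⟨h6, h7⟩ := s_zero h5 h1 hKL (hqd w0 hw0) hB1 hxy hc h hs'
    rcases hB2 with h8 | h8
    · exact h6 h8
    · exact h8 h7
  · have hprim : IsPrimitiveRoot (-(x : ZMod p) / y) n := by
      have := orderOf_eq_prime h4 hs
      rw [← this]
      exact IsPrimitiveRoot.orderOf _
    have hs1 : (x : ZMod p) + (-(x : ZMod p) / y) * y = 0 := by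
      field_simp
      ring
    obtain ⟨q, hq2, hqn, hqc, hM⟩ := s_one_gen h5 h1 (hqd _ hprim) hB1 hxy hc h hs1
    obtain ⟨r, hr1, hr3, hr2, hne⟩ := hB3 _ (ind n (-(x : ZMod p) / y) m) hprim
      (fun x hx => (hqd _ hprim).ind_spec hx) q hq2 hqn hqc
    apply hne
    have hG : (PowerSeries.mk fun k => if k = 0 then (-1 : ZMod n) else
        (∑ x' ∈ (univ.erase (0 : ZMod p)).erase 1,
          ind n (-(x : ZMod p) / (y : ZMod p)) m (x' * (1 - x')) ^ k) *
            ((k.factorial : ℕ) : ZMod n)⁻¹) = Gs (hqd _ hprim) := by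
      ext k
      rw [Gs, PowerSeries.coeff_mk, PowerSeries.coeff_mk]
      by_cases hk : k = 0
      · rw [if_pos hk, if_pos hk]
      · rw [if_neg hk, if_neg hk, M_eq n (hqd _ hprim) (by omega)]
    rw [hG]
    exact hM r hr1 hr3 hr2

end

/-- the final theorem -/
theorem final (n p : ℕ) [hn : Fact n.Prime] [hp : Fact p.Prime] (h5 : 5 ≤ n)
    (h1 : ¬ n ∣ NumberField.classNumber (CyclotomicField n ℚ))
    (h2 : ∀ k : ℕ, 1 ≤ k → 2 * k ≤ n - 3 → ¬ (n : ℤ) ∣ (bernoulli (2 * k)).num)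
    (hC : p = n ∨ (p % n ≠ 1 ∧ (¬ p ^ (n - 1) ≡ 1 [MOD n ^ 2] ∨ E1 n p) ∧
        (¬ (2 * p ^ 3) ^ (n - 1) ≡ 1 [MOD n ^ 2] ∨ E2 n p)) ∨
      ∃ m, p = n * m + 1 ∧ B1 n p m ∧ (B2 n p m ∨ ¬ (2 * p ^ 3) ^ (n - 1) ≡ 1 [MOD n ^ 2]) ∧
        B3 n p m)
    (A B C D : ℕ) (hA : 0 < A) (hB : 0 < B) (hABC : A + B = C)
    (hABCD : A * B * C = D ^ n) (hg : Nat.gcd (Nat.gcd A B) C = p) : False := by
  have hD : 0 < D := by
    rcases Nat.eq_zero_or_pos D with rfl | h
    · exfalso
      rw [zero_pow hn.out.ne_zero] at hABCD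
      have : 0 < A * B * C := Nat.mul_pos (Nat.mul_pos hA hB) (by omega)
      omega
    · exact h
  obtain ⟨x, y, c, hxy, hx, hy, hc, h⟩ :=
    reduce n p hn.out h5 hp.out A B C D hA hB hD hABC hABCD hg
  have h1' : Reg1 n := h1
  have h2' : Reg2 n := h2
  by_cases hpn : p = n
  · subst hpn
    exact case_n p h5 h1' (KL_of p h5 h2') hxy hc h
  rcases hC with h3 | ⟨h3, h4, h6⟩ | ⟨m, hpm, hB1, hB2, hB3⟩
  · exact hpn h3
  · exact case_b n h5 h1' h2' hp.out hpn h3 h4 h6 hxy hc h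
  · exact case_c n h5 h1' h2' hpm hB1 hB2 hB3 hxy hc h

end Pool.Agent.Helper38.REG
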