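import Pool.Agent.Helper38.REG.Defs

/-! Project REG, module P: the prime ideals above a prime number `p ≠ n`.
BLUEPRINT. `mem_PP`: `Ideal.mem_normalizedFactors_iff`. `lam ∈ P` would give `n ∈ P` (`n_mem_lam`)
and `p ∈ P`, so `1 ∈ P`. `prod_PP`: `p` is unramified in `ℚ(ζ_n)`
(`IsCyclotomicExtension.Rat.ramificationIdx_eq_of_not_dvd` with `m = n`), so `normalizedFactors (p)`
has no duplicates and its product is `(p)`. `prod_pi`: take the power `HH` of `prod_PP`
(`pi_span`, `Ideal.span_singleton_pow`, products of principal ideals), compare generators.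
`card_PP`: `∏ P = (p)`, norms: `absNorm (p) = p ^ (n-1)`, each `absNorm P` is a power of `p`, `> 1`,
so `≥ p`; if `absNorm P = p` then `O / P` has `p` elements and contains `z mod P` of order `n`
(as `1 - z ∉ P`), so `n ∣ p - 1`. Hence for `p % n ≠ 1` all norms are `≥ p^2` and
`card ≤ (n-1)/2 ≤ n - 3`.
`not_sq`: `(p) = ∏ P` is squarefree. `dvd_p`: for `x y = p` the ideal `(x)` divides `(p)`, which is squarefree, so `(x)` is the product
of the `P ∈ PP` with `x ∈ P`; take the power `HH`. -/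

namespace Pool.Agent.Helper38.REG

open NumberField Finset

variable (n : ℕ) [hn : Fact n.Prime]

omit hn in
lemma natCast_p_ne {p : ℕ} (hp : p.Prime) : (p : O n) ≠ 0 := Nat.cast_ne_zero.2 hp.ne_zero

omit hn in
lemma span_p_ne {p : ℕ} (hp : p.Prime) : Ideal.span {(p : O n)} ≠ ⊥ := by
  rw [Ne, Ideal.span_singleton_eq_bot]
  exact natCast_p_ne n hp

lemma mem_PP {p : ℕ} (hp : p.Prime) {P : Ideal (O n)} :
    P ∈ PP n p ↔ P.IsPrime ∧ (p : O n) ∈ P := by
  unfold PP
  rw [Multiset.mem_toFinset, Ideal.mem_normalizedFactors_iff (span_p_ne n hp),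
    Ideal.span_singleton_le_iff_mem]

lemma PP_good {p : ℕ} (hp : p.Prime) (hpn : p ≠ n) : Good n (PP n p) := by
  intro P hP
  obtain ⟨hP1, hP2⟩ := (mem_PP n hp).1 hP
  refine ⟨hP1, ?_, ?_⟩
  · rintro rfl
    exact natCast_p_ne n hp (by simpa using hP2)
  · intro hl
    have h1 : (n : O n) ∈ P := P.mem_of_dvd (n_mem_lam n) hl
    have hc : Nat.Coprime p n := (Nat.coprime_primes hp hn.out).2 hpn
    have h2 : IsCoprime ((p : ℤ)) (n : ℤ) := Nat.isCoprime_iff_coprime.2 hc
    obtain ⟨a, b, hab⟩ := h2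
    apply hP1.ne_top
    rw [Ideal.eq_top_iff_one]
    have h3 : (1 : O n) = (a : O n) * (p : O n) + (b : O n) * (n : O n) := by
      exact_mod_cast (congrArg (fun t : ℤ => (t : O n)) hab).symm
    rw [h3]
    exact P.add_mem (P.mul_mem_left _ hP2) (P.mul_mem_left _ h1)

lemma lies_p {p : ℕ} (hp : p.Prime) {P : Ideal (O n)} (hP : P ∈ PP n p) :
    P.LiesOver (Ideal.span {(p : ℤ)}) := by
  obtain ⟨hP1, hP2⟩ := (mem_PP n hp).1 hP
  rw [Ideal.liesOver_iff]
  have hmax : (Ideal.span {(p : ℤ)}).IsMaximal :=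
    PrincipalIdealRing.isMaximal_of_irreducible (Nat.prime_iff_prime_int.1 hp).irreducible
  refine hmax.eq_of_le ?_ ?_
  · exact (Ideal.IsPrime.under ℤ P).ne_top
  · rw [Ideal.span_singleton_le_iff_mem, Ideal.mem_comap]
    simpa using hP2

lemma count_p {p : ℕ} (hp : p.Prime) (hpn : p ≠ n) {P : Ideal (O n)} (hP : P ∈ PP n p) :
    (UniqueFactorizationMonoid.normalizedFactors (Ideal.span {(p : O n)})).count P = 1 := by
  obtain ⟨hP1, hP2⟩ := (mem_PP n hp).1 hP
  have hL := lies_p n hp hP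
  have hf : Fact p.Prime := ⟨hp⟩
  have hnd : ¬ p ∣ n := fun h => hpn ((Nat.prime_dvd_prime_iff_eq hp hn.out).1 h)
  have hz : NeZero n := ⟨hn.out.ne_zero⟩
  have h1 := IsCyclotomicExtension.Rat.ramificationIdx_eq_of_not_dvd (m := n) p (K n) P hnd
  have hm : (Ideal.span {(p : ℤ)}).map (algebraMap ℤ (O n)) = Ideal.span {(p : O n)} := by
    rw [Ideal.map_span, Set.image_singleton]
    simp
  have h2 := Ideal.IsDedekindDomain.ramificationIdx_eq_normalizedFactors_count
    (Ideal.span {(p : ℤ)}) P (by rw [hm]; exact span_p_ne n hp)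
  rw [hm] at h2
  rw [← h1, h2]

lemma ok_pi (h1 : Reg1 n) {p : ℕ} (hp : p.Prime) (hpn : p ≠ n) {P : Ideal (O n)} (hP : P ∈ PP n p) :
    ok n (pi n P) := (PP_good n hp hpn).ok_pi n h1 hP

theorem prod_PP {p : ℕ} (hp : p.Prime) (hpn : p ≠ n) :
    ∏ P ∈ PP n p, P = Ideal.span {(p : O n)} := by
  classical
  have h1 : (UniqueFactorizationMonoid.normalizedFactors (Ideal.span {(p : O n)})).prod =
      Ideal.span {(p : O n)} :=
    Ideal.prod_normalizedFactors_eq_self (span_p_ne n hp)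
  have h2 := Finset.prod_multiset_count
    (UniqueFactorizationMonoid.normalizedFactors (Ideal.span {(p : O n)}))
  have h3 : PP n p =
      (UniqueFactorizationMonoid.normalizedFactors (Ideal.span {(p : O n)})).toFinset := by
    ext P
    unfold PP
    simp only [Multiset.mem_toFinset]
  have h4 : ∏ P ∈ PP n p, P = ∏ P ∈ PP n p, P ^
      (UniqueFactorizationMonoid.normalizedFactors (Ideal.span {(p : O n)})).count P := by
    refine Finset.prod_congr rfl fun P hP => ?_
    rw [count_p n hp hpn hP, pow_one]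
  rw [h4, h3, ← h2, h1]

lemma span_prod_pi (S : Finset (Ideal (O n))) :
    Ideal.span {∏ P ∈ S, pi n P} = (∏ P ∈ S, P) ^ HH n := by
  rw [← Ideal.prod_span_singleton, ← Finset.prod_pow]
  exact Finset.prod_congr rfl fun P _ => pi_span n P

omit hn in
lemma unit_of_assoc {a b : O n} (h : Ideal.span {a} = Ideal.span {b}) :
    ∃ ε : O n, IsUnit ε ∧ a = ε * b := by
  rw [Ideal.span_singleton_eq_span_singleton] at h
  obtain ⟨u, hu⟩ := h.symm
  exact ⟨u, u.isUnit, by rw [← hu, mul_comm]⟩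

theorem prod_pi {p : ℕ} (hp : p.Prime) (hpn : p ≠ n) :
    ∃ ε : O n, IsUnit ε ∧ ∏ P ∈ PP n p, pi n P = ε * (p : O n) ^ HH n := by
  apply unit_of_assoc
  rw [span_prod_pi, prod_PP n hp hpn, Ideal.span_singleton_pow]

/-- `p` is unramified -/
theorem not_sq {p : ℕ} (hp : p.Prime) (hpn : p ≠ n) {P : Ideal (O n)} (hP : P ∈ PP n p) :
    (p : O n) ∉ P ^ 2 := by
  classical
  intro h
  obtain ⟨hP1, hP0, -⟩ := PP_good n hp hpn P hP
  have h1 : P ^ 2 ∣ ∏ Q ∈ PP n p, Q := by
    rw [prod_PP n hp hpn, Ideal.dvd_span_singleton]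
    exact h
  rw [← Finset.mul_prod_erase _ _ hP, sq] at h1
  have h2 : P ∣ ∏ Q ∈ (PP n p).erase P, Q := by
    have hP0' : P ≠ 0 := hP0
    exact (mul_dvd_mul_iff_left hP0').1 h1
  have hprime : Prime P := Ideal.prime_of_isPrime hP0 hP1
  obtain ⟨Q, hQ, hQP⟩ := (Prime.dvd_finsetProd_iff hprime _).1 h2
  rw [Finset.mem_erase] at hQ
  obtain ⟨hQ1, hQ0, -⟩ := PP_good n hp hpn Q hQ.2
  have hle : Q ≤ P := Ideal.le_of_dvd hQP
  exact hQ.1 ((hQ1.isMaximal hQ0).eq_of_le hP1.ne_top hle)

/-- the number of primes above `p` times the order of `p` modulo `n` is `n - 1` -/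
lemma card_mul {p : ℕ} (hp : p.Prime) (hpn : p ≠ n) :
    (PP n p).card * orderOf (p : ZMod n) = n - 1 := by
  have hf : Fact p.Prime := ⟨hp⟩
  have hnd : ¬ p ∣ n := fun h => hpn ((Nat.prime_dvd_prime_iff_eq hp hn.out).1 h)
  have hz : NeZero n := ⟨hn.out.ne_zero⟩
  have h1 : ∀ P ∈ PP n p, Ideal.absNorm P = p ^ orderOf (p : ZMod n) := by
    intro P hP
    obtain ⟨hP1, hP2⟩ := (mem_PP n hp).1 hP
    have hL := lies_p n hp hP
    have h1 := IsCyclotomicExtension.Rat.inertiaDeg_eq_of_not_dvd (m := n) p (K n) P hnd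
    have hmax : (Ideal.span {(p : ℤ)}).IsMaximal :=
      PrincipalIdealRing.isMaximal_of_irreducible (Nat.prime_iff_prime_int.1 hp).irreducible
    have hmax' : P.IsMaximal := hP1.isMaximal (PP_good n hp hpn P hP).2.1
    rw [← h1, ← Ideal.inertiaDeg'_eq_inertiaDeg (Ideal.span {(p : ℤ)}) P]
    exact Ideal.absNorm_eq_pow_inertiaDeg' P hp
  have h2 : Ideal.absNorm (Ideal.span {(p : O n)}) = p ^ (n - 1) := by
    have e1 := Ideal.absNorm_span_singleton (S := O n) (p : O n)
    rw [e1]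
    have e2 := Algebra.norm_algebraMap_of_basis (pb n).basis (p : ℤ)
    simp only [Fintype.card_fin, pb_dim] at e2
    have e3 : (algebraMap ℤ (O n)) (p : ℤ) = (p : O n) := by simp
    rw [e3] at e2
    rw [e2, Int.natAbs_pow, Int.natAbs_natCast]
  have h3 : Ideal.absNorm (∏ P ∈ PP n p, P) = p ^ ((PP n p).card * orderOf (p : ZMod n)) := by
    rw [map_prod, Finset.prod_congr rfl h1, Finset.prod_const, ← pow_mul, mul_comm]
  rw [prod_PP n hp hpn, h2] at h3
  exact (Nat.pow_right_injective hp.two_le h3).symm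

theorem card_PP {p : ℕ} (hp : p.Prime) (hpn : p ≠ n) : (PP n p).card ≤ n - 1 := by
  have h := card_mul n hp hpn
  have h1 := n_sub_pos n
  rcases Nat.eq_zero_or_pos (orderOf (p : ZMod n)) with h0 | h0
  · rw [h0, mul_zero] at h
    omega
  · rw [← h]
    exact Nat.le_mul_of_pos_right _ h0

theorem card_PP' (h5 : 5 ≤ n) {p : ℕ} (hp : p.Prime) (hpn : p ≠ n) (hp1 : p % n ≠ 1) :
    (PP n p).card ≤ n - 3 := by
  have h := card_mul n hp hpn
  have h2 : 2 ≤ orderOf (p : ZMod n) := by
    have h0 : orderOf (p : ZMod n) ≠ 0 := by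
      intro h0
      rw [h0, mul_zero] at h
      omega
    have h1 : orderOf (p : ZMod n) ≠ 1 := by
      intro h1
      rw [orderOf_eq_one_iff] at h1
      apply hp1
      have h2 : ((p : ℕ) : ZMod n) = ((1 : ℕ) : ZMod n) := by rw [h1]; simp
      rw [ZMod.natCast_eq_natCast_iff'] at h2
      rw [h2, Nat.mod_eq_of_lt hn.out.one_lt]
    omega
  have h3 : (PP n p).card * 2 ≤ n - 1 := by
    rw [← h]
    exact Nat.mul_le_mul_left _ h2
  omega

open Classical in
theorem dvd_p {p : ℕ} (hp : p.Prime) (hpn : p ≠ n) {x y : O n} (h : x * y = (p : O n)) :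
    ∃ ε : O n, IsUnit ε ∧ x ^ HH n = ε * ∏ P ∈ (PP n p).filter (fun P => x ∈ P), pi n P := by
  apply unit_of_assoc
  rw [span_prod_pi, ← Ideal.span_singleton_pow]
  congr 1
  have hp0 := natCast_p_ne n hp
  have hx0 : x ≠ 0 := by
    rintro rfl
    rw [zero_mul] at h
    exact hp0 h.symm
  have hy0 : y ≠ 0 := by
    rintro rfl
    rw [mul_zero] at h
    exact hp0 h.symm
  have hxb : Ideal.span {x} ≠ ⊥ := by
    rw [Ne, Ideal.span_singleton_eq_bot]
    exact hx0
  have hdvd : Ideal.span {x} ∣ Ideal.span {(p : O n)} := by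
    rw [Ideal.dvd_span_singleton, Ideal.mem_span_singleton]
    exact ⟨y, h.symm⟩
  have hmem : ∀ P : Ideal (O n),
      P ∈ UniqueFactorizationMonoid.normalizedFactors (Ideal.span {x}) ↔
        P ∈ (PP n p).filter (fun P => x ∈ P) := by
    intro P
    rw [Ideal.mem_normalizedFactors_iff hxb, Ideal.span_singleton_le_iff_mem, Finset.mem_filter,
      mem_PP n hp]
    constructor
    · rintro ⟨h1, h2⟩
      refine ⟨⟨h1, ?_⟩, h2⟩
      rw [← h]
      exact P.mul_mem_right _ h2
    · rintro ⟨⟨h1, -⟩, h2⟩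
      exact ⟨h1, h2⟩
  have h3 : (PP n p).filter (fun P => x ∈ P) =
      (UniqueFactorizationMonoid.normalizedFactors (Ideal.span {x})).toFinset := by
    ext P
    rw [Multiset.mem_toFinset, hmem]
  have h1 : (UniqueFactorizationMonoid.normalizedFactors (Ideal.span {x})).prod =
      Ideal.span {x} := Ideal.prod_normalizedFactors_eq_self hxb
  have h2 := Finset.prod_multiset_count
    (UniqueFactorizationMonoid.normalizedFactors (Ideal.span {x}))
  have hle : UniqueFactorizationMonoid.normalizedFactors (Ideal.span {x}) ≤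
      UniqueFactorizationMonoid.normalizedFactors (Ideal.span {(p : O n)}) :=
    (UniqueFactorizationMonoid.dvd_iff_normalizedFactors_le_normalizedFactors
      (by exact hxb) (by exact span_p_ne n hp)).1 hdvd
  have h4 : ∏ P ∈ (PP n p).filter (fun P => x ∈ P), P =
      ∏ P ∈ (PP n p).filter (fun P => x ∈ P), P ^
      (UniqueFactorizationMonoid.normalizedFactors (Ideal.span {x})).count P := by
    refine Finset.prod_congr rfl fun P hP => ?_
    have h5 := (hmem P).2 hP
    have h6 := Multiset.count_pos.2 h5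
    have h7 := Multiset.count_le_of_le P hle
    rw [count_p n hp hpn (Finset.mem_filter.1 hP).1] at h7
    have h8 : (UniqueFactorizationMonoid.normalizedFactors (Ideal.span {x})).count P = 1 := by
      omega
    rw [h8, pow_one]
  rw [h4, h3, ← h2, h1]

end Pool.Agent.Helper38.REG
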