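import Pool.Agent.Helper38.REG.Fac
import Pool.Agent.Helper38.REG.JacD
import Pool.Agent.Helper38.REG.JacC
import Pool.Agent.Helper38.REG.Sq

/-! Project REG, module S1: the case `p ∤ x + y` for `p ≡ 1 (mod n)`.
Here `w = - x / y` in `ZMod p` is a primitive `n`-th root of unity.
BLUEPRINT. L3_lin, L5_lin: `x + z y` is represented by `x + y E`, `ld = y E' / (x + y E)`
(`E' = E` in low degrees, `deriv_E`); with `q (x + y) = y` the coefficients give
`L 3 = q (1-q) (1-2q)`, `L 5 = q (1-q) (1-2q) (1 - 12 q (1-q))` (write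
`(x + y E) * ld = y E'` and compare coefficients `0, 1, 2, 3, 4`).
s_one: `tk h a (ff i) = x + w^(a i) y = y (w^(a i) - w)`, so `ff 1 ∈ pk h a` iff `a = 1`; hence in
`fac_int` the set `{P | d P = 1}` is `{pk h 1}` and `π^3 (x + z y) = u r^n`; for odd `r ≥ 3`
`3 L r π + L r (x + z y) = 0` (`unit_odd`, `L_pown`; the `r` of `r^n` is ok since the left side is).
Multiply by `hh n r`: `3 L r J + hh n r * L r (x + z y) = 0` (`L_J_hh`), with `L3_J`, `L5_J`:
`3 M 3 = hh n 3 * L 3 (x + z y)`. `q` comes from `local_q`. `q = 0` or `q = 1` would give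
`L r (x + z y) = 0` for all odd `r` (`T (x + z y)` is `x`, resp. `y T(z)`), so `L r π = 0` for all odd
`r ≥ 3`, against `exists_odd`. -/

namespace Pool.Agent.Helper38.REG

open NumberField Finset

variable {n : ℕ} [hn : Fact n.Prime] {p : ℕ} [Fact p.Prime] {m : ℕ} {w : ZMod p}

private lemma Rp_lin (x y : ℤ) :
    Rp n (PowerSeries.C (x : ZMod n) + E n * PowerSeries.C (y : ZMod n)) ((x : O n) + z n * y) :=
  (Rp.int x).add (Rp.z.mul (Rp.int y))

private lemma cc_lin (x y : ℤ) : PowerSeries.constantCoeff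
    (PowerSeries.C (x : ZMod n) + E n * PowerSeries.C (y : ZMod n)) = (x : ZMod n) + y := by
  rw [map_add, map_mul, constantCoeff_E, PowerSeries.constantCoeff_C, PowerSeries.constantCoeff_C,
    one_mul]

private lemma ok_lin {x y : ℤ} (hs : (x : ZMod n) + y ≠ 0) : ok n ((x : O n) + z n * y) :=
  (ok_Rp n (Rp_lin x y)).2 (by rw [cc_lin]; exact hs)

/-- the coefficients of the logarithmic derivative -/
private lemma ld_coeffs {x y : ℤ} (hs : (x : ZMod n) + y ≠ 0) :
    ∀ k < n - 1, ∑ ij ∈ antidiagonal k,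
      PowerSeries.coeff ij.1 (ld n (PowerSeries.C (x : ZMod n) + E n * PowerSeries.C (y : ZMod n)))
        * PowerSeries.coeff ij.2 (PowerSeries.C (x : ZMod n) + E n * PowerSeries.C (y : ZMod n))
      = y * ((k.factorial : ℕ) : ZMod n)⁻¹ := by
  intro k hk
  rw [← PowerSeries.coeff_mul]
  have h0 : PowerSeries.constantCoeff
      (PowerSeries.C (x : ZMod n) + E n * PowerSeries.C (y : ZMod n)) ≠ 0 := by
    rw [cc_lin]; exact hs
  have h1 : ld n (PowerSeries.C (x : ZMod n) + E n * PowerSeries.C (y : ZMod n))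
      * (PowerSeries.C (x : ZMod n) + E n * PowerSeries.C (y : ZMod n))
      = PowerSeries.derivative (ZMod n) (E n) * PowerSeries.C (y : ZMod n) := by
    unfold ld
    rw [mul_assoc, mul_comm (_)⁻¹, PowerSeries.mul_inv_cancel _ h0, mul_one, map_add,
      PowerSeries.derivative_C, zero_add, Derivation.leibniz, PowerSeries.derivative_C, smul_zero,
      zero_add, smul_eq_mul, mul_comm]
  rw [h1, PowerSeries.coeff_mul_C, deriv_E n k hk, coeff_E, mul_comm]

private lemma coeff_lin_zero (x y : ℤ) : PowerSeries.coeff 0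
    (PowerSeries.C (x : ZMod n) + E n * PowerSeries.C (y : ZMod n)) = (x : ZMod n) + y := by
  rw [PowerSeries.coeff_zero_eq_constantCoeff_apply, cc_lin]

private lemma coeff_lin_succ (x y : ℤ) (k : ℕ) : PowerSeries.coeff (k + 1)
    (PowerSeries.C (x : ZMod n) + E n * PowerSeries.C (y : ZMod n))
      = y * (((k + 1).factorial : ℕ) : ZMod n)⁻¹ := by
  rw [map_add, PowerSeries.coeff_mul_C, coeff_E, PowerSeries.coeff_C, if_neg (by omega), zero_add,
    mul_comm]

private lemma two_ne (h5 : 5 ≤ n) : (2 : ZMod n) ≠ 0 := by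
  have := fac_ne n (k := 2) (by omega)
  intro h
  apply this
  simpa using h

private lemma three_ne (h5 : 5 ≤ n) : (3 : ZMod n) ≠ 0 := by
  have := fac_ne n (k := 3) (by omega)
  intro h
  apply this
  have e : ((Nat.factorial 3 : ℕ) : ZMod n) = 2 * 3 := by
    rw [show Nat.factorial 3 = 6 from rfl]; norm_num
  rw [e, h, mul_zero]

private lemma d012 (h5 : 5 ≤ n) {x y : ℤ} {q : ZMod n} (hs : (x : ZMod n) + y ≠ 0)
    (hq : q * ((x : ZMod n) + y) = y) :
    PowerSeries.coeff 0 (ld n (PowerSeries.C (x : ZMod n) + E n * PowerSeries.C (y : ZMod n))) = q ∧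
    PowerSeries.coeff 1 (ld n (PowerSeries.C (x : ZMod n) + E n * PowerSeries.C (y : ZMod n)))
      = q * (1 - q) ∧
    2 * PowerSeries.coeff 2 (ld n (PowerSeries.C (x : ZMod n) + E n * PowerSeries.C (y : ZMod n)))
      = q * (1 - q) * (1 - 2 * q) := by
  have h2 := mul_inv_cancel₀ (two_ne (n := n) h5)
  have E0 := ld_coeffs (n := n) (x := x) (y := y) hs 0 (by omega)
  have E1 := ld_coeffs (n := n) (x := x) (y := y) hs 1 (by omega)
  have E2 := ld_coeffs (n := n) (x := x) (y := y) hs 2 (by omega)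
  generalize ld n (PowerSeries.C (x : ZMod n) + E n * PowerSeries.C (y : ZMod n)) = D at *
  have c0 := coeff_lin_zero (n := n) x y
  have c1 := coeff_lin_succ (n := n) x y 0
  have c2 := coeff_lin_succ (n := n) x y 1
  generalize PowerSeries.C (x : ZMod n) + E n * PowerSeries.C (y : ZMod n) = g at *
  rw [Finset.Nat.sum_antidiagonal_eq_sum_range_succ_mk] at E0 E1 E2
  simp only [Finset.sum_range_succ, Finset.sum_range_zero, zero_add, Nat.sub_zero, Nat.sub_self,
    Nat.reduceSub, Nat.reduceAdd, c0, c1, c2, Nat.factorial, Nat.succ_eq_add_one,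
    mul_one, Nat.cast_one, inv_one, Nat.cast_ofNat] at E0 E1 E2
  have r0 : PowerSeries.coeff 0 D = q := mul_right_cancel₀ hs (E0.trans hq.symm)
  rw [r0] at E1 E2
  have r1 : PowerSeries.coeff 1 D = q * (1 - q) := by
    apply mul_right_cancel₀ hs
    linear_combination E1 - (1 - q) * hq
  rw [r1] at E2
  refine ⟨r0, r1, ?_⟩
  apply mul_right_cancel₀ hs
  linear_combination 2 * E2 + (y : ZMod n) * (1 - q) * h2 - (1 - q) * (1 - 2 * q) * hq

private lemma d34 (h5 : 5 < n) {x y : ℤ} {q : ZMod n} (hs : (x : ZMod n) + y ≠ 0)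
    (hq : q * ((x : ZMod n) + y) = y) :
    24 * PowerSeries.coeff 4 (ld n (PowerSeries.C (x : ZMod n) + E n * PowerSeries.C (y : ZMod n)))
      = q * (1 - q) * (1 - 2 * q) * (1 - 12 * q * (1 - q)) := by
  have h2 := mul_inv_cancel₀ (two_ne (n := n) (by omega))
  have h6 : (6 : ZMod n) * 6⁻¹ = 1 := by
    apply mul_inv_cancel₀
    have := fac_ne n (k := 3) (by omega)
    simpa [Nat.factorial] using this
  have h24 : (24 : ZMod n) * 24⁻¹ = 1 := by
    apply mul_inv_cancel₀
    have := fac_ne n (k := 4) (by omega)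
    simpa [Nat.factorial] using this
  obtain ⟨r0, r1, r2⟩ := d012 (n := n) (by omega) hs hq
  have E3 := ld_coeffs (n := n) (x := x) (y := y) hs 3 (by omega)
  have E4 := ld_coeffs (n := n) (x := x) (y := y) hs 4 (by omega)
  generalize ld n (PowerSeries.C (x : ZMod n) + E n * PowerSeries.C (y : ZMod n)) = D at *
  have c0 := coeff_lin_zero (n := n) x y
  have c1 := coeff_lin_succ (n := n) x y 0
  have c2 := coeff_lin_succ (n := n) x y 1
  have c3 := coeff_lin_succ (n := n) x y 2
  have c4 := coeff_lin_succ (n := n) x y 3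
  generalize PowerSeries.C (x : ZMod n) + E n * PowerSeries.C (y : ZMod n) = g at *
  rw [Finset.Nat.sum_antidiagonal_eq_sum_range_succ_mk] at E3 E4
  simp only [Finset.sum_range_succ, Finset.sum_range_zero, zero_add, Nat.sub_zero, Nat.sub_self,
    Nat.reduceSub, Nat.reduceAdd, c0, c1, c2, c3, c4, Nat.factorial, Nat.succ_eq_add_one,
    Nat.reduceMul, mul_one, Nat.cast_one, inv_one, Nat.cast_ofNat] at E3 E4
  rw [r0, r1] at E3 E4
  have r3 : 6 * PowerSeries.coeff 3 D = q * (1 - q) * (1 - 6 * q * (1 - q)) := by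
    apply mul_right_cancel₀ hs
    linear_combination 6 * E3 + (y : ZMod n) * (1 - q) * h6 - 3 * (y : ZMod n) * (q * (1 - q)) * h2
      - 3 * (y : ZMod n) * r2 - (1 - q) * (1 - 6 * q * (1 - q)) * hq
  apply mul_right_cancel₀ hs
  linear_combination 24 * E4 + (y : ZMod n) * (1 - q) * h24 - 4 * (y : ZMod n) * (q * (1 - q)) * h6
    - 12 * (y : ZMod n) * PowerSeries.coeff 2 D * h2 - 6 * (y : ZMod n) * r2 - 4 * (y : ZMod n) * r3
    - (1 - q) * (1 - 2 * q) * (1 - 12 * q * (1 - q)) * hq

theorem L3_lin (h5 : 5 ≤ n) {x y : ℤ} {q : ZMod n} (hs : (x : ZMod n) + y ≠ 0)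
    (hq : q * ((x : ZMod n) + y) = y) :
    L n 3 ((x : O n) + z n * y) = q * (1 - q) * (1 - 2 * q) := by
  rw [L_eq n (by omega) (by omega) (Rp_lin x y) (by rw [cc_lin]; exact hs)]
  have := (d012 h5 hs hq).2.2
  simpa [Nat.factorial] using this

theorem L5_lin (h7 : 7 ≤ n) {x y : ℤ} {q : ZMod n} (hs : (x : ZMod n) + y ≠ 0)
    (hq : q * ((x : ZMod n) + y) = y) :
    L n 5 ((x : O n) + z n * y) = q * (1 - q) * (1 - 2 * q) * (1 - 12 * q * (1 - q)) := by
  rw [L_eq n (by omega) (by omega) (Rp_lin x y) (by rw [cc_lin]; exact hs)]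
  have := d34 (by omega) hs hq
  simpa [Nat.factorial] using this

theorem s_one (h5 : 5 ≤ n) (h1 : Reg1 n) (h : QD n p m w) (hB1 : B1 n p m)
    {x y c : ℤ} (hxy : IsCoprime x y) (hc : ¬ (n : ℤ) ∣ c)
    (he : x ^ n + y ^ n = (p : ℤ) ^ (n - 3) * c ^ n) (hs : (x : ZMod p) + w * y = 0) :
    ∃ q : ℕ, 2 ≤ q ∧ q < n ∧ q ^ n + (n + 1 - q) ^ n ≡ p ^ (n - 3) [MOD n ^ 2] ∧
      3 * M h 1 3 = hh n 3 * ((q : ZMod n) * (1 - q) * (1 - 2 * q)) ∧
      (7 ≤ n → 3 * M h 1 5 =
        hh n 5 * ((q : ZMod n) * (1 - q) * (1 - 2 * q) * (1 - 12 * q * (1 - q)))) := by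
  have hp := (Fact.out : p.Prime)
  have hpn := pk_ne h
  have hp1 : p % n = 1 := by
    have h2 := h.hm
    have h3 := hp.two_le
    have h4 : p = 1 + n * m := by omega
    rw [h4, Nat.add_mul_mod_self_left, Nat.mod_eq_of_lt (by omega)]
  obtain ⟨hxyn, q, hqn, hq, hcong⟩ := local_q h5 hp1 hc he
  obtain ⟨d, hd, hfac⟩ := fac_int n h5 h1 hp hpn hxy hc he
  -- `y` is not divisible by `p`
  have hy0 : (y : ZMod p) ≠ 0 := by
    intro h0
    rw [h0, mul_zero, add_zero] at hs
    have d1 := (ZMod.intCast_zmod_eq_zero_iff_dvd _ _).1 hs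
    have d2 := (ZMod.intCast_zmod_eq_zero_iff_dvd _ _).1 h0
    have d3 := hxy.isUnit_of_dvd' d1 d2
    rw [Int.isUnit_iff] at d3
    have := hp.two_le
    omega
  have hmem1 : pk h 1 ∈ PP n p := (mem_PP_iff h).2 ⟨1, rfl⟩
  have hone : (1 : ZMod n).val = 1 := by
    rw [ZMod.val_one_eq_one_mod, Nat.mod_eq_of_lt (by omega)]
  have hff : ff n x y 1 = (x : O n) + z n * y := by
    unfold ff
    rw [hone, pow_one]
  have hfil : (PP n p).filter (fun P => d P = 1) = {pk h 1} := by
    ext P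
    rw [mem_filter, mem_singleton]
    constructor
    · rintro ⟨hP, hdP⟩
      obtain ⟨a, rfl⟩ := (mem_PP_iff h).1 hP
      have h2 := (hd _ hP 1).2 hdP.symm
      rw [hff, mem_pk, map_add, map_mul, tk_z, map_intCast, map_intCast] at h2
      have h3 : w ^ (a : ZMod n).val = w ^ 1 := by
        rw [pow_one]
        apply mul_right_cancel₀ hy0
        linear_combination h2 - hs
      rw [h.pow_eq_iff, ZMod.natCast_zmod_val, Nat.cast_one] at h3
      have h4 : a = 1 := Units.ext h3
      rw [h4]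
    · rintro rfl
      refine ⟨hmem1, ?_⟩
      symm
      rw [← hd _ hmem1 1, hff, mem_pk, map_add, map_mul, tk_z, map_intCast, map_intCast,
        Units.val_one, hone, pow_one]
      exact hs
  obtain ⟨u, r, hu, hur⟩ := hfac 1
  rw [hfil, prod_singleton, hff] at hur
  have okπ := ok_pi n h1 hp hpn hmem1
  have okl := ok_lin (n := n) hxyn
  have okr : ok n r := by
    have h2 : ok n (u * r ^ n) := by
      rw [← hur, ok_mul]
      exact ⟨ok_pow n okπ 3, okl⟩
    rw [ok_mul] at h2
    intro h3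
    exact h2.2 (dvd_pow h3 hn.out.ne_zero)
  have key : ∀ s, Odd s → 3 ≤ s → s ≤ n - 2 →
      3 * L n s (pi n (pk h 1)) + L n s ((x : O n) + z n * y) = 0 := by
    intro s hs1 hs2 hs3
    have h2 := congrArg (L n s) hur
    rw [L_mul n (by omega) hs3 (ok_pow n okπ 3) okl, L_pow n (by omega) hs3 okπ,
      L_mul n (by omega) hs3 (ok_unit n hu) (ok_pow n okr n), L_pown n (by omega) hs3 okr,
      unit_odd n hs1 hs2 hs3 hu, add_zero] at h2
    simpa using h2
  -- the exceptional values of `q`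
  have hexc : ¬ ∀ s, Odd s → 3 ≤ s → s ≤ n - 2 → L n s ((x : O n) + z n * y) = 0 := by
    intro h0
    obtain ⟨s, hs1, hs2, hs3, hs4⟩ := exists_odd h5 h1 h hB1
    have h2 := key s hs1 hs2 hs3
    rw [h0 s hs1 hs2 hs3, add_zero] at h2
    rcases mul_eq_zero.1 h2 with h3 | h3
    · exact three_ne h5 h3
    · exact hs4 h3
  have hq2 : 2 ≤ q := by
    by_contra hlt
    apply hexc
    intro s hs1 hs2 hs3
    have hcases : q = 0 ∨ q = 1 := by omega
    rcases hcases with rfl | rfl
    · rw [Nat.cast_zero, zero_mul] at hq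
      have hx : ¬ (n : ℤ) ∣ x := by
        intro h2
        apply hxyn
        rw [← hq, add_zero]
        exact (ZMod.intCast_zmod_eq_zero_iff_dvd _ _).2 h2
      have h2 : T n ((x : O n) + z n * y) = T n (x : O n) := by
        rw [map_add, map_mul, T_int n y, ← hq, map_zero, map_zero, mul_zero, add_zero]
      rw [L_T n h2]
      exact L_int n (by omega) hs3 hx
    · rw [Nat.cast_one, one_mul] at hq
      have hx : (x : ZMod n) = 0 := by linear_combination hq
      have hy : ¬ (n : ℤ) ∣ y := by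
        intro h2
        apply hxyn
        rw [hx, zero_add]
        exact (ZMod.intCast_zmod_eq_zero_iff_dvd _ _).2 h2
      have h2 : T n ((x : O n) + z n * y) = T n (z n * y) := by
        rw [map_add, T_int n x, hx, map_zero, map_zero, zero_add]
      rw [L_T n h2, L_mul n (by omega) hs3 (ok_z n) ((ok_int n).2 hy), L_z n (by omega) hs3,
        L_int n (by omega) hs3 hy, add_zero]
  refine ⟨q, hq2, hqn, hcong, ?_, ?_⟩
  · have h2 := key 3 (by decide) le_rfl (by omega)
    have h3 := L_J_hh h5 h1 h (r := 3) (by decide) le_rfl (by omega)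
    have h4 := L3_J h5 h
    have h6 := L3_lin h5 hxyn hq
    rw [h6] at h2
    rw [h4] at h3
    linear_combination (-3 : ZMod n) * h3 - hh n 3 * h2
  · intro h7
    have h2 := key 5 (by decide) (by omega) (by omega)
    have h3 := L_J_hh h5 h1 h (r := 5) (by decide) (by omega) (by omega)
    have h4 := L5_J h7 h
    have h6 := L5_lin h7 hxyn hq
    rw [h6] at h2
    rw [h4] at h3
    linear_combination (-3 : ZMod n) * h3 - hh n 5 * h2

end Pool.Agent.Helper38.REG
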