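import Pool.Agent.Helper38.REG.Primes
import Pool.Agent.Helper38.REG.Units

/-! Project REG, module S: the prime ideals above `p ≡ 1 (mod n)`.
BLUEPRINT. `mem_PP_iff`: `pk h a` is a prime ideal containing `p` (kernel of a ring hom to the
field `ZMod p`). Conversely let `P` be prime with `p ∈ P`. With `W : ℕ` a lift of `w`,
`∏_{a : (ZMod n)ˣ} (z - W^a)` is `≡ Φ_n(z) = 0` modulo `p` (in `(ZMod p)[X]` the cyclotomic
polynomial splits as `∏ (X - w^a)`, e.g. `X^n - 1 = ∏ (X - w^i)`), so some `z - W^a ∈ P`; `pk h a`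
is contained in `P` (every `x = f(z)`, `x ≡ f(W^a)` mod `z - W^a`, and an integer in `pk` is
divisible by `p`), and `pk h a` is maximal. `pk_inj`: `w^a = w^b`.
`L_pi_pk`: `sg n a⁻¹` maps `pk h 1` onto `pk h a` (`tk_sg`, `sg_inv`), so
`Ideal.span {sg n a⁻¹ (pi (pk h 1))} = (pk h a) ^ HH = Ideal.span {pi (pk h a)}`; the two generators
differ by a unit, `unit_odd`, `L_sg`. -/

namespace Pool.Agent.Helper38.REG

open NumberField Finset

variable {n : ℕ} [hn : Fact n.Prime] {p : ℕ} [Fact p.Prime] {m : ℕ} {w : ZMod p}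

lemma pk_ne (h : QD n p m w) : p ≠ n := by
  rintro rfl
  have h1 := h.hm
  have h2 := h.mpos
  have h3 := hn.out.two_le
  have h4 : p * 1 ≤ p * m := Nat.mul_le_mul_left p h2
  omega

lemma tk_natCast (h : QD n p m w) (a : (ZMod n)ˣ) (k : ℕ) : tk h a (k : O n) = (k : ZMod p) :=
  map_natCast _ _

theorem mem_PP_iff (h : QD n p m w) {P : Ideal (O n)} : P ∈ PP n p ↔ ∃ a, P = pk h a := by
  have hp : p.Prime := Fact.out
  rw [mem_PP n hp]
  constructor
  · rintro ⟨hP, hpP⟩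
    have hdom : IsDomain (O n ⧸ P) := Ideal.Quotient.isDomain P
    have hp0 : ((p : ℕ) : O n ⧸ P) = 0 := by
      have := (Ideal.Quotient.eq_zero_iff_mem (I := P)).2 hpP
      rwa [map_natCast] at this
    have hchar : CharP (O n ⧸ P) p := by
      have h1 := CharP.ringChar_of_prime_eq_zero hp hp0
      exact ringChar.of_eq h1
    let ι : ZMod p →+* O n ⧸ P := ZMod.castHom (dvd_refl p) (O n ⧸ P)
    have hι : Function.Injective ι := ι.injective
    have hw : IsPrimitiveRoot (ι w) n := h.hw.map_of_injective hι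
    have hz : (Ideal.Quotient.mk P (z n)) ^ n = 1 := by
      rw [← map_pow, zn, map_one]
    have hne : NeZero n := ⟨hn.out.ne_zero⟩
    obtain ⟨i, hi, hie⟩ := hw.eq_pow_of_pow_eq_one hz
    have hi0 : (i : ZMod n) ≠ 0 := by
      intro h0
      have h1 : n ∣ i := (ZMod.natCast_eq_zero_iff i n).1 h0
      have h2 : i = 0 := Nat.eq_zero_of_dvd_of_lt h1 hi
      rw [h2, pow_zero] at hie
      have h3 := congrArg (Ideal.Quotient.mk P) (z_rel n)
      rw [map_zero, map_sum] at h3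
      have h4 : ∀ j ∈ Finset.range n, Ideal.Quotient.mk P (z n ^ j) = 1 := by
        intro j _
        rw [map_pow, ← hie, one_pow]
      rw [Finset.sum_congr rfl h4, Finset.sum_const, Finset.card_range, nsmul_eq_mul,
        mul_one] at h3
      have h5 := (CharP.cast_eq_zero_iff (O n ⧸ P) p n).1 h3
      have h6 := (Nat.prime_dvd_prime_iff_eq hp hn.out).1 h5
      exact pk_ne h h6
    refine ⟨Units.mk0 (i : ZMod n) hi0, ?_⟩
    have hcomp : Ideal.Quotient.mk P = ι.comp (tk h (Units.mk0 (i : ZMod n) hi0)) := by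
      apply hom_ext
      rw [RingHom.comp_apply, tk_z, map_pow, Units.val_mk0, ZMod.val_cast_of_lt hi, hie]
    ext x
    rw [mem_pk, ← Ideal.Quotient.eq_zero_iff_mem, hcomp, RingHom.comp_apply]
    exact map_eq_zero_iff ι hι
  · rintro ⟨a, rfl⟩
    refine ⟨RingHom.ker_isPrime _, ?_⟩
    rw [mem_pk, tk_natCast, ZMod.natCast_self]

theorem pk_inj (h : QD n p m w) {a b : (ZMod n)ˣ} : pk h a = pk h b ↔ a = b := by
  constructor
  · intro e
    have h1 : z n - ((w.val ^ (a : ZMod n).val : ℕ) : O n) ∈ pk h a := by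
      rw [mem_pk, map_sub, tk_z, tk_natCast, Nat.cast_pow, ZMod.natCast_zmod_val, sub_self]
    rw [e, mem_pk, map_sub, tk_z, tk_natCast, Nat.cast_pow, ZMod.natCast_zmod_val,
      sub_eq_zero, h.pow_eq_iff] at h1
    rw [ZMod.natCast_zmod_val, ZMod.natCast_zmod_val] at h1
    exact Units.ext h1.symm
  · rintro rfl
    rfl

lemma map_sg_pk (h : QD n p m w) (a : (ZMod n)ˣ) :
    Ideal.map (sg n a⁻¹) (pk h 1) = pk h a := by
  ext x
  rw [Ideal.mem_map_iff_of_surjective _ (sg_bij n a⁻¹).2]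
  constructor
  · rintro ⟨y, hy, rfl⟩
    rw [mem_pk, tk_sg, mul_inv_cancel]
    exact (mem_pk h 1 y).1 hy
  · intro hx
    refine ⟨sg n a x, ?_, sg_inv' n a x⟩
    rw [mem_pk, tk_sg, one_mul]
    exact (mem_pk h a x).1 hx

theorem L_pi_pk (h1 : Reg1 n) (h : QD n p m w) (a : (ZMod n)ˣ) {r : ℕ} (hr : Odd r) (h3 : 3 ≤ r)
    (h2 : r ≤ n - 2) : L n r (pi n (pk h a)) =
      ((a⁻¹ : (ZMod n)ˣ) : ZMod n) ^ r * L n r (pi n (pk h 1)) := by
  have hp : p.Prime := Fact.out
  have hok : ok n (pi n (pk h 1)) := ok_pi n h1 hp (pk_ne h) ((mem_PP_iff h).2 ⟨1, rfl⟩)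
  have hspan : Ideal.span {sg n a⁻¹ (pi n (pk h 1))} = Ideal.span {pi n (pk h a)} := by
    rw [pi_span, ← map_sg_pk h a, ← Ideal.map_pow, ← pi_span, Ideal.map_span,
      Set.image_singleton]
  obtain ⟨u, hu⟩ := Ideal.span_singleton_eq_span_singleton.1 hspan
  rw [← hu, L_mul n (by omega) h2 ((ok_sg n a⁻¹).2 hok) (ok_unit n u.isUnit),
    unit_odd n hr h3 h2 u.isUnit, add_zero, L_sg n (by omega) h2 a⁻¹ hok]

end Pool.Agent.Helper38.REG
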